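import Pool.Agent.AcyTest.Targets

/-!
# MP_08c6cd_lc: graphs without short cycles (jobs TREE and APART)
-/

namespace Pool.Agent.AcyTest

namespace TREE

/-- The walk along a sequence of consecutively adjacent vertices. -/
theorem walk_along {V : Type} (G : SimpleGraph V) (w : ℕ → V) (a : ℕ) :
    ∀ n : ℕ, (∀ i < n, G.Adj (w (a + i)) (w (a + i + 1))) →
      ∃ p : G.Walk (w a) (w (a + n)), p.length = n ∧
        p.support = (List.range (n + 1)).map fun t => w (a + t) := by
  intro n
  induction n with
  | zero =>
    intro _
    exact ⟨.nil, rfl, by simp⟩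
  | succ n ih =>
    intro h
    obtain ⟨p, hp, hs⟩ := ih fun i hi => h i (hi.trans (Nat.lt_succ_self n))
    have hadj : G.Adj (w (a + n)) (w (a + (n + 1))) := h n (Nat.lt_succ_self n)
    refine ⟨p.concat hadj, ?_, ?_⟩
    · rw [SimpleGraph.Walk.length_concat, hp]
    · rw [SimpleGraph.Walk.support_concat, hs, List.range_succ (n := n + 1), List.map_append]
      simp

end TREE

open TREE

theorem tTREE : T_TREE := by
  classical
  intro V G g hG x y p q hp hq hpq
  set S : Set (Sym2 V) := {e | e ∈ p.edges ∨ e ∈ q.edges} with hS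
  set G' : SimpleGraph V := SimpleGraph.fromEdgeSet S with hG'
  have hedge : G'.edgeSet ⊆ S := by
    rw [hG', SimpleGraph.edgeSet_fromEdgeSet]
    exact Set.sdiff_subset
  have hmem : ∀ e, e ∈ S → e ∈ G.edgeSet := by
    intro e he
    rcases he with he | he
    · exact p.edges_subset_edgeSet he
    · exact q.edges_subset_edgeSet he
  have hin : ∀ e, e ∈ S → e ∈ G'.edgeSet := by
    intro e he
    rw [hG', SimpleGraph.edgeSet_fromEdgeSet]
    exact ⟨he, G.not_isDiag_of_mem_edgeSet (hmem e he)⟩
  have hle : G' ≤ G := by
    intro a b hab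
    have : s(a, b) ∈ G'.edgeSet := hab
    exact hmem _ (hedge this)
  have hpe : ∀ e ∈ p.edges, e ∈ G'.edgeSet := fun e he => hin e (Or.inl he)
  have hqe : ∀ e ∈ q.edges, e ∈ G'.edgeSet := fun e he => hin e (Or.inr he)
  by_cases hac : G'.IsAcyclic
  · have h : (⟨p.transfer G' hpe, hp.transfer hpe⟩ : G'.Path x y) =
        ⟨q.transfer G' hqe, hq.transfer hqe⟩ :=
      @Subsingleton.elim _ (hac.subsingleton_path x y) _ _
    have h' : p.transfer G' hpe = q.transfer G' hqe := congrArg Subtype.val h
    apply SimpleGraph.Walk.ext_support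
    rw [← SimpleGraph.Walk.support_transfer p hpe, h', SimpleGraph.Walk.support_transfer]
  · exfalso
    unfold SimpleGraph.IsAcyclic at hac
    push Not at hac
    obtain ⟨v, c, hc⟩ := hac
    have hcyc : (c.mapLe hle).IsCycle := hc.mapLe hle
    have h1 := hG v (c.mapLe hle) hcyc
    have h2 : (c.mapLe hle).length ≤ g := by
      have hlen : (c.mapLe hle).length = c.edges.length := by
        rw [← SimpleGraph.Walk.length_edges, SimpleGraph.Walk.edges_mapLe_eq_edges]
      rw [hlen]
      have hsub : c.edges ⊆ p.edges ++ q.edges := by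
        intro e he
        have := hedge (c.edges_subset_edgeSet he)
        rw [List.mem_append]
        exact this
      have := (List.Nodup.subperm hc.edges_nodup hsub).length_le
      rw [List.length_append, p.length_edges, q.length_edges] at this
      exact this.trans hpq
    omega

theorem tAPART (hTREE : T_TREE) : T_APART := by
  classical
  intro V G g h w hG hadj hinj i j hij hjh p hp
  obtain ⟨n, rfl⟩ := Nat.exists_eq_add_of_le hij
  obtain ⟨p', hl, hs⟩ := walk_along G w i n fun t ht => hadj (i + t) (by omega)
  have hpath : p'.IsPath := by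
    rw [SimpleGraph.Walk.isPath_def, hs]
    apply List.Nodup.map_on _ List.nodup_range
    intro a ha b hb hab
    rw [List.mem_range] at ha hb
    have := hinj (Set.mem_Iic.2 (by omega : i + a ≤ h)) (Set.mem_Iic.2 (by omega : i + b ≤ h)) hab
    omega
  have hb := SimpleGraph.Walk.length_bypass_le_length p
  have heq := hTREE V G g hG _ _ p.bypass p' p.bypass_isPath hpath (by omega)
  have : p.bypass.length = n := by rw [heq, hl]
  omega

end Pool.Agent.AcyTest
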