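import Pool.Agent.AcyTest.Targets

/-!
# Job ACY-POT: voltages are potential differences in a ball
-/

namespace Pool.Agent.AcyTest

namespace POT

variable {V Γ : Type} [Group Γ] {G : SimpleGraph V}

/-- The voltage of a walk. -/
def vol (s : V → V → Γ) : ∀ {u v : V}, G.Walk u v → Γ
  | _, _, .nil => 1
  | u, _, .cons (v := w) _ p => vol s p * s u w

theorem vol_concat (s : V → V → Γ) {u v w : V} (p : G.Walk u v) (h : G.Adj v w) :
    vol s (p.concat h) = s v w * vol s p := by
  induction p with
  | nil => simp [SimpleGraph.Walk.concat_nil, vol]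
  | cons h' p ih => rw [SimpleGraph.Walk.concat_cons, vol, vol, ih, mul_assoc]

open Classical in
/-- A shortest walk from `v₀`. -/
theorem exists_short (v₀ : V) : ∃ P : ∀ u, G.Reachable v₀ u → G.Walk v₀ u,
    ∀ u hu, (P u hu).IsPath ∧ (P u hu).length = G.dist v₀ u := by
  choose P hP using fun (u : V) (hu : G.Reachable v₀ u) => hu.exists_path_of_dist
  exact ⟨P, hP⟩

end POT

open POT in
theorem tPOT (hTREE : T_TREE) : T_POT := by
  intro V Γ _ G h v₀ s hL hs
  classical
  obtain ⟨P, hP⟩ := exists_short (G := G) v₀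
  let τ : V → Γ := fun u => if hu : G.Reachable v₀ u then vol s (P u hu) else 1
  have key : ∀ u v, G.Adj u v → (∃ p : G.Walk v₀ u, p.length ≤ h) →
      (∃ p : G.Walk v₀ v, p.length ≤ h) → ∀ hu : G.Reachable v₀ u, v ∉ (P u hu).support →
      τ v = s u v * τ u := by
    rintro u v huv ⟨p, hp⟩ ⟨q, hq⟩ hu hv
    have hrv : G.Reachable v₀ v := ⟨q⟩
    have h1 : (P u hu).length ≤ h := by
      rw [(hP u hu).2]
      exact (SimpleGraph.dist_le p).trans hp
    have h2 : (P v hrv).length ≤ h := by
      rw [(hP v hrv).2]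
      exact (SimpleGraph.dist_le q).trans hq
    have h3 : ((P u hu).concat huv).IsPath := (hP u hu).1.concat hv huv
    have h4 := hTREE V G _ hL v₀ v _ _ h3 (hP v hrv).1 (by
      rw [SimpleGraph.Walk.length_concat]
      omega)
    change (if hu : G.Reachable v₀ v then vol s (P v hu) else 1) =
      s u v * (if hu : G.Reachable v₀ u then vol s (P u hu) else 1)
    rw [dif_pos hrv, dif_pos hu, ← h4, vol_concat]
  refine ⟨τ, fun u v huv hpu hpv => ?_⟩
  have hru : G.Reachable v₀ u := ⟨hpu.choose⟩
  have hrv : G.Reachable v₀ v := ⟨hpv.choose⟩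
  by_cases hv : v ∈ (P u hru).support
  · have h1 : G.dist v₀ v < G.dist v₀ u := by
      rw [← (hP u hru).2]
      exact (SimpleGraph.dist_le _).trans_lt
        ((P u hru).length_takeUntil_lt_length hv huv.ne')
    have h2 : u ∉ (P v hrv).support := by
      intro hu
      have h3 : G.dist v₀ u < G.dist v₀ v := by
        rw [← (hP v hrv).2]
        exact (SimpleGraph.dist_le _).trans_lt
          ((P v hrv).length_takeUntil_lt_length hu huv.ne)
      omega
    have h3 := key v u huv.symm hpv hpu hrv h2
    rw [h3, hs u v, mul_inv_cancel_left]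
  · exact key u v huv hpu hpv hru hv

end Pool.Agent.AcyTest
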