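import Pool.Agent.AcyTest.Targets

/-!
# MP_08c6cd_lc: incidence lists of relations; relabelled graphs are far
-/

namespace Pool.Agent.AcyTest

namespace REL

lemma exists_list {V : Type} [Finite V] (S : Set V) (d : ℕ) (hS : S.ncard ≤ d) :
    ∃ f : Fin d → Option V, (∀ i j u, f i = some u → f j = some u → i = j) ∧
      (∀ i j, i ≤ j → (f j).isSome → (f i).isSome) ∧ ∀ u, (∃ i, f i = some u) ↔ u ∈ S := by
  classical
  set l := (Set.toFinite S).toFinset.toList with hl
  have hlen : l.length ≤ d := by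
    rw [hl, Finset.length_toList, ← Set.ncard_eq_toFinset_card S (Set.toFinite S)]
    exact hS
  have hnd : l.Nodup := Finset.nodup_toList _
  have hmem : ∀ u, u ∈ l ↔ u ∈ S := by intro u; simp [hl]
  refine ⟨fun i => l[i.1]?, ?_, ?_, ?_⟩
  · intro i j u hi hj
    simp only at hi hj
    obtain ⟨h1, h1'⟩ := List.getElem?_eq_some_iff.1 hi
    obtain ⟨h2, h2'⟩ := List.getElem?_eq_some_iff.1 hj
    exact Fin.ext (hnd.getElem_inj_iff.1 (h1'.trans h2'.symm))
  · intro i j hij h
    simp only [isSome_getElem?] at h ⊢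
    exact lt_of_le_of_lt hij h
  · intro u
    rw [← hmem, List.mem_iff_getElem?]
    constructor
    · rintro ⟨i, hi⟩
      exact ⟨i.1, hi⟩
    · rintro ⟨i, hi⟩
      obtain ⟨h1, _⟩ := List.getElem?_eq_some_iff.1 hi
      exact ⟨⟨i, h1.trans_le hlen⟩, hi⟩

/-- the number of out-neighbours -/
lemma ncard_out {V : Type} [Finite V] {d : ℕ} (G : DG V d) (v : V) :
    Set.ncard {u | G.E v u} ≤ d := by
  classical
  have h : {u | G.E v u} ⊆ (fun i => (G.out v i).getD v) '' (Set.univ : Set (Fin d)) := by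
    rintro u ⟨i, hi⟩
    exact ⟨i, Set.mem_univ _, by simp [hi]⟩
  calc Set.ncard {u | G.E v u} ≤ ((fun i => (G.out v i).getD v) '' (Set.univ : Set (Fin d))).ncard :=
        Set.ncard_le_ncard h (Set.toFinite _)
    _ ≤ (Set.univ : Set (Fin d)).ncard := Set.ncard_image_le (Set.toFinite _)
    _ = d := by rw [Set.ncard_univ]; simp

lemma ncard_inn {V : Type} [Finite V] {d : ℕ} (G : DG V d) (v : V) :
    Set.ncard {u | G.E u v} ≤ d := by
  classical
  have h : {u | G.E u v} ⊆ (fun i => (G.inn v i).getD v) '' (Set.univ : Set (Fin d)) := by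
    rintro u hu
    obtain ⟨j, hj⟩ := (G.compat u v).1 hu
    exact ⟨j, Set.mem_univ _, by simp [hj]⟩
  calc Set.ncard {u | G.E u v} ≤ ((fun i => (G.inn v i).getD v) '' (Set.univ : Set (Fin d))).ncard :=
        Set.ncard_le_ncard h (Set.toFinite _)
    _ ≤ (Set.univ : Set (Fin d)).ncard := Set.ncard_image_le (Set.toFinite _)
    _ = d := by rw [Set.ncard_univ]; simp

end REL

open REL

theorem tREL : T_REL := by
  intro V _ d E h1 h2 h3
  choose f hf1 hf2 hf3 using fun u => exists_list {v | E u v} d (h1 u)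
  choose g hg1 hg2 hg3 using fun v => exists_list {u | E u v} d (h2 v)
  refine ⟨⟨f, g, hf1, hg1, hf2, hg2, ?_, ?_⟩, ?_⟩
  · intro u v
    rw [hf3 u v, hg3 v u]
    rfl
  · intro v i hi
    exact h3 v ((hf3 v v).1 ⟨i, hi⟩)
  · intro u v
    exact hf3 u v

theorem tMINUS : T_MINUS := by
  intro V _ d P Z
  classical
  choose f hf1 hf2 hf3 using fun v => exists_list {u | P.E v u ∧ u ∈ Z} d
    ((Set.ncard_le_ncard (fun u hu => hu.1) (Set.toFinite _)).trans (ncard_out P v))
  choose g hg1 hg2 hg3 using fun v => exists_list {u | P.E u v ∧ u ∈ Z} d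
    ((Set.ncard_le_ncard (fun u hu => hu.1) (Set.toFinite _)).trans (ncard_inn P v))
  have hout : ∀ u v, (∃ i, (if u ∈ Z then P.out u else f u) i = some v) ↔
      P.E u v ∧ (u ∈ Z ∨ v ∈ Z) := by
    intro u v
    by_cases hu : u ∈ Z
    · simp only [hu, if_true, true_or, and_true]
      rfl
    · simp only [hu, if_false, false_or]
      exact hf3 u v
  have hinn : ∀ u v, (∃ i, (if v ∈ Z then P.inn v else g v) i = some u) ↔
      P.E u v ∧ (u ∈ Z ∨ v ∈ Z) := by
    intro u v
    by_cases hv : v ∈ Z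
    · simp only [hv, if_true, or_true, and_true]
      exact (P.compat u v).symm
    · simp only [hv, if_false, or_false]
      exact hg3 v u
  refine ⟨⟨fun v => if v ∈ Z then P.out v else f v, fun v => if v ∈ Z then P.inn v else g v,
    ?_, ?_, ?_, ?_, ?_, ?_⟩, ?_, ?_⟩
  · intro v
    by_cases hv : v ∈ Z
    · simp only [hv, if_true]; exact P.out_inj v
    · simp only [hv, if_false]; exact hf1 v
  · intro v
    by_cases hv : v ∈ Z
    · simp only [hv, if_true]; exact P.inn_inj v
    · simp only [hv, if_false]; exact hg1 v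
  · intro v
    by_cases hv : v ∈ Z
    · simp only [hv, if_true]; exact P.out_mono v
    · simp only [hv, if_false]; exact hf2 v
  · intro v
    by_cases hv : v ∈ Z
    · simp only [hv, if_true]; exact P.inn_mono v
    · simp only [hv, if_false]; exact hg2 v
  · intro u v
    rw [hout u v, hinn u v]
  · intro v i hi
    exact P.E_irrefl v ((hout v v).1 ⟨i, hi⟩).1
  · intro u v
    exact hout u v
  · intro v hv
    simp only [hv, if_true]
    exact ⟨trivial, trivial⟩

theorem tFAR : T_FAR := by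
  intro n d W L π x ε hL hx G' hG'
  classical
  set F : W → W → Prop := fun u v => G'.E (π.symm u) (π.symm v) with hF
  have hacy : AcyR F := by
    intro v hv
    apply hG' (π.symm v)
    exact Relation.TransGen.lift π.symm (fun _ _ h => h) _ _ hv
  have h1 := hL F hacy
  have h2 : Set.ncard {p : W × W | L.E p.1 p.2 ∧ ¬ F p.1 p.2} ≤ (L.pull π).diff G' := by
    unfold DG.diff
    refine Set.ncard_le_ncard_of_injOn (fun p => (π.symm p.1, π.symm p.2)) ?_ ?_ (Set.toFinite _)
    · rintro ⟨u, v⟩ ⟨hu, hv⟩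
      simp only [Set.mem_ofPred_eq, DG.pull_E, Equiv.apply_symm_apply]
      exact fun h => hv (h.1 hu)
    · rintro ⟨u, v⟩ _ ⟨u', v'⟩ _ h
      simp only [Prod.mk.injEq, EmbeddingLike.apply_eq_iff_eq] at h
      exact Prod.ext h.1 h.2
  calc ε * d * n < x := hx
    _ ≤ _ := h1
    _ ≤ _ := by exact_mod_cast h2

end Pool.Agent.AcyTest
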