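import Pool.Agent.AcyTest.Basic

/-!
# MP_08c6cd_lc: targets of the jobs ACY-*

Proofs: `Blueprint.lean.txt`.
-/

namespace Pool.Agent.AcyTest

/-! ## The hard base graph -/

/-- CUT: for most pairs of permutations every balanced cut is crossed often. -/
def T_CUT : Prop := ∃ N₀ : ℕ, ∀ N ≥ N₀,
  4 * Nat.card {ab : Equiv.Perm (Fin N) × Equiv.Perm (Fin N) //
    ∃ A : Finset (Fin N), A.card = N / 2 ∧
      (Aᶜ.filter fun x => ab.1 x ∈ A).card + (Aᶜ.filter fun x => ab.2 x ∈ A).card ≤ N / 100}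
    ≤ (N.factorial) ^ 2

/-- The permutation `a` (`true`) or `b` (`false`). -/
def sel {N : ℕ} (ab : Equiv.Perm (Fin N) × Equiv.Perm (Fin N)) (t : Bool) : Equiv.Perm (Fin N) :=
  if t then ab.1 else ab.2

/-- `(x, s)` is a cyclic tuple of length `ℓ`: distinct vertices, from `x i` to `x (i+1)` one goes
along an edge `(t, y)` (from `y` to `sel ab t y`), forwards if `(s i).2`, backwards otherwise, and the
`ℓ` edges are distinct. -/
def IsCyc {N : ℕ} (ab : Equiv.Perm (Fin N) × Equiv.Perm (Fin N)) (ℓ : ℕ) (x : ZMod ℓ → Fin N)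
    (s : ZMod ℓ → Bool × Bool) : Prop :=
  Function.Injective x ∧
  (∀ i, if (s i).2 then sel ab (s i).1 (x i) = x (i + 1) else sel ab (s i).1 (x (i + 1)) = x i) ∧
  Function.Injective fun i => ((s i).1, if (s i).2 then x i else x (i + 1))

/-- CYC: on average there are at most `4 ^ ℓ` cyclic tuples of length `ℓ`. -/
def T_CYC : Prop := ∀ N ℓ : ℕ, 1 ≤ ℓ →
  Nat.card {q : (Equiv.Perm (Fin N) × Equiv.Perm (Fin N)) × (ZMod ℓ → Fin N) ×
    (ZMod ℓ → Bool × Bool) // IsCyc q.1 ℓ q.2.1 q.2.2} ≤ 4 ^ ℓ * (N.factorial) ^ 2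

/-- DOWN: down-closed sets of every size for acyclic relations. -/
def T_DOWN : Prop := ∀ (V : Type) [Fintype V] (F : V → V → Prop), AcyR F →
  ∀ k ≤ Fintype.card V, ∃ A : Finset V, A.card = k ∧ ∀ u v, F u v → v ∈ A → u ∈ A

/-- PRESC: permutations with prescribed values. -/
def T_PRESC : Prop := ∀ (N : ℕ) (ι : Type) [Fintype ι] (y z : ι → Fin N), Function.Injective y →
  Nat.card {a : Equiv.Perm (Fin N) // ∀ i, a (y i) = z i} ≤ (N - Fintype.card ι).factorial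

/-- DEL: if each short cyclic tuple has its first edge in `Del`, then the remaining edges form a
digraph without short cycles. -/
def T_DEL : Prop := ∀ (N g : ℕ) (ab : Equiv.Perm (Fin N) × Equiv.Perm (Fin N))
  (Del : Set (Bool × Fin N)), 2 ≤ g →
  (∀ ℓ, 1 ≤ ℓ → ℓ ≤ g → ∀ (x : ZMod ℓ → Fin N) (s : ZMod ℓ → Bool × Bool), IsCyc ab ℓ x s →
    ((s 0).1, if (s 0).2 then x 0 else x (0 + 1)) ∈ Del) →
  (∀ u v, (∃ t, sel ab t u = v ∧ (t, u) ∉ Del) → ¬ ∃ t, sel ab t v = u ∧ (t, v) ∉ Del) ∧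
  (∀ u t t', sel ab t u = sel ab t' u → (t, u) ∉ Del → (t', u) ∉ Del → t = t') ∧
  LongCyc (undR fun u v => ∃ t, sel ab t u = v ∧ (t, u) ∉ Del) g

/-- EXA: two permutations with few short cyclic tuples and no sparse balanced cut give a base
graph. -/
def T_EXA : Prop := ∀ (N g D : ℕ) (ab : Equiv.Perm (Fin N) × Equiv.Perm (Fin N)), 2 ≤ g →
  (∀ A : Finset (Fin N), A.card = N / 2 →
    N / 100 < (Aᶜ.filter fun x => ab.1 x ∈ A).card + (Aᶜ.filter fun x => ab.2 x ∈ A).card) →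
  ∑ ℓ ∈ Finset.Icc 1 g, Nat.card {q : (ZMod ℓ → Fin N) × (ZMod ℓ → Bool × Bool) //
    IsCyc ab ℓ q.1 q.2} ≤ D →
  ∃ E : Fin N → Fin N → Prop,
    (∀ u, Set.ncard {v | E u v} ≤ 2) ∧ (∀ v, Set.ncard {u | E u v} ≤ 2) ∧
    (∀ u v, E u v → ¬ E v u) ∧ LongCyc (undR E) g ∧ FasGe E ((N : ℝ) / 100 - D)

/-- EX: the base graph. -/
def T_EX : Prop := ∃ c₀ : ℝ, 0 < c₀ ∧ ∃ N₀ : ℕ, ∀ N ≥ N₀, ∃ E : Fin N → Fin N → Prop,
  (∀ u, Set.ncard {v | E u v} ≤ 2) ∧ (∀ v, Set.ncard {u | E u v} ≤ 2) ∧ (∀ u v, E u v → ¬ E v u) ∧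
  LongCyc (undR E) ⌊c₀ * Real.log N⌋₊ ∧ FasGe E ((N : ℝ) / 200)

/-! ## Lists and relations -/

/-- REL: incidence lists of a relation. -/
def T_REL : Prop := ∀ (V : Type) [Fintype V] (d : ℕ) (E : V → V → Prop),
  (∀ u, Set.ncard {v | E u v} ≤ d) → (∀ v, Set.ncard {u | E u v} ≤ d) → (∀ v, ¬ E v v) →
  ∃ G : DG V d, ∀ u v, G.E u v ↔ E u v

/-- MINUS: keep only the edges which meet `Z`, and the lists of the members of `Z`. -/
def T_MINUS : Prop := ∀ (V : Type) [Fintype V] (d : ℕ) (P : DG V d) (Z : Set V),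
  ∃ P' : DG V d, (∀ u v, P'.E u v ↔ P.E u v ∧ (u ∈ Z ∨ v ∈ Z)) ∧
    ∀ v ∈ Z, P'.out v = P.out v ∧ P'.inn v = P.inn v

/-- FAR: relabelled graphs with a large feedback arc number are far from acyclic. -/
def T_FAR : Prop := ∀ (n d : ℕ) (W : Type) (L : DG W d) (π : Fin n ≃ W) (x ε : ℝ),
  FasGe L.E x → ε * d * n < x → (L.pull π).Far ε

/-! ## Runs -/

/-- RUN: tables agree if the answers agree; labels are near fresh labels; few labels are seen. -/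
def T_RUN : Prop := ∀ (V : Type) [DecidableEq V] (d : ℕ) (A : RAlg V d) (G : DG V d),
  (∀ (G' : DG V d) (r : ℕ), (∀ k < r, ∀ x ∈ A.qs G k, G'.ans x = G.ans x) →
    ∀ k ≤ r, A.table G' k = A.table G k) ∧
  (∀ k, ∀ x ∈ A.lab G k, ∃ j ≤ k, ∃ y ∈ A.fresh G j, ∃ p : G.und.Walk y x, p.length ≤ k) ∧
  (∀ k, (A.known G k ∪ A.fresh G k).card ≤ 2 * A.cost G (k + 1))

/-- HIT: disjoint sets are rarely all hit by fresh labels. -/
def T_HIT : Prop := ∀ (n d : ℕ) (W : Type) [Fintype W] [DecidableEq W] (L : DG W d)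
  (A : RAlg (Fin n) d) (r q m s : ℕ), (∀ G, A.cost G r ≤ q) → ∀ U : Fin m → Finset W,
  (∀ i j, i ≠ j → Disjoint (U i) (U j)) → (∀ i, (U i).card ≤ s) →
  Nat.card {π : Fin n ≃ W // ∀ i, ∃ k < r, ∃ x ∈ A.fresh (L.pull π) k, π x ∈ U i} * (n - 2 * q) ^ m
    ≤ (s * (r * q)) ^ m * Nat.card (Fin n ≃ W)

/-- SEED: small sets far from each other are rarely all hit by labels asked about. -/
def T_SEED : Prop := ∀ (n d : ℕ) (W : Type) [Fintype W] [DecidableEq W] (L : DG W d)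
  (A : RAlg (Fin n) d) (r q m s : ℕ), (∀ G, A.cost G r ≤ q) → ∀ S : Fin m → Finset W,
  (∀ i, (S i).card ≤ s) →
  (∀ i j, i ≠ j → ∀ x ∈ S i, ∀ y ∈ S j, ∀ p : L.und.Walk x y, 2 * r < p.length) →
  Nat.card {π : Fin n ≃ W // ∀ i, ∃ x ∈ A.labs (L.pull π) r, π x ∈ S i} * (n - 2 * q) ^ m
    ≤ (s * (2 * d + 1) ^ r * (r * q)) ^ m * Nat.card (Fin n ≃ W)

/-! ## Graphs without short cycles -/

/-- TREE: two different paths give a cycle. -/
def T_TREE : Prop := ∀ (V : Type) (G : SimpleGraph V) (g : ℕ), LongCyc G g →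
  ∀ (x y : V) (p q : G.Walk x y), p.IsPath → q.IsPath → p.length + q.length ≤ g → p = q

/-- APART: vertices of a short path are as far from each other as on the path. -/
def T_APART : Prop := ∀ (V : Type) (G : SimpleGraph V) (g h : ℕ) (w : ℕ → V), LongCyc G g →
  (∀ i < h, G.Adj (w i) (w (i + 1))) → Set.InjOn w (Set.Iic h) →
  ∀ i j, i ≤ j → j ≤ h → ∀ p : G.Walk (w i) (w j), p.length + (j - i) ≤ g → j - i ≤ p.length

/-- DCYC: a relation with a directed cycle and without short cycles has a long directed path. -/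
def T_DCYC : Prop := ∀ (V : Type) (F : V → V → Prop) (g h : ℕ), ¬ AcyR F →
  (∀ u v, F u v → ¬ F v u) → LongCyc (undR F) g → h ≤ g →
  ∃ w : ℕ → V, (∀ i < h, F (w i) (w (i + 1))) ∧ Set.InjOn w (Set.Iic h)

/-- POT: voltages are potential differences near `v₀`. -/
def T_POT : Prop := ∀ (V Γ : Type) [Group Γ] (G : SimpleGraph V) (h : ℕ) (v₀ : V) (s : V → V → Γ),
  LongCyc G (2 * h + 1) → (∀ u v, s v u = (s u v)⁻¹) →
  ∃ τ : V → Γ, ∀ u v, G.Adj u v → (∃ p : G.Walk v₀ u, p.length ≤ h) →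
    (∃ p : G.Walk v₀ v, p.length ≤ h) → τ v = s u v * τ u

/-! ## One-sided testers -/

/-- ONE: a deterministic algorithm which accepts all acyclic digraphs rarely rejects. -/
def T_ONE : Prop := ∀ (n d : ℕ) (W : Type) [Fintype W] [DecidableEq W] (L : DG W d)
  (A : RAlg (Fin n) d) (r q m g h : ℕ), (∀ G, A.cost G r ≤ q) →
  (∀ G : DG (Fin n) d, G.Acyclic → A.acc (A.table G r) = true) →
  (∀ u v, L.E u v → ¬ L.E v u) → LongCyc L.und g → m * (2 * r + 2) ≤ h → h + 2 * r ≤ g → 1 ≤ h →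
  Nat.card {π : Fin n ≃ W // A.acc (A.table (L.pull π) r) = false} * (n - 2 * q) ^ m
    ≤ Fintype.card W * d ^ h * (2 * (2 * d + 1) ^ r * (r * q)) ^ m * Nat.card (Fin n ≃ W)

/-- The first theorem. -/
def T_ONESIDED : Prop := ∀ d : ℕ, 2 ≤ d → ∃ ε₀ : ℝ, 0 < ε₀ ∧ ∃ C : ℝ, 1 < C ∧ ∃ n₀ : ℕ,
  ∀ n ≥ n₀, ∀ r q : ℕ, 1 ≤ r → 1 ≤ q → ∀ ε : ℝ, 0 < ε → ε ≤ ε₀ → ∀ T : Tester n d r q,
    T.IsOneSided ε → (n : ℝ) ≤ C ^ r * q

/-! ## Two-sided testers -/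

/-- LFAS: feedback arcs of `K` disjoint copies. -/
def T_LFAS : Prop := ∀ (U : Type) [Finite U] (d K s : ℕ) (H : DG U d) (x : ℝ), FasGe H.E x →
  FasGe (H.lift K s fun _ _ => 1).E (K * x)

/-- CACY: the layered digraph is acyclic. -/
def T_CACY : Prop := ∀ (U : Type) (d K s : ℕ) (H : DG U d), (H.cut K s).Acyclic

/-- CCUT: the cyclic lift and the layered digraph are hard to tell apart. -/
def T_CCUT : Prop := ∀ (n d : ℕ) (U : Type) [Fintype U] [DecidableEq U] (H : DG U d) (K s : ℕ)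
  (A : RAlg (Fin n) d) (r q : ℕ), (∀ G, A.cost G r ≤ q) → 0 < K →
  Nat.card {π : Fin n ≃ (U × Fin K) ⊕ Fin s // A.acc (A.table ((H.cut K s).pull π) r) = true}
    * (n - 2 * q)
  ≤ Nat.card {π : Fin n ≃ (U × Fin K) ⊕ Fin s //
      A.acc (A.table ((H.lift K s fun _ _ => finRotate K).pull π) r) = true} * (n - 2 * q) +
    2 * Fintype.card U * (2 * d + 1) ^ r * (r * q) * Nat.card (Fin n ≃ (U × Fin K) ⊕ Fin s)

/-- SURG: changing a voltage by a transposition changes little. The right-hand side counts the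
labellings for which the algorithm asks about every edge, in one of two sheets, of a path of length
`h` of `H` which starts at `v₀`. -/
def T_SURG : Prop := ∀ (n d : ℕ) (U : Type) [Fintype U] [DecidableEq U] (H : DG U d) (K s h : ℕ)
  (A : RAlg (Fin n) d) (r : ℕ) (σ : U → U → Equiv.Perm (Fin K)) (u₀ v₀ : U) (k₁ k₂ : Fin K),
  (∀ u v, H.E u v → ¬ H.E v u) → LongCyc H.und (2 * h + 1) → 1 ≤ h → H.E u₀ v₀ →
  ∃ β δ : U → Fin K,
  Nat.card {π : Fin n ≃ (U × Fin K) ⊕ Fin s //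
      A.acc (A.table ((H.lift K s σ).pull π) r) = true}
  ≤ Nat.card {π : Fin n ≃ (U × Fin K) ⊕ Fin s // A.acc (A.table ((H.lift K s (Function.update σ u₀
      (Function.update (σ u₀) v₀ (σ u₀ v₀ * Equiv.swap k₁ k₂)))).pull π) r) = true} +
    Nat.card {π : Fin n ≃ (U × Fin K) ⊕ Fin s // ∃ w : ℕ → U, w 0 = v₀ ∧
      (∀ i < h, H.und.Adj (w i) (w (i + 1))) ∧ Set.InjOn w (Set.Iic h) ∧
      ∀ i < h, ∃ x ∈ A.labs ((H.lift K s σ).pull π) r,
        π x = .inl (w i, β (w i)) ∨ π x = .inl (w i, δ (w i)) ∨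
        π x = .inl (w (i + 1), β (w (i + 1))) ∨ π x = .inl (w (i + 1), δ (w (i + 1)))}

/-- BAD: the error term of SURG is small. -/
def T_BAD : Prop := ∀ (n d : ℕ) (U : Type) [Fintype U] [DecidableEq U] (H : DG U d)
  (K s h g m : ℕ) (A : RAlg (Fin n) d) (r q : ℕ) (σ : U → U → Equiv.Perm (Fin K)) (v₀ : U)
  (β δ : U → Fin K), (∀ G, A.cost G r ≤ q) → LongCyc H.und g → m * (2 * r + 2) ≤ h →
  h + 2 * r ≤ g →
  Nat.card {π : Fin n ≃ (U × Fin K) ⊕ Fin s // ∃ w : ℕ → U, w 0 = v₀ ∧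
      (∀ i < h, H.und.Adj (w i) (w (i + 1))) ∧ Set.InjOn w (Set.Iic h) ∧
      ∀ i < h, ∃ x ∈ A.labs ((H.lift K s σ).pull π) r,
        π x = .inl (w i, β (w i)) ∨ π x = .inl (w i, δ (w i)) ∨
        π x = .inl (w (i + 1), β (w (i + 1))) ∨ π x = .inl (w (i + 1), δ (w (i + 1)))}
    * (n - 2 * q) ^ m
  ≤ (2 * d) ^ h * (4 * (2 * d + 1) ^ r * (r * q)) ^ m * Nat.card (Fin n ≃ (U × Fin K) ⊕ Fin s)

/-- CHAIN: from the cyclic lift to disjoint copies. -/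
def T_CHAIN : Prop := ∀ (n d : ℕ) (U : Type) [Fintype U] [DecidableEq U] (H : DG U d)
  (K s B : ℕ) (A : RAlg (Fin n) d) (r : ℕ),
  (∀ (σ : U → U → Equiv.Perm (Fin K)) (u₀ v₀ : U) (k₁ k₂ : Fin K), H.E u₀ v₀ →
    Nat.card {π : Fin n ≃ (U × Fin K) ⊕ Fin s //
      A.acc (A.table ((H.lift K s σ).pull π) r) = true}
    ≤ Nat.card {π : Fin n ≃ (U × Fin K) ⊕ Fin s // A.acc (A.table ((H.lift K s (Function.update σ
      u₀ (Function.update (σ u₀) v₀ (σ u₀ v₀ * Equiv.swap k₁ k₂)))).pull π) r) = true} + B) →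
  ∀ σ σ' : U → U → Equiv.Perm (Fin K),
    Nat.card {π : Fin n ≃ (U × Fin K) ⊕ Fin s //
      A.acc (A.table ((H.lift K s σ).pull π) r) = true}
    ≤ Nat.card {π : Fin n ≃ (U × Fin K) ⊕ Fin s //
      A.acc (A.table ((H.lift K s σ').pull π) r) = true} + Fintype.card U ^ 2 * K * B

/-- The second theorem. -/
def T_TWOSIDED : Prop := ∀ d : ℕ, 2 ≤ d → ∃ ε₀ : ℝ, 0 < ε₀ ∧ ∃ c : ℝ, 0 < c ∧
  ∀ γ : ℝ, 0 < γ → γ < 1 → ∃ n₀ : ℕ, ∀ n ≥ n₀, ∀ r q : ℕ, (r : ℝ) ≤ c * γ ^ 2 * Real.log n →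
    ∀ ε : ℝ, 0 < ε → ε ≤ ε₀ → ∀ T : Tester n d r q, T.IsTester ε → (n : ℝ) ^ (1 - γ) < q

end Pool.Agent.AcyTest
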