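import Pool.Agent.AcyTest.Targets

/-!
# Job ACY-BAD: the error term of SURG is small
-/

namespace Pool.Agent.AcyTest

namespace BAD

variable {U : Type} {d h : ℕ}

/-- The answer to a coded step. -/
def stp (H : DG U d) (x : U) (c : Bool × Fin d) : Option U := H.ans (c.1, x, c.2)

/-- The walk from `x` along the neighbours with codes `μ`. -/
def follow (H : DG U d) (x : U) (μ : Fin h → Bool × Fin d) : ℕ → U
  | 0 => x
  | i + 1 => if hi : i < h then (stp H (follow H x μ i) (μ ⟨i, hi⟩)).getD (follow H x μ i)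
      else follow H x μ i

theorem follow_eq (H : DG U d) (w : ℕ → U) (μ : Fin h → Bool × Fin d)
    (hμ : ∀ i : Fin h, stp H (w i) (μ i) = some (w (i + 1))) :
    ∀ i ≤ h, follow H (w 0) μ i = w i := by
  intro i
  induction i with
  | zero => intro _; rfl
  | succ i ih =>
    intro hi
    have h1 := ih (by omega)
    have h2 : i < h := by omega
    rw [follow, dif_pos h2, h1, hμ ⟨i, h2⟩]
    rfl

theorem stp_of_adj (H : DG U d) {u v : U} (huv : H.und.Adj u v) :
    ∃ c : Bool × Fin d, stp H u c = some v := by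
  rcases huv.2 with h1 | h1
  · obtain ⟨i, hi⟩ := h1
    exact ⟨(true, i), by simpa [stp, DG.ans] using hi⟩
  · obtain ⟨j, hj⟩ := (H.compat v u).1 h1
    exact ⟨(false, j), by simpa [stp, DG.ans] using hj⟩

/-- The base point of a vertex of the lift. -/
def proj {K s : ℕ} : (U × Fin K) ⊕ Fin s → Option U
  | .inl p => some p.1
  | .inr _ => none

theorem lift_E_inl {K s : ℕ} (H : DG U d) (σ : U → U → Equiv.Perm (Fin K)) {u v : U}
    {k l : Fin K} (hE : (H.lift K s σ).E (.inl (u, k)) (.inl (v, l))) : H.E u v := by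
  obtain ⟨i, hi⟩ := hE
  simp only [DG.lift, Option.map_eq_some_iff, Sum.inl.injEq, Prod.mk.injEq] at hi
  obtain ⟨a, ha, rfl, _⟩ := hi
  exact ⟨i, ha⟩

theorem lift_E_inr_left {K s : ℕ} (H : DG U d) (σ : U → U → Equiv.Perm (Fin K)) {t : Fin s}
    {y : (U × Fin K) ⊕ Fin s} : ¬ (H.lift K s σ).E (.inr t) y := by
  rintro ⟨i, hi⟩
  simp [DG.lift] at hi

theorem lift_E_inr_right {K s : ℕ} (H : DG U d) (σ : U → U → Equiv.Perm (Fin K)) {t : Fin s}
    {y : (U × Fin K) ⊕ Fin s} : ¬ (H.lift K s σ).E y (.inr t) := by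
  intro hE
  obtain ⟨j, hj⟩ := ((H.lift K s σ).compat y (.inr t)).1 hE
  simp [DG.lift] at hj

/-- Walks of the lift project to walks of the base. -/
theorem project {K s : ℕ} (H : DG U d) (σ : U → U → Equiv.Perm (Fin K))
    {x y : (U × Fin K) ⊕ Fin s} (p : (H.lift K s σ).und.Walk x y) :
    ∀ (u v : U) (k l : Fin K), x = .inl (u, k) → y = .inl (v, l) →
      ∃ q : H.und.Walk u v, q.length = p.length := by
  induction p with
  | nil =>
    rintro u v k l rfl h2
    simp only [Sum.inl.injEq, Prod.mk.injEq] at h2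
    obtain ⟨rfl, _⟩ := h2
    exact ⟨.nil, rfl⟩
  | @cons a b c hab p ih =>
    rintro u v k l rfl h2
    rcases b with ⟨b, kb⟩ | b
    · obtain ⟨q, hq⟩ := ih b v kb l rfl h2
      have hadj : H.und.Adj u b := by
        have hE : H.E u b ∨ H.E b u := hab.2.imp (lift_E_inl H σ) (lift_E_inl H σ)
        refine ⟨?_, hE⟩
        rintro rfl
        rcases hE with hE | hE <;> exact H.E_irrefl _ hE
      exact ⟨.cons hadj q, by simp [hq]⟩
    · rcases hab.2 with hE | hE
      · exact (lift_E_inr_right H σ hE).elim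
      · exact (lift_E_inr_left H σ hE).elim

/-- The event for a code. -/
def Ev {n K s : ℕ} (H : DG U d) (σ : U → U → Equiv.Perm (Fin K)) (β δ : U → Fin K)
    (A : RAlg (Fin n) d) (r h : ℕ) (w : ℕ → U) (π : Fin n ≃ (U × Fin K) ⊕ Fin s) : Prop :=
  (∀ i < h, H.und.Adj (w i) (w (i + 1))) ∧ Set.InjOn w (Set.Iic h) ∧
      ∀ i < h, ∃ x ∈ A.labs ((H.lift K s σ).pull π) r,
        π x = .inl (w i, β (w i)) ∨ π x = .inl (w i, δ (w i)) ∨
        π x = .inl (w (i + 1), β (w (i + 1))) ∨ π x = .inl (w (i + 1), δ (w (i + 1)))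

theorem far_aux {H : DG U d} {w : ℕ → U} {r m g : ℕ} (hAPART : T_APART) (hL : LongCyc H.und g)
    (hm : m * (2 * r + 2) ≤ h) (hg : h + 2 * r ≤ g)
    (hadj : ∀ i < h, H.und.Adj (w i) (w (i + 1))) (hinj : Set.InjOn w (Set.Iic h))
    {i j : ℕ} (hij : i < j) (hj : j < m) {a b : ℕ}
    (ha : a = i * (2 * r + 2) ∨ a = i * (2 * r + 2) + 1)
    (hb : b = j * (2 * r + 2) ∨ b = j * (2 * r + 2) + 1) (p : H.und.Walk (w a) (w b)) :
    2 * r < p.length := by
  have h1 : (i + 1) * (2 * r + 2) ≤ j * (2 * r + 2) := Nat.mul_le_mul_right _ hij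
  have h2 : (j + 1) * (2 * r + 2) ≤ m * (2 * r + 2) := Nat.mul_le_mul_right _ hj
  have h3 : (i + 1) * (2 * r + 2) = i * (2 * r + 2) + (2 * r + 2) := by ring
  have h4 : (j + 1) * (2 * r + 2) = j * (2 * r + 2) + (2 * r + 2) := by ring
  by_contra hcon
  have := hAPART U H.und g h w hL hadj hinj a b (by omega) (by omega) p (by omega)
  omega

theorem ev_le {n K s : ℕ} [Fintype U] [DecidableEq U] (hSEED : T_SEED) (hAPART : T_APART)
    (H : DG U d) (σ : U → U → Equiv.Perm (Fin K)) (β δ : U → Fin K)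
    (A : RAlg (Fin n) d) (r q m g : ℕ) (hq : ∀ G, A.cost G r ≤ q)
    (hL : LongCyc H.und g) (hm : m * (2 * r + 2) ≤ h) (hg : h + 2 * r ≤ g) (w : ℕ → U) :
    Nat.card {π : Fin n ≃ (U × Fin K) ⊕ Fin s // Ev H σ β δ A r h w π} * (n - 2 * q) ^ m
      ≤ (4 * (2 * d + 1) ^ r * (r * q)) ^ m * Nat.card (Fin n ≃ (U × Fin K) ⊕ Fin s) := by
  classical
  by_cases hw : (∀ i < h, H.und.Adj (w i) (w (i + 1))) ∧ Set.InjOn w (Set.Iic h)
  · obtain ⟨hadj, hinj⟩ := hw
    let S : Fin m → Finset ((U × Fin K) ⊕ Fin s) := fun i =>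
      {.inl (w (i * (2 * r + 2)), β (w (i * (2 * r + 2)))),
        .inl (w (i * (2 * r + 2)), δ (w (i * (2 * r + 2)))),
        .inl (w (i * (2 * r + 2) + 1), β (w (i * (2 * r + 2) + 1))),
        .inl (w (i * (2 * r + 2) + 1), δ (w (i * (2 * r + 2) + 1)))}
    have hS : ∀ (i : Fin m) (x : (U × Fin K) ⊕ Fin s), x ∈ S i →
        ∃ (a : ℕ) (k : Fin K), (a = i.1 * (2 * r + 2) ∨ a = i.1 * (2 * r + 2) + 1) ∧
          x = .inl (w a, k) := by
      intro i x hx
      simp only [S, Finset.mem_insert, Finset.mem_singleton] at hx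
      rcases hx with hx | hx | hx | hx
      · exact ⟨_, _, Or.inl rfl, hx⟩
      · exact ⟨_, _, Or.inl rfl, hx⟩
      · exact ⟨_, _, Or.inr rfl, hx⟩
      · exact ⟨_, _, Or.inr rfl, hx⟩
    have key := hSEED n d ((U × Fin K) ⊕ Fin s) (H.lift K s σ) A r q m 4 hq S
      (fun i => Finset.card_le_four) (by
      intro i j hij x hx y hy p
      obtain ⟨a, k, ha, rfl⟩ := hS i x hx
      obtain ⟨b, l, hb, rfl⟩ := hS j y hy
      obtain ⟨p', hp'⟩ := project H σ p (w a) (w b) k l rfl rfl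
      rw [← hp']
      have hij' : i.1 ≠ j.1 := fun hh => hij (Fin.ext hh)
      rcases lt_or_gt_of_ne hij' with h1 | h1
      · exact far_aux hAPART hL hm hg hadj hinj h1 j.2 ha hb p'
      · have := far_aux hAPART hL hm hg hadj hinj h1 i.2 hb ha p'.reverse
        rwa [SimpleGraph.Walk.length_reverse] at this)
    refine le_trans (Nat.mul_le_mul_right _ ?_) key
    refine Nat.card_le_card_of_injective
      (fun x : {π : Fin n ≃ (U × Fin K) ⊕ Fin s // Ev H σ β δ A r h w π} =>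
        (⟨x.1, fun i => ?_⟩ : {π : Fin n ≃ (U × Fin K) ⊕ Fin s //
          ∀ i, ∃ x ∈ A.labs ((H.lift K s σ).pull π) r, π x ∈ S i})) ?_
    · obtain ⟨-, -, h3⟩ := x.2
      have h2 : (i.1 + 1) * (2 * r + 2) ≤ m * (2 * r + 2) := Nat.mul_le_mul_right _ i.2
      have h4 : (i.1 + 1) * (2 * r + 2) = i.1 * (2 * r + 2) + (2 * r + 2) := by ring
      obtain ⟨z, hz, hz'⟩ := h3 (i.1 * (2 * r + 2)) (by omega)
      refine ⟨z, hz, ?_⟩
      simp only [S, Finset.mem_insert, Finset.mem_singleton]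
      exact hz'
    · intro x y hxy
      simp only [Subtype.mk.injEq] at hxy
      exact Subtype.ext hxy
  · have : IsEmpty {π : Fin n ≃ (U × Fin K) ⊕ Fin s // Ev H σ β δ A r h w π} :=
      ⟨fun x => hw ⟨x.2.1, x.2.2.1⟩⟩
    rw [Nat.card_of_isEmpty, zero_mul]
    exact Nat.zero_le _

end BAD

open BAD in
theorem tBAD (hSEED : T_SEED) (hAPART : T_APART) : T_BAD := by
  intro n d U _ _ H K s h g m A r q σ v₀ β δ hq hL hm hg
  classical
  set X := {π : Fin n ≃ (U × Fin K) ⊕ Fin s // ∃ w : ℕ → U, w 0 = v₀ ∧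
      (∀ i < h, H.und.Adj (w i) (w (i + 1))) ∧ Set.InjOn w (Set.Iic h) ∧
      ∀ i < h, ∃ x ∈ A.labs ((H.lift K s σ).pull π) r,
        π x = .inl (w i, β (w i)) ∨ π x = .inl (w i, δ (w i)) ∨
        π x = .inl (w (i + 1), β (w (i + 1))) ∨ π x = .inl (w (i + 1), δ (w (i + 1)))} with hX
  -- each bad labelling has a code
  have hcode : ∀ π : X, ∃ μ : Fin h → Bool × Fin d,
      Ev H σ β δ A r h (follow H v₀ μ) π.1 := by
    rintro ⟨π, w, hw0, hadj, hinj, hev⟩
    have hμ : ∀ i : Fin h, ∃ c : Bool × Fin d, stp H (w i) c = some (w (i + 1)) :=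
      fun i => stp_of_adj H (hadj i i.2)
    choose μ hμ using hμ
    have hf : ∀ i ≤ h, follow H v₀ μ i = w i := by
      rw [← hw0]
      exact follow_eq H w μ hμ
    refine ⟨μ, fun i hi => ?_, ?_, fun i hi => ?_⟩
    · rw [hf i (by omega), hf (i + 1) (by omega)]
      exact hadj i hi
    · intro a ha b hb hab
      rw [hf a ha, hf b hb] at hab
      exact hinj ha hb hab
    · rw [hf i (by omega), hf (i + 1) (by omega)]
      exact hev i hi
  choose code hcode using hcode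
  -- counting
  have hcount : Nat.card X ≤
      ∑ μ : Fin h → Bool × Fin d, Nat.card {π : Fin n ≃ (U × Fin K) ⊕ Fin s //
        Ev H σ β δ A r h (follow H v₀ μ) π} := by
    rw [← Nat.card_sigma]
    refine Nat.card_le_card_of_injective
      (fun x : X => (⟨code x, x.1, hcode x⟩ : Σ μ : Fin h → Bool × Fin d,
          {π : Fin n ≃ (U × Fin K) ⊕ Fin s // Ev H σ β δ A r h (follow H v₀ μ) π})) ?_
    intro x y hxy
    have := congrArg (fun z : Σ μ : Fin h → Bool × Fin d,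
          {π : Fin n ≃ (U × Fin K) ⊕ Fin s // Ev H σ β δ A r h (follow H v₀ μ) π} => z.2.1) hxy
    exact Subtype.ext this
  calc Nat.card X * (n - 2 * q) ^ m
      ≤ (∑ μ : Fin h → Bool × Fin d, Nat.card {π : Fin n ≃ (U × Fin K) ⊕ Fin s //
        Ev H σ β δ A r h (follow H v₀ μ) π}) * (n - 2 * q) ^ m :=
        Nat.mul_le_mul_right _ hcount
    _ = ∑ μ : Fin h → Bool × Fin d, Nat.card {π : Fin n ≃ (U × Fin K) ⊕ Fin s //
        Ev H σ β δ A r h (follow H v₀ μ) π} * (n - 2 * q) ^ m := by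
        rw [Finset.sum_mul]
    _ ≤ ∑ _μ : Fin h → Bool × Fin d,
          (4 * (2 * d + 1) ^ r * (r * q)) ^ m * Nat.card (Fin n ≃ (U × Fin K) ⊕ Fin s) :=
        Finset.sum_le_sum fun μ _ => ev_le hSEED hAPART H σ β δ A r q m g hq hL hm hg _
    _ = (2 * d) ^ h * (4 * (2 * d + 1) ^ r * (r * q)) ^ m *
          Nat.card (Fin n ≃ (U × Fin K) ⊕ Fin s) := by
        rw [Finset.sum_const, Finset.card_univ, Fintype.card_fun, Fintype.card_prod,
          Fintype.card_fin, Fintype.card_fin, Fintype.card_bool, smul_eq_mul, ← mul_assoc]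

end Pool.Agent.AcyTest
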