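import Pool.Agent.AcyTest.Defs

/-!
# MP_08c6cd_lc: auxiliary definitions

Underlying graphs, relabelling, labels seen by an algorithm, lifts.
-/

namespace Pool.Agent.AcyTest

/-- A relation without directed cycles. -/
def AcyR {V : Type} (F : V → V → Prop) : Prop := ∀ v, ¬ Relation.TransGen F v v

/-- Every acyclic relation misses at least `x` edges of `E`. -/
def FasGe {V : Type} (E : V → V → Prop) (x : ℝ) : Prop :=
  ∀ F : V → V → Prop, AcyR F → x ≤ (Set.ncard {p : V × V | E p.1 p.2 ∧ ¬ F p.1 p.2} : ℝ)

/-- The underlying simple graph of a relation. -/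
def undR {V : Type} (E : V → V → Prop) : SimpleGraph V where
  Adj u v := u ≠ v ∧ (E u v ∨ E v u)
  symm := ⟨fun _ _ h => ⟨h.1.symm, h.2.symm⟩⟩
  loopless := ⟨fun _ h => h.1 rfl⟩

/-- All cycles are longer than `g`. -/
def LongCyc {V : Type} (G : SimpleGraph V) (g : ℕ) : Prop :=
  ∀ (v : V) (p : G.Walk v v), p.IsCycle → g < p.length

namespace DG

variable {V W : Type} {d : ℕ}

/-- The underlying simple graph. -/
def und (G : DG V d) : SimpleGraph V := undR G.E

/-- The digraph `L` on `W`, with vertices named by `V` through `π`. -/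
def pull (L : DG W d) (π : V ≃ W) : DG V d where
  out v i := (L.out (π v) i).map π.symm
  inn v i := (L.inn (π v) i).map π.symm
  out_inj v i j u hi hj := by
    simp only [Option.map_eq_some_iff] at hi hj
    obtain ⟨a, ha, ha'⟩ := hi
    obtain ⟨b, hb, hb'⟩ := hj
    have : a = b := π.symm.injective (ha'.trans hb'.symm)
    subst this
    exact L.out_inj _ _ _ _ ha hb
  inn_inj v i j u hi hj := by
    simp only [Option.map_eq_some_iff] at hi hj
    obtain ⟨a, ha, ha'⟩ := hi
    obtain ⟨b, hb, hb'⟩ := hj
    have : a = b := π.symm.injective (ha'.trans hb'.symm)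
    subst this
    exact L.inn_inj _ _ _ _ ha hb
  out_mono v i j hij h := by
    simp only [Option.isSome_map] at h ⊢
    exact L.out_mono _ _ _ hij h
  inn_mono v i j hij h := by
    simp only [Option.isSome_map] at h ⊢
    exact L.inn_mono _ _ _ hij h
  compat u v := by
    have h := L.compat (π u) (π v)
    simp only [Option.map_eq_some_iff]
    constructor
    · rintro ⟨i, a, ha, hv⟩
      have : a = π v := by rw [← hv]; simp
      subst this
      obtain ⟨j, hj⟩ := h.1 ⟨i, ha⟩
      exact ⟨j, _, hj, by simp⟩
    · rintro ⟨i, a, ha, hv⟩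
      have : a = π u := by rw [← hv]; simp
      subst this
      obtain ⟨j, hj⟩ := h.2 ⟨i, ha⟩
      exact ⟨j, _, hj, by simp⟩
  loopless v i h := by
    simp only [Option.map_eq_some_iff] at h
    obtain ⟨a, ha, hv⟩ := h
    have : a = π v := by rw [← hv]; simp
    subst this
    exact L.loopless _ _ ha

theorem pull_E (L : DG W d) (π : V ≃ W) (u v : V) : (L.pull π).E u v ↔ L.E (π u) (π v) := by
  simp only [E, pull, Option.map_eq_some_iff]
  constructor
  · rintro ⟨i, a, ha, hv⟩
    have : a = π v := by rw [← hv]; simp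
    subst this
    exact ⟨i, ha⟩
  · rintro ⟨i, hi⟩
    exact ⟨i, _, hi, by simp⟩

theorem E_irrefl (G : DG V d) (v : V) : ¬ G.E v v := fun ⟨i, hi⟩ => G.loopless v i hi

/-- The voltage lift: `K` layers, and `s` isolated vertices. -/
def lift (H : DG V d) (K s : ℕ) (σ : V → V → Equiv.Perm (Fin K)) : DG ((V × Fin K) ⊕ Fin s) d where
  out w i := match w with
    | .inl (u, k) => (H.out u i).map fun v => .inl (v, σ u v k)
    | .inr _ => none
  inn w i := match w with
    | .inl (v, k) => (H.inn v i).map fun u => .inl (u, (σ u v).symm k)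
    | .inr _ => none
  out_inj w i j x hi hj := by
    rcases w with ⟨u, k⟩ | _
    · simp only [Option.map_eq_some_iff] at hi hj
      obtain ⟨a, ha, ha'⟩ := hi
      obtain ⟨b, hb, hb'⟩ := hj
      have h := ha'.trans hb'.symm
      simp only [Sum.inl.injEq, Prod.mk.injEq] at h
      rw [← h.1] at hb
      exact H.out_inj _ _ _ _ ha hb
    · simp at hi
  inn_inj w i j x hi hj := by
    rcases w with ⟨u, k⟩ | _
    · simp only [Option.map_eq_some_iff] at hi hj
      obtain ⟨a, ha, ha'⟩ := hi
      obtain ⟨b, hb, hb'⟩ := hj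
      have h := ha'.trans hb'.symm
      simp only [Sum.inl.injEq, Prod.mk.injEq] at h
      rw [← h.1] at hb
      exact H.inn_inj _ _ _ _ ha hb
    · simp at hi
  out_mono w i j hij h := by
    rcases w with ⟨u, k⟩ | _
    · simp only [Option.isSome_map] at h ⊢
      exact H.out_mono _ _ _ hij h
    · simp at h
  inn_mono w i j hij h := by
    rcases w with ⟨u, k⟩ | _
    · simp only [Option.isSome_map] at h ⊢
      exact H.inn_mono _ _ _ hij h
    · simp at h
  compat x y := by
    rcases x with ⟨u, k⟩ | _ <;> rcases y with ⟨v, l⟩ | _ <;>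
      simp only [Option.map_eq_some_iff, Sum.inl.injEq, Prod.mk.injEq, reduceCtorEq, and_false,
        exists_false, iff_self]
    constructor
    · rintro ⟨i, a, ha, rfl, rfl⟩
      obtain ⟨j, hj⟩ := (H.compat u a).1 ⟨i, ha⟩
      exact ⟨j, u, hj, rfl, by simp⟩
    · rintro ⟨i, a, ha, rfl, rfl⟩
      obtain ⟨j, hj⟩ := (H.compat a v).2 ⟨i, ha⟩
      exact ⟨j, v, hj, rfl, by simp⟩
  loopless w i h := by
    rcases w with ⟨u, k⟩ | _
    · simp only [Option.map_eq_some_iff, Sum.inl.injEq, Prod.mk.injEq] at h
      obtain ⟨a, ha, rfl, _⟩ := h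
      exact H.loopless _ _ ha
    · simp at h

/-- The layered acyclic digraph: each edge goes from a layer to the next one. -/
def cut (H : DG V d) (K s : ℕ) : DG ((V × Fin K) ⊕ Fin s) d where
  out w i := match w with
    | .inl (u, k) => if h : k.1 + 1 < K then (H.out u i).map fun v => .inl (v, ⟨k.1 + 1, h⟩) else none
    | .inr _ => none
  inn w i := match w with
    | .inl (v, k) => if 0 < k.1 then
        (H.inn v i).map fun u => .inl (u, ⟨k.1 - 1, (Nat.sub_le _ _).trans_lt k.2⟩) else none
    | .inr _ => none
  out_inj w i j x hi hj := by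
    rcases w with ⟨u, k⟩ | _
    · by_cases hk : k.1 + 1 < K
      · simp only [hk, dite_true, Option.map_eq_some_iff] at hi hj
        obtain ⟨a, ha, ha'⟩ := hi
        obtain ⟨b, hb, hb'⟩ := hj
        have h := ha'.trans hb'.symm
        simp only [Sum.inl.injEq, Prod.mk.injEq] at h
        rw [← h.1] at hb
        exact H.out_inj _ _ _ _ ha hb
      · simp [hk] at hi
    · simp at hi
  inn_inj w i j x hi hj := by
    rcases w with ⟨u, k⟩ | _
    · by_cases hk : 0 < k.1
      · simp only [hk, if_true, Option.map_eq_some_iff] at hi hj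
        obtain ⟨a, ha, ha'⟩ := hi
        obtain ⟨b, hb, hb'⟩ := hj
        have h := ha'.trans hb'.symm
        simp only [Sum.inl.injEq, Prod.mk.injEq] at h
        rw [← h.1] at hb
        exact H.inn_inj _ _ _ _ ha hb
      · simp [hk] at hi
    · simp at hi
  out_mono w i j hij h := by
    rcases w with ⟨u, k⟩ | _
    · by_cases hk : k.1 + 1 < K
      · simp only [hk, dite_true, Option.isSome_map] at h ⊢
        exact H.out_mono _ _ _ hij h
      · simp [hk] at h
    · simp at h
  inn_mono w i j hij h := by
    rcases w with ⟨u, k⟩ | _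
    · by_cases hk : 0 < k.1
      · simp only [hk, if_true, Option.isSome_map] at h ⊢
        exact H.inn_mono _ _ _ hij h
      · simp [hk] at h
    · simp at h
  compat x y := by
    rcases x with ⟨u, k⟩ | _ <;> rcases y with ⟨v, l⟩ | _
    · constructor
      · rintro ⟨i, hi⟩
        by_cases hk : k.1 + 1 < K
        · simp only [hk, dite_true, Option.map_eq_some_iff, Sum.inl.injEq, Prod.mk.injEq] at hi
          obtain ⟨a, ha, rfl, rfl⟩ := hi
          obtain ⟨j, hj⟩ := (H.compat u a).1 ⟨i, ha⟩
          refine ⟨j, ?_⟩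
          simp only [Nat.succ_pos, if_true, Nat.add_sub_cancel, Option.map_eq_some_iff]
          exact ⟨u, hj, rfl⟩
        · simp [hk] at hi
      · rintro ⟨i, hi⟩
        by_cases hl : 0 < l.1
        · simp only [hl, if_true, Option.map_eq_some_iff, Sum.inl.injEq, Prod.mk.injEq] at hi
          obtain ⟨a, ha, rfl, rfl⟩ := hi
          obtain ⟨j, hj⟩ := (H.compat a v).2 ⟨i, ha⟩
          refine ⟨j, ?_⟩
          have h1 : l.1 - 1 + 1 = l.1 := Nat.sub_add_cancel hl
          have h2 : l.1 - 1 + 1 < K := by rw [h1]; exact l.2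
          simp only [h2, dite_true, Option.map_eq_some_iff, Sum.inl.injEq, Prod.mk.injEq]
          exact ⟨v, hj, rfl, Fin.ext h1⟩
        · simp [hl] at hi
    · constructor
      · rintro ⟨i, hi⟩
        by_cases hk : k.1 + 1 < K <;> simp [hk] at hi
      · rintro ⟨i, hi⟩
        simp at hi
    · constructor
      · rintro ⟨i, hi⟩
        simp at hi
      · rintro ⟨i, hi⟩
        by_cases hk : 0 < l.1 <;> simp [hk] at hi
    · simp
  loopless w i h := by
    rcases w with ⟨u, k⟩ | _
    · by_cases hk : k.1 + 1 < K
      · simp only [hk, dite_true, Option.map_eq_some_iff, Sum.inl.injEq, Prod.mk.injEq] at h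
        obtain ⟨a, ha, rfl, _⟩ := h
        exact H.loopless _ _ ha
      · simp [hk] at h
    · simp at h

end DG

namespace RAlg

variable {V : Type} [DecidableEq V] {d : ℕ}

/-- The queries of round `k` on `G`. -/
def qs (A : RAlg V d) (G : DG V d) (k : ℕ) : Finset (Query V d) := A.ask k (A.table G k)

/-- The labels asked about in round `k`. -/
def lab (A : RAlg V d) (G : DG V d) (k : ℕ) : Finset V := (A.qs G k).image fun x => x.2.1

/-- The labels asked about in the first `r` rounds. -/
def labs (A : RAlg V d) (G : DG V d) (r : ℕ) : Finset V := (Finset.range r).biUnion (A.lab G)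

/-- The labels seen (asked about or given as an answer) before round `k`. -/
def known (A : RAlg V d) (G : DG V d) (k : ℕ) : Finset V :=
  (Finset.range k).biUnion fun j => A.lab G j ∪ (A.qs G j).biUnion fun x => (G.ans x).toFinset

/-- The labels asked about in round `k` and not seen before. -/
def fresh (A : RAlg V d) (G : DG V d) (k : ℕ) : Finset V := A.lab G k \ A.known G k

end RAlg

end Pool.Agent.AcyTest
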