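import Pool.Agent.AcyTest.Targets

/-!
# MP_08c6cd_lc: chain of transpositions between two voltage assignments
-/

namespace Pool.Agent.AcyTest

namespace CHAIN

/-- a permutation of `Fin K` is a product of at most `K` transpositions -/
lemma swaps {α : Type} [Fintype α] [DecidableEq α] : ∀ (m : ℕ) (p : Equiv.Perm α),
    p.support.card ≤ m → ∃ l : List (α × α), l.length ≤ m ∧
      p = (l.map fun x => Equiv.swap x.1 x.2).prod := by
  intro m
  induction m with
  | zero =>
    intro p hp
    refine ⟨[], le_rfl, ?_⟩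
    have : p.support = ∅ := Finset.card_eq_zero.mp (by omega)
    simpa using Equiv.Perm.support_eq_empty_iff.mp this
  | succ m ih =>
    intro p hp
    by_cases h1 : p = 1
    · exact ⟨[], Nat.zero_le _, by simp [h1]⟩
    · obtain ⟨x, hx⟩ : ∃ x, p x ≠ x := by
        by_contra hcon
        push Not at hcon
        exact h1 (Equiv.ext hcon)
      have hlt := Equiv.Perm.card_support_swap_mul hx
      obtain ⟨l, hl, hl2⟩ := ih (Equiv.swap x (p x) * p) (by omega)
      refine ⟨(x, p x) :: l, by simpa using hl, ?_⟩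
      rw [List.map_cons, List.prod_cons, ← hl2]
      rw [← mul_assoc, Equiv.swap_mul_self, one_mul]

variable {V : Type} {d : ℕ}

lemma DG_ext {G G' : DG V d} (h1 : G.out = G'.out) (h2 : G.inn = G'.inn) : G = G' := by
  cases G; cases G'
  simp only at h1 h2
  subst h1; subst h2
  rfl

lemma lift_congr (H : DG V d) (K s : ℕ) (σ σ' : V → V → Equiv.Perm (Fin K))
    (h : ∀ u v, H.E u v → σ u v = σ' u v) : H.lift K s σ = H.lift K s σ' := by
  refine DG_ext ?_ ?_
  · funext w i
    rcases w with ⟨u, k⟩ | j
    · change (H.out u i).map (fun v => Sum.inl (v, σ u v k)) =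
        (H.out u i).map fun v => Sum.inl (v, σ' u v k)
      cases hu : H.out u i with
      | none => rfl
      | some v =>
        simp only [Option.map_some]
        rw [h u v ⟨i, hu⟩]
    · rfl
  · funext w i
    rcases w with ⟨v, k⟩ | j
    · change (H.inn v i).map (fun u => Sum.inl (u, (σ u v).symm k)) =
        (H.inn v i).map fun u => Sum.inl (u, (σ' u v).symm k)
      cases hv : H.inn v i with
      | none => rfl
      | some u =>
        simp only [Option.map_some]
        rw [h u v ((H.compat u v).mpr ⟨i, hv⟩)]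
    · rfl

/-- change one voltage -/
def upd2 [DecidableEq V] {K : ℕ} (σ : V → V → Equiv.Perm (Fin K)) (u v : V)
    (a : Equiv.Perm (Fin K)) : V → V → Equiv.Perm (Fin K) :=
  Function.update σ u (Function.update (σ u) v a)

lemma upd2_same [DecidableEq V] {K : ℕ} (σ : V → V → Equiv.Perm (Fin K)) (u v : V)
    (a : Equiv.Perm (Fin K)) : upd2 σ u v a u v = a := by simp [upd2]

lemma upd2_ne [DecidableEq V] {K : ℕ} (σ : V → V → Equiv.Perm (Fin K)) (u v u' v' : V)
    (a : Equiv.Perm (Fin K)) (h : ¬ (u' = u ∧ v' = v)) : upd2 σ u v a u' v' = σ u' v' := by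
  unfold upd2
  by_cases h1 : u' = u
  · subst h1
    have h2 : v' ≠ v := fun h2 => h ⟨rfl, h2⟩
    simp [h2]
  · simp [h1]

lemma upd2_upd2 [DecidableEq V] {K : ℕ} (σ : V → V → Equiv.Perm (Fin K)) (u v : V)
    (a b : Equiv.Perm (Fin K)) : upd2 (upd2 σ u v a) u v b = upd2 σ u v b := by
  funext u' v'
  by_cases h : u' = u ∧ v' = v
  · obtain ⟨rfl, rfl⟩ := h
    rw [upd2_same, upd2_same]
  · rw [upd2_ne _ _ _ _ _ _ h, upd2_ne _ _ _ _ _ _ h, upd2_ne _ _ _ _ _ _ h]

lemma upd2_self [DecidableEq V] {K : ℕ} (σ : V → V → Equiv.Perm (Fin K)) (u v : V) :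
    upd2 σ u v (σ u v) = σ := by
  funext u' v'
  by_cases h : u' = u ∧ v' = v
  · obtain ⟨rfl, rfl⟩ := h
    rw [upd2_same]
  · rw [upd2_ne _ _ _ _ _ _ h]

end CHAIN

open CHAIN in
theorem tCHAIN : T_CHAIN := by
  intro n d U _ _ H K s B A r hstep σ σ'
  set f : (U → U → Equiv.Perm (Fin K)) → ℕ := fun σ =>
    Nat.card {π : Fin n ≃ (U × Fin K) ⊕ Fin s //
      A.acc (A.table ((H.lift K s σ).pull π) r) = true} with hf
  have hstep' : ∀ (σ : U → U → Equiv.Perm (Fin K)) (u₀ v₀ : U) (k₁ k₂ : Fin K), H.E u₀ v₀ →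
      f σ ≤ f (upd2 σ u₀ v₀ (σ u₀ v₀ * Equiv.swap k₁ k₂)) + B := hstep
  -- a list of transpositions
  have hlist : ∀ (u v : U), H.E u v → ∀ (l : List (Fin K × Fin K))
      (σ : U → U → Equiv.Perm (Fin K)),
      f σ ≤ f (upd2 σ u v (σ u v * (l.map fun x => Equiv.swap x.1 x.2).prod)) +
        l.length * B := by
    intro u v huv l
    induction l with
    | nil =>
      intro σ
      simp [upd2_self]
    | cons x l ih =>
      intro σ
      have h1 := hstep' σ u v x.1 x.2 huv
      have h2 := ih (upd2 σ u v (σ u v * Equiv.swap x.1 x.2))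
      rw [upd2_same, upd2_upd2] at h2
      rw [List.map_cons, List.prod_cons, List.length_cons, ← mul_assoc]
      calc f σ ≤ _ := h1
        _ ≤ _ := Nat.add_le_add_right h2 B
        _ = _ := by ring
  -- one voltage
  have hone : ∀ (u v : U) (σ : U → U → Equiv.Perm (Fin K)) (a : Equiv.Perm (Fin K)),
      f σ ≤ f (upd2 σ u v a) + K * B := by
    intro u v σ a
    by_cases huv : H.E u v
    · obtain ⟨l, hl, hl2⟩ := swaps K ((σ u v)⁻¹ * a)
        ((Finset.card_le_univ _).trans_eq (Fintype.card_fin K))
      have h1 := hlist u v huv l σ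
      rw [← hl2, mul_inv_cancel_left] at h1
      exact h1.trans (Nat.add_le_add_left (Nat.mul_le_mul_right B hl) _)
    · have : H.lift K s σ = H.lift K s (upd2 σ u v a) := by
        refine lift_congr H K s _ _ fun u' v' h => ?_
        rw [upd2_ne]
        rintro ⟨rfl, rfl⟩
        exact huv h
      have h2 : f σ = f (upd2 σ u v a) := by simp only [hf, this]
      omega
  -- all voltages
  have hall : ∀ S : Finset (U × U), f σ ≤
      f (fun u v => if (u, v) ∈ S then σ' u v else σ u v) + S.card * (K * B) := by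
    intro S
    induction S using Finset.induction_on with
    | empty => simp
    | insert x S hx ih =>
      obtain ⟨u, v⟩ := x
      rw [Finset.card_insert_of_notMem hx]
      have h1 := hone u v (fun u v => if (u, v) ∈ S then σ' u v else σ u v) (σ' u v)
      have h2 : upd2 (fun u v => if (u, v) ∈ S then σ' u v else σ u v) u v (σ' u v) =
          fun u' v' => if (u', v') ∈ insert (u, v) S then σ' u' v' else σ u' v' := by
        funext u' v'
        by_cases h : u' = u ∧ v' = v
        · obtain ⟨rfl, rfl⟩ := h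
          rw [upd2_same]; simp
        · rw [upd2_ne _ _ _ _ _ _ h]
          have h3 : (u', v') ≠ (u, v) := fun h4 => h (Prod.mk.inj h4)
          simp only [Finset.mem_insert, h3, false_or]
      rw [h2] at h1
      calc f σ ≤ _ := ih
        _ ≤ _ := Nat.add_le_add_right h1 _
        _ = _ := by ring
  have h := hall Finset.univ
  simp only [Finset.mem_univ, if_true] at h
  rw [Finset.card_univ, Fintype.card_prod] at h
  calc f σ ≤ _ := h
    _ = f σ' + Fintype.card U ^ 2 * K * B := by
      have : (fun u v => σ' u v) = σ' := rfl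
      rw [this]; ring

end Pool.Agent.AcyTest
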