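import Pool.Agent.AcyTest.Targets

/-!
# MP_08c6cd_lc, job ACY-CUT

For most pairs of permutations every balanced cut is crossed often.
-/

namespace Pool.Agent.AcyTest

namespace CUT

open Finset

variable {N : ℕ}

/-- the number of elements outside `A` mapped into `A` -/
def cr (A : Finset (Fin N)) (a : Equiv.Perm (Fin N)) : ℕ := (Aᶜ.filter fun x => a x ∈ A).card

lemma cr_eq (A : Finset (Fin N)) (a : Equiv.Perm (Fin N)) : cr A a = (Aᶜ.image a ∩ A).card := by
  have : Aᶜ.image a ∩ A = (Aᶜ.filter fun x => a x ∈ A).image a := by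
    ext y
    simp only [mem_inter, mem_image, mem_filter]
    constructor
    · rintro ⟨⟨x, hx, rfl⟩, hy⟩
      exact ⟨x, ⟨hx, hy⟩, rfl⟩
    · rintro ⟨x, ⟨hx, hy⟩, rfl⟩
      exact ⟨⟨x, hx, rfl⟩, hy⟩
  rw [this, card_image_of_injective _ a.injective]
  rfl

/-- permutations which map `Aᶜ` onto `B` -/
lemma fibre_card (A B : Finset (Fin N)) :
    (univ.filter fun a : Equiv.Perm (Fin N) => Aᶜ.image a = B).card ≤
      (N - A.card).factorial * A.card.factorial := by
  classical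
  rcases (univ.filter fun a : Equiv.Perm (Fin N) => Aᶜ.image a = B).eq_empty_or_nonempty with h | h
  · rw [h]; simp
  obtain ⟨a₀, ha₀⟩ := h
  have key : ∀ a : Equiv.Perm (Fin N), Aᶜ.image a = B → ∀ x, x ∈ Aᶜ ↔ a x ∈ B := by
    intro a ha x
    rw [← ha]
    simp
  have key' : ∀ a : Equiv.Perm (Fin N), Aᶜ.image a = B → ∀ x, x ∉ Aᶜ ↔ a x ∉ B := fun a ha x =>
    not_congr (key a ha x)
  have h0 := (mem_filter.1 ha₀).2
  let e₁ : {x // x ∈ Aᶜ} ≃ {x // x ∈ B} := a₀.subtypeEquiv (key a₀ h0)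
  let e₂ : {x // x ∉ Aᶜ} ≃ {x // x ∉ B} := a₀.subtypeEquiv (key' a₀ h0)
  let F : {a : Equiv.Perm (Fin N) // Aᶜ.image a = B} →
      ({x // x ∈ Aᶜ} ≃ {x // x ∈ B}) × ({x // x ∉ Aᶜ} ≃ {x // x ∉ B}) := fun a =>
    (a.1.subtypeEquiv (key a.1 a.2), a.1.subtypeEquiv (key' a.1 a.2))
  have hF : Function.Injective F := by
    intro a b hab
    have h1 := congrArg Prod.fst hab
    have h2 := congrArg Prod.snd hab
    apply Subtype.ext
    apply Equiv.ext
    intro x
    by_cases hx : x ∈ Aᶜ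
    · have := congrArg (fun e : {x // x ∈ Aᶜ} ≃ {x // x ∈ B} => (e ⟨x, hx⟩ : Fin N)) h1
      simpa [F] using this
    · have := congrArg (fun e : {x // x ∉ Aᶜ} ≃ {x // x ∉ B} => (e ⟨x, hx⟩ : Fin N)) h2
      simpa [F] using this
  have hc := Fintype.card_le_of_injective F hF
  rw [Fintype.card_subtype, Fintype.card_prod, Fintype.card_equiv e₁, Fintype.card_equiv e₂] at hc
  refine hc.trans (le_of_eq ?_)
  congr 2
  · rw [Fintype.card_coe, card_compl, Fintype.card_fin]
  · rw [Fintype.card_subtype]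
    congr 1
    ext x
    simp

/-- the generating function of `cr` -/
lemma sum_cr (A : Finset (Fin N)) {t : ℝ} (ht : 0 ≤ t) :
    ∑ a : Equiv.Perm (Fin N), t ^ (2 * cr A a) ≤
      ((N - A.card).factorial * A.card.factorial : ℕ) * (1 + t) ^ N := by
  classical
  rw [← sum_fiberwise_of_maps_to (s := univ) (t := univ)
    (g := fun a : Equiv.Perm (Fin N) => Aᶜ.image a) (fun _ _ => mem_univ _)]
  have hB : ∀ B : Finset (Fin N),
      ∑ a ∈ univ.filter (fun a : Equiv.Perm (Fin N) => Aᶜ.image a = B), t ^ (2 * cr A a) ≤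
        ((N - A.card).factorial * A.card.factorial : ℕ) * t ^ (symmDiff B Aᶜ).card := by
    intro B
    have : ∀ a ∈ univ.filter (fun a : Equiv.Perm (Fin N) => Aᶜ.image a = B),
        t ^ (2 * cr A a) = t ^ (symmDiff B Aᶜ).card := by
      intro a ha
      have ha := (mem_filter.1 ha).2
      rw [cr_eq, ha]
      congr 1
      have hcard : B.card = Aᶜ.card := by rw [← ha, card_image_of_injective _ a.injective]
      have h1 : (symmDiff B Aᶜ).card = (B \ Aᶜ).card + (Aᶜ \ B).card := by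
        rw [symmDiff_def, sup_eq_union, card_union_of_disjoint disjoint_sdiff_sdiff]
      have h2 := card_sdiff_add_card_inter B Aᶜ
      have h3 := card_sdiff_add_card_inter Aᶜ B
      have h4 : B \ Aᶜ = B ∩ A := by
        ext x; simp
      rw [inter_comm Aᶜ B] at h3
      rw [h4] at h1 h2
      omega
    rw [sum_congr rfl this, sum_const, nsmul_eq_mul]
    exact mul_le_mul_of_nonneg_right (by exact_mod_cast fibre_card A B) (by positivity)
  refine (sum_le_sum fun B _ => hB B).trans ?_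
  rw [← mul_sum]
  refine mul_le_mul_of_nonneg_left (le_of_eq ?_) (by positivity)
  have hinv : Function.Involutive fun B : Finset (Fin N) => symmDiff B Aᶜ := fun B =>
    symmDiff_symmDiff_cancel_right _ _
  have h1 := Equiv.sum_comp (hinv.toPerm _) (fun S : Finset (Fin N) => t ^ S.card)
  have h2 := Fintype.sum_pow_mul_eq_add_pow (Fin N) t (1 : ℝ)
  simp only [one_pow, mul_one, Fintype.card_fin] at h2
  rw [add_comm 1 t, ← h2, ← h1]
  rfl

/-- the pairs which are bad for a given set -/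
lemma bad_card (A : Finset (Fin N)) (k : ℕ) :
    ((univ.filter fun ab : Equiv.Perm (Fin N) × Equiv.Perm (Fin N) =>
      cr A ab.1 + cr A ab.2 ≤ k).card : ℝ) ≤
      100 ^ k * ((((N - A.card).factorial * A.card.factorial : ℕ) : ℝ) * (1 + 1 / 10) ^ N) ^ 2 := by
  classical
  have h1 : ((univ.filter fun ab : Equiv.Perm (Fin N) × Equiv.Perm (Fin N) =>
      cr A ab.1 + cr A ab.2 ≤ k).card : ℝ) ≤
      ∑ ab : Equiv.Perm (Fin N) × Equiv.Perm (Fin N),
        100 ^ k * ((1 / 10 : ℝ) ^ (2 * cr A ab.1) * (1 / 10 : ℝ) ^ (2 * cr A ab.2)) := by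
    rw [card_eq_sum_ones, Nat.cast_sum, sum_filter]
    refine sum_le_sum fun ab _ => ?_
    split_ifs with h
    · have e : (1 / 10 : ℝ) ^ (2 * cr A ab.1) * (1 / 10 : ℝ) ^ (2 * cr A ab.2) =
          (1 / 100 : ℝ) ^ (cr A ab.1 + cr A ab.2) := by
        rw [← pow_add, ← mul_add, pow_mul]
        norm_num
      rw [e]
      have h2 : (1 / 100 : ℝ) ^ k ≤ (1 / 100 : ℝ) ^ (cr A ab.1 + cr A ab.2) :=
        pow_le_pow_of_le_one (by norm_num) (by norm_num) h
      have h3 : (100 : ℝ) ^ k * (1 / 100) ^ k = 1 := by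
        rw [← mul_pow]; norm_num
      calc ((1 : ℕ) : ℝ) = 100 ^ k * (1 / 100) ^ k := by rw [h3]; simp
        _ ≤ _ := mul_le_mul_of_nonneg_left h2 (by positivity)
    · positivity
  refine h1.trans ?_
  rw [← mul_sum]
  refine mul_le_mul_of_nonneg_left ?_ (by positivity)
  rw [Fintype.sum_prod_type]
  dsimp only
  rw [← sum_mul_sum, sq]
  have h2 := sum_cr A (t := 1 / 10) (by norm_num)
  exact mul_le_mul h2 h2 (sum_nonneg fun _ _ => by positivity) (by positivity)

lemma numeric : ∀ N : ℕ, 11 ≤ N → (4 * ((N : ℝ) + 1)) ≤ (3 / 2) ^ N := by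
  intro N hN
  induction N, hN using Nat.le_induction with
  | base => norm_num
  | succ n hn ih =>
    rw [pow_succ]
    push_cast
    have : (11 : ℝ) ≤ n := by exact_mod_cast hn
    nlinarith

end CUT

open CUT in
theorem tCUT : T_CUT := by
  classical
  refine ⟨11, fun N hN => ?_⟩
  have hh : N / 2 ≤ N := Nat.div_le_self _ _
  set h := N / 2 with hdef
  set f : ℕ := (N - h).factorial * h.factorial with hf
  have hchoose : N.choose h * f = N.factorial := by
    rw [hf, mul_comm (N - h).factorial, ← mul_assoc]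
    exact Nat.choose_mul_factorial_mul_factorial hh
  -- the set of bad pairs
  have hcard : Nat.card {ab : Equiv.Perm (Fin N) × Equiv.Perm (Fin N) //
      ∃ A : Finset (Fin N), A.card = h ∧
        (Aᶜ.filter fun x => ab.1 x ∈ A).card + (Aᶜ.filter fun x => ab.2 x ∈ A).card ≤ N / 100} ≤
      ∑ A ∈ Finset.powersetCard h (Finset.univ : Finset (Fin N)),
        (Finset.univ.filter fun ab : Equiv.Perm (Fin N) × Equiv.Perm (Fin N) =>
          cr A ab.1 + cr A ab.2 ≤ N / 100).card := by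
    rw [Nat.card_eq_fintype_card, Fintype.card_subtype]
    refine le_trans (Finset.card_le_card ?_) Finset.card_biUnion_le
    intro ab hab
    obtain ⟨A, hA, hA2⟩ := (Finset.mem_filter.1 hab).2
    rw [Finset.mem_biUnion]
    exact ⟨A, Finset.mem_powersetCard.2 ⟨Finset.subset_univ _, hA⟩,
      Finset.mem_filter.2 ⟨Finset.mem_univ _, hA2⟩⟩
  have hreal : ((∑ A ∈ Finset.powersetCard h (Finset.univ : Finset (Fin N)),
        (Finset.univ.filter fun ab : Equiv.Perm (Fin N) × Equiv.Perm (Fin N) =>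
          cr A ab.1 + cr A ab.2 ≤ N / 100).card : ℕ) : ℝ) ≤
      (N.choose h : ℝ) * (100 ^ (N / 100) * ((f : ℝ) * (1 + 1 / 10) ^ N) ^ 2) := by
    rw [Nat.cast_sum]
    refine (Finset.sum_le_sum (g := fun _ => 100 ^ (N / 100) * ((f : ℝ) * (1 + 1 / 10) ^ N) ^ 2)
      fun A hA => ?_).trans ?_
    · have := bad_card A (N / 100)
      rw [(Finset.mem_powersetCard.1 hA).2] at this
      exact this
    · rw [Finset.sum_const, Finset.card_powersetCard, Finset.card_univ, Fintype.card_fin,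
        nsmul_eq_mul]
  have h2N : (2 : ℝ) ^ N ≤ ((N : ℝ) + 1) * N.choose h := by
    have h1 : ∑ m ∈ Finset.range (N + 1), N.choose m ≤ (N + 1) * N.choose h := by
      refine (Finset.sum_le_card_nsmul _ _ (N.choose h) fun m _ => Nat.choose_le_middle m N).trans ?_
      rw [Finset.card_range, smul_eq_mul]
    rw [Nat.sum_range_choose] at h1
    exact_mod_cast h1
  have h100 : (100 : ℝ) ^ (N / 100) ≤ (105 / 100) ^ N := by
    calc (100 : ℝ) ^ (N / 100) ≤ ((105 / 100 : ℝ) ^ 100) ^ (N / 100) := by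
          gcongr
          norm_num
      _ = (105 / 100 : ℝ) ^ (100 * (N / 100)) := by rw [pow_mul]
      _ ≤ (105 / 100) ^ N := pow_le_pow_right₀ (by norm_num) (Nat.mul_div_le N 100)
  have hmain : 4 * (100 : ℝ) ^ (N / 100) * ((1 + 1 / 10) ^ N) ^ 2 ≤ N.choose h := by
    have hnum := numeric N hN
    have hN1 : (0 : ℝ) < (N : ℝ) + 1 := by positivity
    have e1 : 4 * ((N : ℝ) + 1) * (100 : ℝ) ^ (N / 100) * ((1 + 1 / 10) ^ N) ^ 2 ≤ 2 ^ N := by
      calc 4 * ((N : ℝ) + 1) * (100 : ℝ) ^ (N / 100) * ((1 + 1 / 10) ^ N) ^ 2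
          ≤ (3 / 2) ^ N * (105 / 100) ^ N * ((1 + 1 / 10) ^ N) ^ 2 := by gcongr
        _ = ((3 / 2) * (105 / 100) * (1 + 1 / 10) ^ 2) ^ N := by
            rw [mul_pow, mul_pow, ← pow_mul, ← pow_mul, mul_comm N 2]
        _ ≤ 2 ^ N := by
            gcongr
            norm_num
    have e2 := e1.trans h2N
    have e3 : ((N : ℝ) + 1) * (4 * (100 : ℝ) ^ (N / 100) * ((1 + 1 / 10) ^ N) ^ 2) ≤
        ((N : ℝ) + 1) * N.choose h := by
      calc _ = 4 * ((N : ℝ) + 1) * (100 : ℝ) ^ (N / 100) * ((1 + 1 / 10) ^ N) ^ 2 := by ring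
        _ ≤ _ := e2
    exact le_of_mul_le_mul_left e3 hN1
  have hfin : (4 : ℝ) * ((N.choose h : ℝ) * (100 ^ (N / 100) * ((f : ℝ) * (1 + 1 / 10) ^ N) ^ 2)) ≤
      (N.factorial : ℝ) ^ 2 := by
    have hch : (N.choose h : ℝ) * f = N.factorial := by exact_mod_cast hchoose
    calc (4 : ℝ) * ((N.choose h : ℝ) * (100 ^ (N / 100) * ((f : ℝ) * (1 + 1 / 10) ^ N) ^ 2))
        = (N.choose h : ℝ) * (f : ℝ) ^ 2 * (4 * 100 ^ (N / 100) * ((1 + 1 / 10) ^ N) ^ 2) := by ring
      _ ≤ (N.choose h : ℝ) * (f : ℝ) ^ 2 * N.choose h := by gcongr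
      _ = ((N.choose h : ℝ) * f) ^ 2 := by ring
      _ = (N.factorial : ℝ) ^ 2 := by rw [hch]
  have : ((4 * Nat.card {ab : Equiv.Perm (Fin N) × Equiv.Perm (Fin N) //
      ∃ A : Finset (Fin N), A.card = h ∧
        (Aᶜ.filter fun x => ab.1 x ∈ A).card + (Aᶜ.filter fun x => ab.2 x ∈ A).card ≤ N / 100} : ℕ)
      : ℝ) ≤ ((N.factorial ^ 2 : ℕ) : ℝ) := by
    push_cast
    refine le_trans ?_ hfin
    have h1 : ((Nat.card {ab : Equiv.Perm (Fin N) × Equiv.Perm (Fin N) //
      ∃ A : Finset (Fin N), A.card = h ∧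
        (Aᶜ.filter fun x => ab.1 x ∈ A).card + (Aᶜ.filter fun x => ab.2 x ∈ A).card ≤ N / 100} : ℕ)
      : ℝ) ≤ _ := le_trans (by exact_mod_cast hcard) hreal
    linarith
  exact_mod_cast this

end Pool.Agent.AcyTest
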