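import Pool.Agent.AcyTest.Targets

/-!
# MP_08c6cd_lc, job ACY-CYC: counting cyclic tuples of pairs of permutations
-/

namespace Pool.Agent.AcyTest

theorem tPRESC : T_PRESC := by
  intro N ι _ y z hy
  classical
  by_cases h : ∃ a : Equiv.Perm (Fin N), ∀ i, a (y i) = z i
  · obtain ⟨a0, ha0⟩ := h
    let p : Fin N → Prop := fun v => v ∉ Set.range y
    have hcard : Fintype.card {v // p v} = N - Fintype.card ι := by
      have h1 : Fintype.card {v // p v} = Fintype.card (Fin N) - Fintype.card (Set.range y) := by
        exact Fintype.card_subtype_compl (fun v : Fin N => v ∈ Set.range y)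
      rw [h1, Fintype.card_fin, Set.card_range_of_injective hy]
    let f : {a : Equiv.Perm (Fin N) // ∀ i, a (y i) = z i} →
        {σ : Equiv.Perm (Fin N) // ∀ v, ¬ p v → σ v = v} := fun a =>
      ⟨a0⁻¹ * a.1, by
        intro v hv
        simp only [p, not_not] at hv
        obtain ⟨i, rfl⟩ := hv
        rw [Equiv.Perm.mul_apply, a.2 i, ← ha0 i]
        exact a0.symm_apply_apply (y i)⟩
    have hf : Function.Injective f := by
      intro a b hab
      have := congrArg Subtype.val hab
      simp only [f] at this
      exact Subtype.ext (mul_left_cancel this)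
    calc Nat.card {a : Equiv.Perm (Fin N) // ∀ i, a (y i) = z i}
        ≤ Nat.card {σ : Equiv.Perm (Fin N) // ∀ v, ¬ p v → σ v = v} :=
          Nat.card_le_card_of_injective f hf
      _ = Nat.card (Equiv.Perm {v // p v}) :=
          Nat.card_congr (Equiv.Perm.subtypeEquivSubtypePerm p).symm
      _ = (N - Fintype.card ι).factorial := by
          rw [Nat.card_eq_fintype_card, Fintype.card_perm, hcard]
  · have : IsEmpty {a : Equiv.Perm (Fin N) // ∀ i, a (y i) = z i} :=
      ⟨fun a => h ⟨a.1, a.2⟩⟩
    rw [Nat.card_of_isEmpty]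
    exact Nat.zero_le _

namespace CYC

theorem fact_ineq (N k m : ℕ) :
    N.descFactorial (k + m) * ((N - k).factorial * (N - m).factorial) ≤ N.factorial ^ 2 := by
  by_cases h : k + m ≤ N
  · have h1 : (N - (k + m)).factorial * N.descFactorial (k + m) = N.factorial :=
      Nat.factorial_mul_descFactorial h
    have h2 : (N - k - m).factorial * (N - k).descFactorial m = (N - k).factorial :=
      Nat.factorial_mul_descFactorial (by omega)
    have h3 : (N - m).factorial * N.descFactorial m = N.factorial :=
      Nat.factorial_mul_descFactorial (by omega)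
    have h4 : N - k - m = N - (k + m) := by omega
    have h5 : (N - k).descFactorial m ≤ N.descFactorial m :=
      Nat.descFactorial_le m (Nat.sub_le N k)
    rw [h4] at h2
    calc N.descFactorial (k + m) * ((N - k).factorial * (N - m).factorial)
        = ((N - (k + m)).factorial * N.descFactorial (k + m)) *
            ((N - m).factorial * (N - k).descFactorial m) := by
          rw [← h2]; ring
      _ ≤ N.factorial * ((N - m).factorial * N.descFactorial m) := by
          rw [h1]
          exact Nat.mul_le_mul_left _ (Nat.mul_le_mul_left _ h5)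
      _ = N.factorial ^ 2 := by rw [h3]; ring
  · rw [Nat.descFactorial_eq_zero_iff_lt.2 (by omega)]
    simp

/-- The start of the edge number `i`. -/
def yy {N ℓ : ℕ} (x : ZMod ℓ → Fin N) (s : ZMod ℓ → Bool × Bool) (i : ZMod ℓ) : Fin N :=
  if (s i).2 then x i else x (i + 1)

/-- The end of the edge number `i`. -/
def zz {N ℓ : ℕ} (x : ZMod ℓ → Fin N) (s : ZMod ℓ → Bool × Bool) (i : ZMod ℓ) : Fin N :=
  if (s i).2 then x (i + 1) else x i

theorem fibre {N ℓ : ℕ} [NeZero ℓ] (x : ZMod ℓ → Fin N) (s : ZMod ℓ → Bool × Bool) :
    Nat.card {ab : Equiv.Perm (Fin N) × Equiv.Perm (Fin N) // IsCyc ab ℓ x s} ≤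
      (N - Fintype.card {i // (s i).1 = true}).factorial *
        (N - Fintype.card {i // (s i).1 = false}).factorial := by
  classical
  by_cases hinj : Function.Injective fun i => ((s i).1, yy x s i)
  · have hy : ∀ t : Bool, Function.Injective fun i : {i // (s i).1 = t} => yy x s i.1 := by
      intro t i j hij
      apply Subtype.ext
      apply hinj
      simp only [i.2, j.2]
      exact Prod.ext rfl hij
    let f : {ab : Equiv.Perm (Fin N) × Equiv.Perm (Fin N) // IsCyc ab ℓ x s} →
        {a : Equiv.Perm (Fin N) // ∀ i : {i // (s i).1 = true}, a (yy x s i.1) = zz x s i.1} ×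
        {a : Equiv.Perm (Fin N) // ∀ i : {i // (s i).1 = false}, a (yy x s i.1) = zz x s i.1} :=
      fun ab => (⟨ab.1.1, by
        intro i
        have h := ab.2.2.1 i.1
        rw [i.2] at h
        simp only [sel, if_true] at h
        unfold yy zz
        split_ifs with h2
        · simpa [h2] using h
        · simpa [h2] using h⟩, ⟨ab.1.2, by
        intro i
        have h := ab.2.2.1 i.1
        rw [i.2] at h
        simp only [sel, Bool.false_eq_true, if_false] at h
        unfold yy zz
        split_ifs with h2
        · simpa [h2] using h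
        · simpa [h2] using h⟩)
    have hf : Function.Injective f := by
      intro a b hab
      apply Subtype.ext
      apply Prod.ext
      · exact congrArg (fun q => q.1.1) hab
      · exact congrArg (fun q => q.2.1) hab
    calc _ ≤ Nat.card ({a : Equiv.Perm (Fin N) //
              ∀ i : {i // (s i).1 = true}, a (yy x s i.1) = zz x s i.1} ×
            {a : Equiv.Perm (Fin N) //
              ∀ i : {i // (s i).1 = false}, a (yy x s i.1) = zz x s i.1}) :=
          Nat.card_le_card_of_injective f hf
      _ ≤ _ := by
          rw [Nat.card_prod]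
          exact Nat.mul_le_mul (tPRESC N _ _ _ (hy true)) (tPRESC N _ _ _ (hy false))
  · have : IsEmpty {ab : Equiv.Perm (Fin N) × Equiv.Perm (Fin N) // IsCyc ab ℓ x s} :=
      ⟨fun ab => hinj ab.2.2.2⟩
    rw [Nat.card_of_isEmpty]
    exact Nat.zero_le _

theorem sum_card {ℓ : ℕ} [NeZero ℓ] (s : ZMod ℓ → Bool × Bool) :
    Fintype.card {i // (s i).1 = true} + Fintype.card {i // (s i).1 = false} = ℓ := by
  classical
  have h := Fintype.card_subtype_compl (fun i : ZMod ℓ => (s i).1 = true)
  have h1 : Fintype.card {i // (s i).1 = false} = Fintype.card {i // ¬ (s i).1 = true} :=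
    Fintype.card_congr (Equiv.subtypeEquivRight (by simp))
  have h2 : Fintype.card {i // (s i).1 = true} ≤ Fintype.card (ZMod ℓ) :=
    Fintype.card_subtype_le _
  rw [h1, h, ZMod.card] at *
  omega

end CYC

open CYC in
theorem tCYC : T_CYC := by
  intro N ℓ hℓ
  classical
  have : NeZero ℓ := ⟨by omega⟩
  let B := (ZMod ℓ → Fin N) × (ZMod ℓ → Bool × Bool)
  let P : B → (Equiv.Perm (Fin N) × Equiv.Perm (Fin N)) → Prop := fun b ab => IsCyc ab ℓ b.1 b.2
  let e : {q : (Equiv.Perm (Fin N) × Equiv.Perm (Fin N)) × (ZMod ℓ → Fin N) ×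
      (ZMod ℓ → Bool × Bool) // IsCyc q.1 ℓ q.2.1 q.2.2} ≃ Σ b : B, {ab // P b ab} :=
    { toFun := fun q => ⟨q.1.2, ⟨q.1.1, q.2⟩⟩
      invFun := fun q => ⟨(q.2.1, q.1), q.2.2⟩
      left_inv := fun q => rfl
      right_inv := fun q => rfl }
  rw [Nat.card_congr e, Nat.card_sigma]
  have hb : ∀ b : B, Nat.card {ab // P b ab} ≤ if Function.Injective b.1 then
      (N - Fintype.card {i // (b.2 i).1 = true}).factorial *
        (N - Fintype.card {i // (b.2 i).1 = false}).factorial else 0 := by
    intro b
    split_ifs with h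
    · exact fibre b.1 b.2
    · have : IsEmpty {ab // P b ab} := ⟨fun ab => h ab.2.1⟩
      rw [Nat.card_of_isEmpty]
  refine (Finset.sum_le_sum fun b _ => hb b).trans ?_
  rw [Fintype.sum_prod_type_right]
  have hs : ∀ s : ZMod ℓ → Bool × Bool, (∑ x : ZMod ℓ → Fin N,
      if Function.Injective x then (N - Fintype.card {i // (s i).1 = true}).factorial *
        (N - Fintype.card {i // (s i).1 = false}).factorial else 0) ≤ N.factorial ^ 2 := by
    intro s
    rw [← Finset.sum_filter, Finset.sum_const, smul_eq_mul]
    have h1 : (Finset.univ.filter fun x : ZMod ℓ → Fin N => Function.Injective x).card =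
        N.descFactorial ℓ := by
      have h2 := Fintype.card_embedding_eq (α := ZMod ℓ) (β := Fin N)
      rw [ZMod.card, Fintype.card_fin] at h2
      rw [← h2, ← Fintype.card_subtype]
      exact Fintype.card_congr (Equiv.subtypeInjectiveEquivEmbedding _ _)
    rw [h1]
    have h3 := fact_ineq N (Fintype.card {i // (s i).1 = true})
      (Fintype.card {i // (s i).1 = false})
    rwa [sum_card s] at h3
  refine (Finset.sum_le_sum fun s _ => hs s).trans ?_
  rw [Finset.sum_const, smul_eq_mul]
  apply le_of_eq
  congr 1
  rw [Finset.card_univ, Fintype.card_fun, ZMod.card]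
  simp

end Pool.Agent.AcyTest
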