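import Pool.Agent.AcyTest.Targets

/-!
# MP_08c6cd_lc: long directed paths
-/

namespace Pool.Agent.AcyTest

namespace DCYC

variable {V : Type}

lemma seq_of_transGen {F : V → V → Prop} {a b : V} (h : Relation.TransGen F a b) :
    ∃ L : ℕ, 1 ≤ L ∧ ∃ u : ℕ → V, u 0 = a ∧ u L = b ∧ ∀ i < L, F (u i) (u (i + 1)) := by
  induction h with
  | single h =>
    rename_i b
    refine ⟨1, le_rfl, fun i => if i = 0 then a else b, by simp, by simp, ?_⟩
    intro i hi
    have : i = 0 := by omega
    subst this
    simpa using h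
  | tail h1 h2 ih =>
    rename_i b c
    obtain ⟨L, hL, u, hu0, huL, hu⟩ := ih
    refine ⟨L + 1, by omega, fun i => if i ≤ L then u i else c, by simp [hu0], by simp, ?_⟩
    intro i hi
    by_cases hiL : i = L
    · subst hiL
      simpa [huL] using h2
    · have e1 : i ≤ L := by omega
      have e2 : i + 1 ≤ L := by omega
      simp only [e1, e2, if_true]
      exact hu i (by omega)

lemma walk_of_seq (G : SimpleGraph V) (u : ℕ → V) : ∀ k : ℕ, (∀ i < k, G.Adj (u i) (u (i + 1))) →
    ∃ q : G.Walk (u 0) (u k), q.length = k ∧ q.support = (List.range (k + 1)).map u := by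
  intro k
  induction k with
  | zero => intro _; exact ⟨.nil, rfl, by simp⟩
  | succ k ih =>
    intro h
    obtain ⟨q, hq1, hq2⟩ := ih fun i hi => h i (by omega)
    refine ⟨q.concat (h k (by omega)), by simp [hq1], ?_⟩
    rw [SimpleGraph.Walk.support_concat, hq2, List.range_succ (n := k + 1), List.map_append]
    simp

end DCYC

open DCYC in
theorem tDCYC (hTREE : T_TREE) : T_DCYC := by
  classical
  intro V F g h hac h2 hlong hhg
  unfold AcyR at hac
  push Not at hac
  obtain ⟨v, hv⟩ := hac
  have hex : ∃ L : ℕ, 1 ≤ L ∧ ∃ u : ℕ → V, u L = u 0 ∧ ∀ i < L, F (u i) (u (i + 1)) := by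
    obtain ⟨L, hL, u, hu0, huL, hu⟩ := seq_of_transGen hv
    exact ⟨L, hL, u, by rw [hu0, huL], hu⟩
  set L := Nat.find hex with hLdef
  obtain ⟨hL1, u, huL, hu⟩ := Nat.find_spec hex
  rw [← hLdef] at hL1 huL hu
  have hmin : ∀ m, m < L → ¬ (1 ≤ m ∧ ∃ u : ℕ → V, u m = u 0 ∧ ∀ i < m, F (u i) (u (i + 1))) :=
    fun m hm => Nat.find_min hex hm
  have hinj : ∀ i j, i < j → j < L → u i ≠ u j := by
    intro i j hij hj heq
    refine hmin (j - i) (by omega) ⟨by omega, fun k => u (i + k), ?_, ?_⟩
    · change u (i + (j - i)) = u (i + 0)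
      rw [Nat.add_zero, heq]
      congr 1; omega
    · intro k hk
      exact hu (i + k) (by omega)
  have hL1' : L ≠ 1 := by
    intro h1
    rw [h1] at hu huL
    have h3 := hu 0 (by omega)
    rw [Nat.zero_add, huL] at h3
    exact h2 _ _ h3 h3
  have hL2' : L ≠ 2 := by
    intro h1
    rw [h1] at hu huL
    have h3 := hu 0 (by omega)
    have h4 := hu 1 (by omega)
    rw [Nat.zero_add] at h3
    rw [show (1 + 1 : ℕ) = 2 from rfl, huL] at h4
    exact h2 _ _ h3 h4
  have hLg : g < L := by
    by_contra hcon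
    push Not at hcon
    have hadj : ∀ i < L - 1, (undR F).Adj (u i) (u (i + 1)) := by
      intro i hi
      exact ⟨hinj i (i + 1) (by omega) (by omega), Or.inl (hu i (by omega))⟩
    obtain ⟨q, hq1, hq2⟩ := walk_of_seq (undR F) u (L - 1) hadj
    have hqp : q.IsPath := by
      rw [SimpleGraph.Walk.isPath_def, hq2]
      refine List.Nodup.map_on ?_ List.nodup_range
      intro x hx y hy hxy
      rw [List.mem_range] at hx hy
      by_contra hne
      rcases Nat.lt_or_gt_of_ne hne with hlt | hlt
      · exact hinj x y hlt (by omega) hxy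
      · exact hinj y x hlt (by omega) hxy.symm
    have hlast : F (u (L - 1)) (u 0) := by
      have := hu (L - 1) (by omega)
      rwa [show L - 1 + 1 = L by omega, huL] at this
    have hadj0 : (undR F).Adj (u 0) (u (L - 1)) :=
      ⟨hinj 0 (L - 1) (by omega) (by omega), Or.inr hlast⟩
    have heq := hTREE V (undR F) g hlong (u 0) (u (L - 1)) hadj0.toWalk q
      (by
        rw [SimpleGraph.Walk.isPath_def]
        simp only [SimpleGraph.Adj.toWalk, SimpleGraph.Walk.support_cons,
          SimpleGraph.Walk.support_nil]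
        simpa using hadj0.ne) hqp
      (by rw [hq1]; simp only [SimpleGraph.Adj.toWalk, SimpleGraph.Walk.length_cons,
            SimpleGraph.Walk.length_nil]; omega)
    have hlen := congrArg SimpleGraph.Walk.length heq
    rw [hq1] at hlen
    simp only [SimpleGraph.Adj.toWalk, SimpleGraph.Walk.length_cons,
            SimpleGraph.Walk.length_nil] at hlen
    omega
  refine ⟨u, fun i hi => hu i (by omega), ?_⟩
  intro x hx y hy hxy
  rw [Set.mem_Iic] at hx hy
  by_contra hne
  rcases Nat.lt_or_gt_of_ne hne with hlt | hlt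
  · exact hinj x y hlt (by omega) hxy
  · exact hinj y x hlt (by omega) hxy.symm

end Pool.Agent.AcyTest
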