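import Pool.Agent.AcyTest.Targets

/-!
# DEL: removing the first edge of each short cyclic tuple
-/

namespace Pool.Agent.AcyTest.DEL

variable {N : ℕ} {ab : Equiv.Perm (Fin N) × Equiv.Perm (Fin N)} {Del : Set (Bool × Fin N)}

lemma loop_mem
    (h : ∀ (x : ZMod 1 → Fin N) (s : ZMod 1 → Bool × Bool), IsCyc ab 1 x s →
      ((s 0).1, if (s 0).2 then x 0 else x (0 + 1)) ∈ Del)
    (t : Bool) (u : Fin N) (hu : sel ab t u = u) : (t, u) ∈ Del := by
  have := h (fun _ => u) (fun _ => (t, true)) ⟨fun i j _ => Subsingleton.elim _ _,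
    fun i => by simpa using hu, fun i j _ => Subsingleton.elim _ _⟩
  simpa using this

lemma two_mem
    (h : ∀ (x : ZMod 2 → Fin N) (s : ZMod 2 → Bool × Bool), IsCyc ab 2 x s →
      ((s 0).1, if (s 0).2 then x 0 else x (0 + 1)) ∈ Del)
    (t t' dir : Bool) (u v : Fin N) (huv : u ≠ v) (h1 : sel ab t u = v)
    (h2 : if dir then sel ab t' v = u else sel ab t' u = v)
    (h3 : dir = false → t ≠ t') : (t, u) ∈ Del := by
  have e01 : ((0 : ZMod 2) + 1) = 1 := rfl
  have e11 : ((1 : ZMod 2) + 1) = 0 := rfl
  have hcases : ∀ i : ZMod 2, i = 0 ∨ i = 1 := by decide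
  have n10 : (1 : ZMod 2) ≠ 0 := by decide
  have := h (fun i => if i = 0 then u else v) (fun i => if i = 0 then (t, true) else (t', dir))
    ⟨?_, ?_, ?_⟩
  · simpa using this
  · intro i j hij
    rcases hcases i with rfl | rfl <;> rcases hcases j with rfl | rfl
    · rfl
    · simp only [if_pos rfl, if_neg n10] at hij
      exact absurd hij huv
    · simp only [if_pos rfl, if_neg n10] at hij
      exact absurd hij.symm huv
    · rfl
  · intro i
    rcases hcases i with rfl | rfl
    · rw [e01]
      simpa [n10] using h1
    · rw [e11]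
      simpa [n10] using h2
  · intro i j hij
    rcases hcases i with rfl | rfl <;> rcases hcases j with rfl | rfl
    · rfl
    · exfalso
      simp only [if_pos rfl, if_neg n10, e11] at hij
      cases dir with
      | true =>
        simp only [Prod.mk.injEq, if_pos rfl, if_neg n10] at hij
        exact huv hij.2
      | false =>
        simp only [Prod.mk.injEq] at hij
        exact h3 rfl hij.1
    · exfalso
      simp only [if_pos rfl, if_neg n10, e11] at hij
      cases dir with
      | true =>
        simp only [Prod.mk.injEq, if_pos rfl, if_neg n10] at hij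
        exact huv hij.2.symm
      | false =>
        simp only [Prod.mk.injEq] at hij
        exact h3 rfl hij.1.symm
    · rfl

end Pool.Agent.AcyTest.DEL

namespace Pool.Agent.AcyTest

open DEL in
theorem tDEL : T_DEL := by
  intro N g ab Del hg h
  have h1 := h 1 le_rfl (by omega)
  have h2 := h 2 (by omega) hg
  refine ⟨?_, ?_, ?_⟩
  · rintro u v ⟨t, htu, htD⟩ ⟨t', htv, htD'⟩
    by_cases huv : u = v
    · subst huv
      exact htD (loop_mem h1 t u htu)
    · exact htD (two_mem h2 t t' true u v huv htu (by simpa using htv) (by simp))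
  · intro u t t' htt hD hD'
    by_contra hne
    by_cases huv : u = sel ab t u
    · exact hD (loop_mem h1 t u huv.symm)
    · exact hD (two_mem h2 t t' false u _ huv rfl (by simpa using htt.symm) fun _ => hne)
  · intro v p hp
    by_contra hlt
    rw [not_lt] at hlt
    have h3 := hp.three_le_length
    obtain ⟨ℓ, hℓ⟩ : ∃ ℓ, p.length = ℓ := ⟨_, rfl⟩
    rw [hℓ] at hlt h3
    have : NeZero ℓ := ⟨by omega⟩
    set x : ZMod ℓ → Fin N := fun i => p.getVert i.val with hx
    have hval : ∀ i : ZMod ℓ, i.val < p.length := fun i => by rw [hℓ]; exact ZMod.val_lt i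
    have hinj : Function.Injective x := by
      intro i j hij
      apply ZMod.val_injective ℓ
      exact hp.getVert_injOn' (by simp only [Set.mem_ofPred_eq]; have := hval i; omega)
        (by simp only [Set.mem_ofPred_eq]; have := hval j; omega) hij
    have hnext : ∀ i : ZMod ℓ, p.getVert (i.val + 1) = x (i + 1) := by
      intro i
      have hi : ((i.val : ℕ) : ZMod ℓ) = i := ZMod.natCast_zmod_val i
      rcases lt_or_ge (i.val + 1) ℓ with hlt' | hge
      · have : (i + 1).val = i.val + 1 := by
          conv_lhs => rw [← hi]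
          rw [← Nat.cast_succ, ZMod.val_natCast, Nat.mod_eq_of_lt hlt']
        simp only [hx, this]
      · have hv := hval i
        have he : i.val + 1 = p.length := by omega
        have h0 : i + 1 = 0 := by
          rw [← hi, ← Nat.cast_succ, Nat.succ_eq_add_one, he, hℓ, ZMod.natCast_self]
        rw [h0, he, p.getVert_length]
        simp [hx]
    have hadj : ∀ i : ZMod ℓ, (undR fun u v => ∃ t, sel ab t u = v ∧ (t, u) ∉ Del).Adj (x i)
        (x (i + 1)) := by
      intro i
      rw [← hnext i]
      exact p.adj_getVert_succ (hval i)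
    have hex : ∀ i : ZMod ℓ, ∃ s : Bool × Bool, (if s.2 then sel ab s.1 (x i) = x (i + 1) else
        sel ab s.1 (x (i + 1)) = x i) ∧ (s.1, if s.2 then x i else x (i + 1)) ∉ Del := by
      intro i
      rcases (hadj i).2 with ⟨t, ht1, ht2⟩ | ⟨t, ht1, ht2⟩
      · exact ⟨(t, true), by simpa using ht1, by simpa using ht2⟩
      · exact ⟨(t, false), by simpa using ht1, by simpa using ht2⟩
    choose s hs1 hs2 using hex
    refine hs2 0 (h ℓ (by omega) hlt x s ⟨hinj, hs1, ?_⟩)
    have htwo : ∀ i j : ZMod ℓ, i = j + 1 → i + 1 = j → False := by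
      intro i j hij hji
      rw [hij, add_assoc, add_eq_left] at hji
      have : ((2 : ℕ) : ZMod ℓ) = 0 := by
        rw [← hji]; norm_num
      rw [ZMod.natCast_eq_zero_iff] at this
      have := Nat.le_of_dvd (by omega) this
      omega
    intro i j hij
    simp only [Prod.mk.injEq] at hij
    obtain ⟨ht, hy⟩ := hij
    have hi := hs1 i
    have hj := hs1 j
    rw [ht] at hi
    rcases hdi : (s i).2 with _ | _ <;> rcases hdj : (s j).2 with _ | _ <;>
      simp only [hdi, hdj, if_true, Bool.false_eq_true, if_false] at hi hj hy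
    · exact add_right_cancel (hinj hy)
    · -- backwards at i, forwards at j
      exfalso
      rw [hy] at hi
      exact htwo j i (hinj hy.symm) (hinj (hj.symm.trans hi))
    · exfalso
      rw [hy] at hi
      exact htwo i j (hinj hy) (hinj (hi.symm.trans hj))
    · exact hinj hy

end Pool.Agent.AcyTest
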