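import Mathlib

/-!
# Testing acyclicity of bounded-degree digraphs with few rounds of adaptivity (MP_08c6cd_lc)

Definitions: incidence-list representations, `r`-round testers.
-/

namespace Pool.Agent.AcyTest

/-- Incidence lists of a loopless digraph on `V` with in- and out-degrees at most `d`: `out v i` is
the `i`-th out-neighbour of `v`, `inn v i` the `i`-th in-neighbour, `none` if it does not exist. -/
structure DG (V : Type) (d : ℕ) where
  out : V → Fin d → Option V
  inn : V → Fin d → Option V
  out_inj : ∀ v i j u, out v i = some u → out v j = some u → i = j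
  inn_inj : ∀ v i j u, inn v i = some u → inn v j = some u → i = j
  out_mono : ∀ v i j, i ≤ j → (out v j).isSome → (out v i).isSome
  inn_mono : ∀ v i j, i ≤ j → (inn v j).isSome → (inn v i).isSome
  compat : ∀ u v, (∃ i, out u i = some v) ↔ ∃ j, inn v j = some u
  loopless : ∀ v i, out v i ≠ some v

/-- A query: `(true, v, i)` asks for the `i`-th out-neighbour, `(false, v, i)` for the `i`-th
in-neighbour of `v`. -/
abbrev Query (V : Type) (d : ℕ) : Type := Bool × V × Fin d

/-- What is known: for each query its answer, or `none` if it has not been asked. -/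
abbrev Table (V : Type) (d : ℕ) : Type := Query V d → Option (Option V)

namespace DG

variable {V : Type} {d : ℕ}

/-- `u → v` is an edge. -/
def E (G : DG V d) (u v : V) : Prop := ∃ i, G.out u i = some v

/-- There is no directed cycle. -/
def Acyclic (G : DG V d) : Prop := ∀ v, ¬ Relation.TransGen G.E v v

/-- The number of edges in which `G` and `G'` differ. -/
noncomputable def diff (G G' : DG V d) : ℕ :=
  Set.ncard {p : V × V | ¬ (G.E p.1 p.2 ↔ G'.E p.1 p.2)}

/-- `G` is `ε`-far from acyclic. -/
def Far {n : ℕ} (ε : ℝ) (G : DG (Fin n) d) : Prop :=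
  ∀ G' : DG (Fin n) d, G'.Acyclic → ε * d * n < G.diff G'

/-- The answer to a query. -/
def ans (G : DG V d) (x : Query V d) : Option V := if x.1 then G.out x.2.1 x.2.2 else G.inn x.2.1 x.2.2

end DG

/-- A deterministic algorithm which asks a set of queries in each round: `ask k t` are the queries of
round `k` if the answers to the queries of the earlier rounds are given by the table `t`. -/
structure RAlg (V : Type) (d : ℕ) where
  ask : ℕ → Table V d → Finset (Query V d)
  acc : Table V d → Bool

namespace RAlg

variable {V : Type} [DecidableEq V] {d : ℕ}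

/-- The table of all answers after `k` rounds. -/
def table (A : RAlg V d) (G : DG V d) : ℕ → Table V d
  | 0 => fun _ => none
  | k + 1 => fun x => if x ∈ A.ask k (A.table G k) then some (G.ans x) else A.table G k x

/-- The number of queries in the first `r` rounds. -/
def cost (A : RAlg V d) (G : DG V d) (r : ℕ) : ℕ :=
  ∑ k ∈ Finset.range r, (A.ask k (A.table G k)).card

end RAlg

/-- A randomised algorithm with `r` rounds and at most `q` queries: a probability distribution on
deterministic ones. -/
structure Tester (n d r q : ℕ) where
  ι : Type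
  [fin : Fintype ι]
  alg : ι → RAlg (Fin n) d
  w : ι → ℝ
  w_nonneg : ∀ i, 0 ≤ w i
  w_sum : ∑ i, w i = 1
  cost_le : ∀ i (G : DG (Fin n) d), (alg i).cost G r ≤ q

attribute [instance] Tester.fin

namespace Tester

variable {n d r q : ℕ}

/-- The probability that `G` is accepted. -/
def prob (T : Tester n d r q) (G : DG (Fin n) d) : ℝ :=
  ∑ i, if (T.alg i).acc ((T.alg i).table G r) then T.w i else 0

/-- `T` is an `ε`-tester for acyclicity (two-sided error). -/
def IsTester (T : Tester n d r q) (ε : ℝ) : Prop :=
  (∀ G : DG (Fin n) d, G.Acyclic → 2 / 3 ≤ T.prob G) ∧ ∀ G : DG (Fin n) d, G.Far ε → T.prob G ≤ 1 / 3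

/-- `T` is an `ε`-tester for acyclicity with one-sided error. -/
def IsOneSided (T : Tester n d r q) (ε : ℝ) : Prop :=
  (∀ G : DG (Fin n) d, G.Acyclic → T.prob G = 1) ∧ ∀ G : DG (Fin n) d, G.Far ε → T.prob G ≤ 1 / 3

end Tester

end Pool.Agent.AcyTest
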