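import Pool.Agent.AcyTest.Targets

/-!
# MP_08c6cd_lc: choice of the two permutations and of the parameters
-/

namespace Pool.Agent.AcyTest

namespace EX

lemma geom (g : ℕ) : ∑ ℓ ∈ Finset.Icc 1 g, 4 ^ ℓ ≤ 4 ^ (g + 1) := by
  induction g with
  | zero => simp
  | succ g ih =>
    rw [Finset.sum_Icc_succ_top (by omega)]
    calc ∑ ℓ ∈ Finset.Icc 1 g, 4 ^ ℓ + 4 ^ (g + 1) ≤ 4 ^ (g + 1) + 4 ^ (g + 1) := by gcongr
      _ ≤ 4 ^ (g + 1 + 1) := by rw [pow_succ 4 (g + 1)]; omega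

/-- number of cyclic tuples -/
noncomputable def cnt {N : ℕ} (g : ℕ) (ab : Equiv.Perm (Fin N) × Equiv.Perm (Fin N)) : ℕ :=
  ∑ ℓ ∈ Finset.Icc 1 g, Nat.card {q : (ZMod ℓ → Fin N) × (ZMod ℓ → Bool × Bool) //
    IsCyc ab ℓ q.1 q.2}

lemma sum_cnt (hCYC : T_CYC) (N g : ℕ) :
    ∑ ab : Equiv.Perm (Fin N) × Equiv.Perm (Fin N), cnt g ab ≤
      4 ^ (g + 1) * (N.factorial) ^ 2 := by
  classical
  unfold cnt
  rw [Finset.sum_comm]
  calc ∑ ℓ ∈ Finset.Icc 1 g, ∑ ab : Equiv.Perm (Fin N) × Equiv.Perm (Fin N),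
        Nat.card {q : (ZMod ℓ → Fin N) × (ZMod ℓ → Bool × Bool) // IsCyc ab ℓ q.1 q.2}
      ≤ ∑ ℓ ∈ Finset.Icc 1 g, 4 ^ ℓ * (N.factorial) ^ 2 := by
        refine Finset.sum_le_sum fun ℓ hℓ => ?_
        have hℓ1 : 1 ≤ ℓ := (Finset.mem_Icc.1 hℓ).1
        haveI : NeZero ℓ := ⟨by omega⟩
        refine le_trans (le_of_eq ?_) (hCYC N ℓ hℓ1)
        rw [← Nat.card_sigma]
        exact Nat.card_congr (Equiv.subtypeProdEquivSigmaSubtype
          (fun (ab : Equiv.Perm (Fin N) × Equiv.Perm (Fin N))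
            (q : (ZMod ℓ → Fin N) × (ZMod ℓ → Bool × Bool)) => IsCyc ab ℓ q.1 q.2)).symm
    _ = (∑ ℓ ∈ Finset.Icc 1 g, 4 ^ ℓ) * (N.factorial) ^ 2 := by rw [Finset.sum_mul]
    _ ≤ 4 ^ (g + 1) * (N.factorial) ^ 2 := by gcongr; exact geom g

lemma exists_good (hCYC : T_CYC) (N g : ℕ)
    (hcut : 4 * Nat.card {ab : Equiv.Perm (Fin N) × Equiv.Perm (Fin N) //
    ∃ A : Finset (Fin N), A.card = N / 2 ∧
      (Aᶜ.filter fun x => ab.1 x ∈ A).card + (Aᶜ.filter fun x => ab.2 x ∈ A).card ≤ N / 100}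
    ≤ (N.factorial) ^ 2) : ∃ ab : Equiv.Perm (Fin N) × Equiv.Perm (Fin N),
      (∀ A : Finset (Fin N), A.card = N / 2 →
        N / 100 < (Aᶜ.filter fun x => ab.1 x ∈ A).card + (Aᶜ.filter fun x => ab.2 x ∈ A).card) ∧
      cnt g ab ≤ 4 ^ (g + 2) := by
  classical
  by_contra hcon
  push Not at hcon
  set bad1 : Finset (Equiv.Perm (Fin N) × Equiv.Perm (Fin N)) := Finset.univ.filter fun ab =>
    ∃ A : Finset (Fin N), A.card = N / 2 ∧
      (Aᶜ.filter fun x => ab.1 x ∈ A).card + (Aᶜ.filter fun x => ab.2 x ∈ A).card ≤ N / 100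
    with hb1
  set bad2 : Finset (Equiv.Perm (Fin N) × Equiv.Perm (Fin N)) := Finset.univ.filter fun ab =>
    4 ^ (g + 2) < cnt g ab with hb2
  have h1 : 4 * bad1.card ≤ (N.factorial) ^ 2 := by
    rw [Nat.card_eq_fintype_card, Fintype.card_subtype] at hcut
    exact hcut
  have h2 : 4 * bad2.card ≤ (N.factorial) ^ 2 := by
    have h3 : bad2.card * 4 ^ (g + 2) ≤ 4 ^ (g + 1) * (N.factorial) ^ 2 := by
      calc bad2.card * 4 ^ (g + 2) = ∑ _ab ∈ bad2, 4 ^ (g + 2) := by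
            rw [Finset.sum_const, smul_eq_mul]
        _ ≤ ∑ ab ∈ bad2, cnt g ab := by
            refine Finset.sum_le_sum fun ab hab => ?_
            exact (Finset.mem_filter.1 hab).2.le
        _ ≤ ∑ ab, cnt g ab := Finset.sum_le_sum_of_subset (Finset.subset_univ _)
        _ ≤ _ := sum_cnt hCYC N g
    have h4 : 4 ^ (g + 1) * (4 * bad2.card) ≤ 4 ^ (g + 1) * (N.factorial) ^ 2 := by
      calc 4 ^ (g + 1) * (4 * bad2.card) = bad2.card * 4 ^ (g + 2) := by ring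
        _ ≤ _ := h3
    exact Nat.le_of_mul_le_mul_left h4 (by positivity)
  have h3 : (Finset.univ : Finset (Equiv.Perm (Fin N) × Equiv.Perm (Fin N))) ⊆ bad1 ∪ bad2 := by
    intro ab _
    rw [Finset.mem_union]
    by_cases h : ab ∈ bad1
    · exact Or.inl h
    · right
      rw [hb2, Finset.mem_filter]
      refine ⟨Finset.mem_univ _, hcon ab ?_⟩
      intro A hA
      by_contra hlt
      apply h
      rw [hb1, Finset.mem_filter]
      exact ⟨Finset.mem_univ _, A, hA, not_lt.1 hlt⟩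
  have h4 := (Finset.card_le_card h3).trans (Finset.card_union_le _ _)
  rw [Finset.card_univ, Fintype.card_prod, Fintype.card_perm, Fintype.card_fin, ← sq] at h4
  have h5 : 0 < (N.factorial) ^ 2 := by positivity
  omega

lemma four_pow_le (N : ℕ) (hN : 1 ≤ N) :
    (4 : ℝ) ^ ⌊(1 / 4 : ℝ) * Real.log N⌋₊ ≤ Real.sqrt N := by
  have hN' : (1 : ℝ) ≤ N := by exact_mod_cast hN
  have hlog : 0 ≤ Real.log N := Real.log_nonneg hN'
  have h4 : Real.log 4 ≤ 2 := by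
    have : Real.log 4 = 2 * Real.log 2 := by
      rw [show (4 : ℝ) = 2 ^ 2 by norm_num, Real.log_pow]; norm_num
    rw [this]
    have := Real.log_two_lt_d9
    linarith
  have h5 : 0 ≤ Real.log 4 := Real.log_nonneg (by norm_num)
  rw [Real.sqrt_eq_rpow, Real.rpow_def_of_pos (by linarith), ← Real.rpow_natCast,
    Real.rpow_def_of_pos (by norm_num)]
  apply Real.exp_le_exp.2
  have h6 : (⌊(1 / 4 : ℝ) * Real.log N⌋₊ : ℝ) ≤ 1 / 4 * Real.log N :=
    Nat.floor_le (by positivity)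
  calc Real.log 4 * (⌊(1 / 4 : ℝ) * Real.log N⌋₊ : ℝ) ≤ 2 * (1 / 4 * Real.log N) := by gcongr
    _ = Real.log N * (1 / 2) := by ring

end EX

open EX

theorem tEX (hCUT : T_CUT) (hCYC : T_CYC) (hEXA : T_EXA) : T_EX := by
  obtain ⟨N₁, hN₁⟩ := hCUT
  refine ⟨1 / 4, by norm_num, max N₁ (3200 ^ 2), fun N hN => ?_⟩
  have hNa : N₁ ≤ N := (le_max_left _ _).trans hN
  have hNb : 3200 ^ 2 ≤ N := (le_max_right _ _).trans hN
  have hNb' : (3200 : ℝ) ^ 2 ≤ N := by exact_mod_cast hNb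
  set g : ℕ := ⌊(1 / 4 : ℝ) * Real.log N⌋₊ with hg
  have hg2 : 2 ≤ g := by
    apply Nat.le_floor
    have h1 : Real.log ((3 : ℝ) ^ 8) ≤ Real.log N :=
      Real.log_le_log (by norm_num) (le_trans (by norm_num) hNb')
    have h2 : (1 : ℝ) ≤ Real.log 3 := by
      rw [Real.le_log_iff_exp_le (by norm_num)]
      have := Real.exp_one_lt_d9
      linarith
    rw [Real.log_pow] at h1
    push_cast at h1 ⊢
    linarith
  obtain ⟨ab, hab1, hab2⟩ := exists_good hCYC N g (hN₁ N hNa)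
  obtain ⟨E, hE1, hE2, hE3, hE4, hE5⟩ := hEXA N g (4 ^ (g + 2)) ab hg2 hab1 hab2
  refine ⟨E, hE1, hE2, hE3, hE4, fun F hF => le_trans ?_ (hE5 F hF)⟩
  have h1 := four_pow_le N (le_trans (by norm_num) hNb)
  rw [← hg] at h1
  have h2 : (3200 : ℝ) ≤ Real.sqrt N := Real.le_sqrt_of_sq_le hNb'
  have h3 : Real.sqrt N * Real.sqrt N = N := Real.mul_self_sqrt (by positivity)
  have h4 : ((4 ^ (g + 2) : ℕ) : ℝ) = 16 * 4 ^ g := by push_cast; ring
  rw [h4]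
  nlinarith

end Pool.Agent.AcyTest
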