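import Pool.Agent.AcyTest.Targets

/-!
# MP_08c6cd_lc: down-closed sets, feedback arcs of the base graph (ACY-EXA)
-/

set_option autoImplicit false

namespace Pool.Agent.AcyTest

theorem tDOWN : T_DOWN := by
  classical
  intro V _ F hF k
  have hwf : WellFounded (Relation.TransGen F) := by
    have h1 : IsTrans V (Relation.TransGen F) := ⟨fun _ _ _ hab hbc => hab.trans hbc⟩
    have h2 : Std.Irrefl (Relation.TransGen F) := ⟨hF⟩
    exact Finite.wellFounded_of_trans_of_irrefl _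
  induction k with
  | zero => exact fun _ => ⟨∅, rfl, fun _ _ _ h => absurd h (Finset.notMem_empty _)⟩
  | succ k ih =>
    intro hk
    obtain ⟨A, hA, hd⟩ := ih (by omega)
    have hne : {u : V | u ∉ A}.Nonempty := by
      by_contra hcon
      rw [Set.not_nonempty_iff_eq_empty, Set.eq_empty_iff_forall_notMem] at hcon
      have : A = Finset.univ := by
        ext u
        simp only [Finset.mem_univ, iff_true]
        by_contra h
        exact hcon u h
      rw [this, Finset.card_univ] at hA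
      omega
    obtain ⟨u, hu, hmin⟩ := hwf.has_min _ hne
    refine ⟨insert u A, by rw [Finset.card_insert_of_notMem hu, hA], ?_⟩
    intro a b hab hb
    rw [Finset.mem_insert] at hb ⊢
    right
    rcases hb with rfl | hb
    · by_contra h
      exact hmin a h (Relation.TransGen.single hab)
    · exact hd a b hab hb

namespace EXA

/-- the first edge of a tuple -/
def fe {N ℓ : ℕ} (x : ZMod ℓ → Fin N) (s : ZMod ℓ → Bool × Bool) : Bool × Fin N :=
  ((s 0).1, if (s 0).2 then x 0 else x (0 + 1))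

/-- the deleted edges -/
def Del {N : ℕ} (ab : Equiv.Perm (Fin N) × Equiv.Perm (Fin N)) (g : ℕ) : Set (Bool × Fin N) :=
  {e | ∃ ℓ, 1 ≤ ℓ ∧ ℓ ≤ g ∧ ∃ (x : ZMod ℓ → Fin N) (s : ZMod ℓ → Bool × Bool),
    IsCyc ab ℓ x s ∧ fe x s = e}

lemma card_Del {N : ℕ} (ab : Equiv.Perm (Fin N) × Equiv.Perm (Fin N)) (g : ℕ) :
    (Del ab g).ncard ≤ ∑ ℓ ∈ Finset.Icc 1 g,
      Nat.card {q : (ZMod ℓ → Fin N) × (ZMod ℓ → Bool × Bool) // IsCyc ab ℓ q.1 q.2} := by
  classical
  let T : (Finset.Icc 1 g : Finset ℕ) → Type := fun ℓ =>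
    {q : (ZMod ℓ.1 → Fin N) × (ZMod ℓ.1 → Bool × Bool) // IsCyc ab ℓ.1 q.1 q.2}
  have hfin : ∀ ℓ, Finite (T ℓ) := by
    intro ℓ
    have : NeZero ℓ.1 := ⟨by have := (Finset.mem_Icc.1 ℓ.2).1; omega⟩
    have : Finite (ZMod ℓ.1) := inferInstance
    exact Subtype.finite
  have h1 : Nat.card (Sigma T) = ∑ ℓ ∈ Finset.Icc 1 g,
      Nat.card {q : (ZMod ℓ → Fin N) × (ZMod ℓ → Bool × Bool) // IsCyc ab ℓ q.1 q.2} := by
    rw [Nat.card_sigma]
    exact Finset.sum_coe_sort (Finset.Icc 1 g) fun ℓ =>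
      Nat.card {q : (ZMod ℓ → Fin N) × (ZMod ℓ → Bool × Bool) // IsCyc ab ℓ q.1 q.2}
  rw [← h1, ← Nat.card_coe_set_eq]
  let φ : Sigma T → Del ab g := fun y => ⟨fe y.2.1.1 y.2.1.2, y.1.1,
    (Finset.mem_Icc.1 y.1.2).1, (Finset.mem_Icc.1 y.1.2).2, _, _, y.2.2, rfl⟩
  apply Nat.card_le_card_of_surjective φ
  rintro ⟨e, ℓ, hl1, hl2, x, s, hc, he⟩
  exact ⟨⟨⟨ℓ, Finset.mem_Icc.2 ⟨hl1, hl2⟩⟩, ⟨(x, s), hc⟩⟩, Subtype.ext he⟩

end EXA

open EXA

theorem tEXA (hDEL : T_DEL) (hDOWN : T_DOWN) : T_EXA := by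
  classical
  intro N g D ab hg hcut hD
  obtain ⟨h2c, huniq, hlong⟩ := hDEL N g ab (Del ab g) hg
    (fun ℓ hl1 hl2 x s hc => ⟨ℓ, hl1, hl2, x, s, hc, rfl⟩)
  have hDel : (Del ab g).ncard ≤ D := (card_Del ab g).trans hD
  refine ⟨fun u v => ∃ t, sel ab t u = v ∧ (t, u) ∉ Del ab g, ?_, ?_, h2c, hlong, ?_⟩
  · intro u
    have hsub : {v | ∃ t, sel ab t u = v ∧ (t, u) ∉ Del ab g} ⊆
        (({ab.1 u, ab.2 u} : Finset (Fin N)) : Set (Fin N)) := by
      rintro v ⟨t, rfl, -⟩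
      cases t <;> simp [sel]
    refine (Set.ncard_le_ncard hsub (Finset.finite_toSet _)).trans ?_
    rw [Set.ncard_coe_finset]
    exact Finset.card_le_two
  · intro v
    have hsub : {u | ∃ t, sel ab t u = v ∧ (t, u) ∉ Del ab g} ⊆
        (({ab.1.symm v, ab.2.symm v} : Finset (Fin N)) : Set (Fin N)) := by
      rintro u ⟨t, rfl, -⟩
      cases t <;> simp [sel]
    refine (Set.ncard_le_ncard hsub (Finset.finite_toSet _)).trans ?_
    rw [Set.ncard_coe_finset]
    exact Finset.card_le_two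
  · intro F hF
    obtain ⟨A, hA, hd⟩ := hDOWN (Fin N) F hF (N / 2) (by
      rw [Fintype.card_fin]; exact Nat.div_le_self _ _)
    have hX := hcut A hA
    -- the crossing edges
    let P : Finset (Bool × Fin N) := Finset.univ.filter fun e => e.2 ∉ A ∧ sel ab e.1 e.2 ∈ A
    have hP : (Aᶜ.filter fun x => ab.1 x ∈ A).card + (Aᶜ.filter fun x => ab.2 x ∈ A).card ≤
        P.card := by
      rw [← Finset.card_image_of_injective (Aᶜ.filter fun x => ab.1 x ∈ A)
        (f := fun x => (true, x)) (fun a b hab => (Prod.mk.inj hab).2),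
        ← Finset.card_image_of_injective (Aᶜ.filter fun x => ab.2 x ∈ A)
        (f := fun x => (false, x)) (fun a b hab => (Prod.mk.inj hab).2),
        ← Finset.card_union_of_disjoint]
      · apply Finset.card_le_card
        intro e he
        rw [Finset.mem_union, Finset.mem_image, Finset.mem_image] at he
        rcases he with ⟨x, hx, rfl⟩ | ⟨x, hx, rfl⟩
        · rw [Finset.mem_filter, Finset.mem_compl] at hx
          exact Finset.mem_filter.2 ⟨Finset.mem_univ _, hx.1, by simpa [sel] using hx.2⟩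
        · rw [Finset.mem_filter, Finset.mem_compl] at hx
          exact Finset.mem_filter.2 ⟨Finset.mem_univ _, hx.1, by simpa [sel] using hx.2⟩
      · rw [Finset.disjoint_left]
        intro e he he'
        rw [Finset.mem_image] at he he'
        obtain ⟨x, -, rfl⟩ := he
        obtain ⟨y, -, hy⟩ := he'
        simp at hy
    have h1 : ((P : Set (Bool × Fin N)) \ Del ab g).ncard ≤
        Set.ncard {p : Fin N × Fin N | (∃ t, sel ab t p.1 = p.2 ∧ (t, p.1) ∉ Del ab g) ∧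
          ¬ F p.1 p.2} := by
      apply Set.ncard_le_ncard_of_injOn (fun e => (e.2, sel ab e.1 e.2))
      · rintro ⟨t, u⟩ ⟨he1, he2⟩
        have he3 := (Finset.mem_filter.1 (Finset.mem_coe.1 he1)).2
        refine ⟨⟨t, rfl, he2⟩, fun hFu => he3.1 (hd _ _ hFu he3.2)⟩
      · rintro ⟨t, u⟩ ⟨-, he2⟩ ⟨t', u'⟩ ⟨-, he2'⟩ heq
        simp only [Prod.mk.injEq] at heq
        obtain ⟨rfl, heq⟩ := heq
        rw [huniq u t t' heq he2 he2']
    have h2 : P.card ≤ ((P : Set (Bool × Fin N)) \ Del ab g).ncard + D := by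
      have h3 := Set.ncard_le_ncard_sdiff_add_ncard (P : Set (Bool × Fin N)) (Del ab g)
        (Set.toFinite _)
      rw [Set.ncard_coe_finset] at h3
      omega
    have h4 : N / 100 < Set.ncard {p : Fin N × Fin N |
        (∃ t, sel ab t p.1 = p.2 ∧ (t, p.1) ∉ Del ab g) ∧ ¬ F p.1 p.2} + D := by omega
    have h5 : N < 100 * (Set.ncard {p : Fin N × Fin N |
        (∃ t, sel ab t p.1 = p.2 ∧ (t, p.1) ∉ Del ab g) ∧ ¬ F p.1 p.2} + D) := by omega
    have h6 : (N : ℝ) < 100 * ((Set.ncard {p : Fin N × Fin N |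
        (∃ t, sel ab t p.1 = p.2 ∧ (t, p.1) ∉ Del ab g) ∧ ¬ F p.1 p.2} : ℝ) + D) := by
      exact_mod_cast h5
    linarith

end Pool.Agent.AcyTest
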