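import Pool.Agent.AcyTest.Targets

/-!
# MP_08c6cd_lc: assembly of the theorem on one-sided testers
-/

namespace Pool.Agent.AcyTest

namespace Final

variable {n d r q : ℕ} {W : Type} [Fintype W] [DecidableEq W]

/-- The sum of the acceptance probabilities over all labellings. -/
theorem sum_prob (T : Tester n d r q) (L : DG W d) :
    ∑ π : Fin n ≃ W, T.prob (L.pull π) = ∑ i, T.w i *
      (Nat.card {π : Fin n ≃ W // (T.alg i).acc ((T.alg i).table (L.pull π) r) = true} : ℝ) := by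
  unfold Tester.prob
  rw [Finset.sum_comm]
  refine Finset.sum_congr rfl fun i _ => ?_
  rw [Nat.card_eq_fintype_card, Fintype.card_subtype, ← Finset.sum_filter, Finset.sum_const,
    nsmul_eq_mul, mul_comm]

theorem card_acc_add_rej (A : RAlg (Fin n) d) (L : DG W d) :
    (Nat.card {π : Fin n ≃ W // A.acc (A.table (L.pull π) r) = true} : ℝ) +
      Nat.card {π : Fin n ≃ W // A.acc (A.table (L.pull π) r) = false} =
      Nat.card (Fin n ≃ W) := by
  rw [Nat.card_eq_fintype_card, Nat.card_eq_fintype_card, Nat.card_eq_fintype_card,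
    Fintype.card_subtype, Fintype.card_subtype]
  have h := Finset.card_filter_add_card_filter_not (s := (Finset.univ : Finset (Fin n ≃ W)))
    (fun π => A.acc (A.table (L.pull π) r) = true)
  simp only [Bool.not_eq_true] at h
  rw [Finset.card_univ] at h
  exact_mod_cast h

theorem acc_of_pos (T : Tester n d r q) (G : DG (Fin n) d) (h : T.prob G = 1) (i : T.ι)
    (hi : 0 < T.w i) : (T.alg i).acc ((T.alg i).table G r) = true := by
  by_contra hc
  have h1 : T.prob G < ∑ i, T.w i := by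
    unfold Tester.prob
    refine Finset.sum_lt_sum (fun j _ => ?_) ⟨i, Finset.mem_univ i, ?_⟩
    · split_ifs
      · exact le_rfl
      · exact T.w_nonneg j
    · rw [if_neg hc]; exact hi
  rw [T.w_sum, h] at h1
  exact lt_irrefl _ h1

/-- The numerical estimate. -/
theorem num_one {c₀ : ℝ} (hc₀ : 0 < c₀) {d : ℕ} (hd : 2 ≤ d) {n r q : ℕ} (hr : 1 ≤ r) (hq : 1 ≤ q)
    (hn : 16 / c₀ ≤ Real.log n) (hn2 : 2 ≤ n)
    (hC : (8 * (2 * (d : ℝ) + 1) * Real.exp (16 / c₀ * (2 + c₀ / 2 * Real.log d))) ^ r * q < n) :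
    ∃ m g h : ℕ, g = ⌊c₀ * Real.log n⌋₊ ∧ m * (2 * r + 2) ≤ h ∧ h + 2 * r ≤ g ∧ 1 ≤ h ∧
      2 * (q : ℝ) ≤ n / 2 ∧
      (n : ℝ) * (d : ℝ) ^ h * (2 * (2 * (d : ℝ) + 1) ^ r * (r * q)) ^ m ≤
        1 / n * ((n : ℝ) - 2 * q) ^ m := by
  set L := Real.log n with hL
  set lM := 16 / c₀ * (2 + c₀ / 2 * Real.log d) with hlM
  set D : ℝ := 2 * (d : ℝ) + 1 with hD
  have hd' : (2 : ℝ) ≤ d := by exact_mod_cast hd
  have hn' : (2 : ℝ) ≤ n := by exact_mod_cast hn2
  have hr' : (1 : ℝ) ≤ r := by exact_mod_cast hr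
  have hq' : (1 : ℝ) ≤ q := by exact_mod_cast hq
  have hlogd : 0 ≤ Real.log d := Real.log_nonneg (by linarith)
  have hc16 : 0 < 16 / c₀ := by positivity
  have hlM0 : 32 / c₀ ≤ lM := by
    rw [hlM]
    have : 0 ≤ c₀ / 2 * Real.log d := by positivity
    have h1 : 16 / c₀ * 2 ≤ 16 / c₀ * (2 + c₀ / 2 * Real.log d) :=
      mul_le_mul_of_nonneg_left (by linarith) hc16.le
    calc 32 / c₀ = 16 / c₀ * 2 := by ring
      _ ≤ _ := h1
  have hlMpos : 0 < lM := lt_of_lt_of_le (by positivity) hlM0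
  have hM1 : 1 ≤ Real.exp lM := Real.one_le_exp hlMpos.le
  have hD1 : 1 ≤ D := by rw [hD]; linarith
  set C := 8 * D * Real.exp lM with hCdef
  have hC8 : 8 ≤ C := by
    rw [hCdef]
    have : 1 ≤ D * Real.exp lM := one_le_mul_of_one_le_of_one_le hD1 hM1
    nlinarith
  have hCpos : 0 < C := by linarith
  have hCr : C ^ r < n := lt_of_le_of_lt (le_mul_of_one_le_right (by positivity) hq') hC
  have hnpos : (0 : ℝ) < n := by linarith
  have hrl : r * lM < L := by
    have h1 : (Real.exp lM) ^ r ≤ C ^ r := by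
      apply pow_le_pow_left₀ (Real.exp_pos _).le
      rw [hCdef]
      have : 1 ≤ 8 * D := by linarith
      exact le_mul_of_one_le_left (Real.exp_pos _).le this
    have h2 : (Real.exp lM) ^ r < n := lt_of_le_of_lt h1 hCr
    rw [← Real.exp_nat_mul] at h2
    rw [hL]
    exact (Real.lt_log_iff_exp_lt hnpos).2 h2
  have hrc : (r : ℝ) < c₀ * L / 32 := by
    have h1 : r * (32 / c₀) < L := lt_of_le_of_lt (mul_le_mul_of_nonneg_left hlM0 (by linarith)) hrl
    have h2 : r * (32 / c₀) = r * 32 / c₀ := by ring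
    rw [h2, div_lt_iff₀ hc₀] at h1
    linarith
  have hcL : 16 ≤ c₀ * L := by
    rw [div_le_iff₀ hc₀] at hn
    linarith
  set g := ⌊c₀ * L⌋₊ with hg
  have hg1 : (g : ℝ) ≤ c₀ * L := Nat.floor_le (by linarith)
  have hg2 : c₀ * L < g + 1 := Nat.lt_floor_add_one _
  have h4r : 4 * r ≤ g := by
    have : (4 * r : ℝ) ≤ g := by linarith
    exact_mod_cast this
  set h := g / 2 with hh
  have hh1 : 2 * h ≤ g := by omega
  have hh2 : g ≤ 2 * h + 1 := by omega
  set m := h / (2 * r + 2) with hm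
  have hm1 : m * (2 * r + 2) ≤ h := Nat.div_mul_le_self _ _
  have hm2 : h < (m + 1) * (2 * r + 2) := by
    rw [hm, mul_comm]
    exact Nat.lt_mul_div_succ h (by omega)
  have hCq : 4 * (q : ℝ) ≤ n := by
    have h1 : (8 : ℝ) ≤ C ^ r := by
      calc (8 : ℝ) ≤ C := hC8
        _ ≤ C ^ r := le_self_pow₀ (by linarith) (by omega)
    nlinarith
  refine ⟨m, g, h, rfl, hm1, by omega, by omega, by linarith, ?_⟩
  -- the base
  have hbase : 2 * D ^ r * (r * q) ≤ (Real.exp (-(lM * r))) * ((n : ℝ) - 2 * q) := by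
    have h2r : (r : ℝ) ≤ 2 ^ r := by
      exact_mod_cast (Nat.lt_two_pow_self (n := r)).le
    have h1 : (n : ℝ) / 2 ≤ n - 2 * q := by linarith
    have h3 : 2 * D ^ r * (r * q) * Real.exp (lM * r) ≤ n / 2 := by
      have e1 : Real.exp (lM * r) = (Real.exp lM) ^ r := by
        rw [← Real.exp_nat_mul]; ring_nf
      rw [e1]
      have e2 : C ^ r = 8 ^ r * D ^ r * (Real.exp lM) ^ r := by
        rw [hCdef, mul_pow, mul_pow]
      have e3 : (4 : ℝ) * r ≤ 8 ^ r := by
        have : (8 : ℝ) ^ r = 4 ^ r * 2 ^ r := by rw [← mul_pow]; norm_num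
        rw [this]
        have h4 : (4 : ℝ) ≤ 4 ^ r := le_self_pow₀ (by norm_num) (by omega)
        exact mul_le_mul h4 h2r (by linarith) (by positivity)
      have hX : 0 ≤ D ^ r * (Real.exp lM) ^ r * q := by positivity
      have := mul_le_mul_of_nonneg_right e3 hX
      have h5 : 8 ^ r * (D ^ r * (Real.exp lM) ^ r * q) = C ^ r * q := by rw [e2]; ring
      rw [h5] at this
      have h6 : 2 * D ^ r * (r * q) * (Real.exp lM) ^ r =
        (4 * r * (D ^ r * (Real.exp lM) ^ r * q)) / 2 := by ring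
      rw [h6]
      linarith
    have h7 : Real.exp (-(lM * r)) = (Real.exp (lM * r))⁻¹ := Real.exp_neg _
    rw [h7, inv_mul_eq_div, le_div_iff₀ (Real.exp_pos _)]
    linarith
  have hpow := pow_le_pow_left₀ (by positivity) hbase m
  rw [mul_pow (Real.exp (-(lM * r)))] at hpow
  have hn2q : 0 ≤ (n : ℝ) - 2 * q := by linarith
  have hrm : c₀ * L / 16 ≤ r * m := by
    have h1 : (h : ℝ) < (m + 1) * (2 * r + 2) := by exact_mod_cast hm2
    have h2 : (g : ℝ) ≤ 2 * h + 1 := by exact_mod_cast hh2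
    have h3 : (m : ℝ) * (2 * r + 2) ≤ m * (4 * r) :=
      mul_le_mul_of_nonneg_left (by linarith) (Nat.cast_nonneg m)
    nlinarith
  have hmain : (n : ℝ) * (d : ℝ) ^ h * (Real.exp (-(lM * r))) ^ m ≤ 1 / n := by
    rw [le_div_iff₀ hnpos]
    have e1 : (n : ℝ) = Real.exp L := (Real.exp_log hnpos).symm
    have e2 : (d : ℝ) ^ h = Real.exp (h * Real.log d) := by
      rw [Real.exp_nat_mul, Real.exp_log (by linarith)]
    rw [e2, ← Real.exp_nat_mul]
    nth_rewrite 1 2 [e1]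
    rw [← Real.exp_add, ← Real.exp_add, ← Real.exp_add, Real.exp_le_one_iff]
    have h1 : (h : ℝ) ≤ c₀ * L / 2 := by
      have : (2 * h : ℝ) ≤ g := by exact_mod_cast hh1
      linarith
    have h2 : (h : ℝ) * Real.log d ≤ c₀ * L / 2 * Real.log d :=
      mul_le_mul_of_nonneg_right h1 hlogd
    have h3 : lM * (c₀ * L / 16) ≤ lM * (r * m) := mul_le_mul_of_nonneg_left hrm hlMpos.le
    have h4 : lM * (c₀ * L / 16) = 2 * L + c₀ * L / 2 * Real.log d := by
      rw [hlM]; field_simp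
    have h5 : (m : ℝ) * (-(lM * r)) = -(lM * (r * m)) := by ring
    rw [h5]
    linarith
  calc (n : ℝ) * (d : ℝ) ^ h * (2 * D ^ r * (r * q)) ^ m
      ≤ (n : ℝ) * (d : ℝ) ^ h * ((Real.exp (-(lM * r))) ^ m * ((n : ℝ) - 2 * q) ^ m) :=
        mul_le_mul_of_nonneg_left hpow (by positivity)
    _ = ((n : ℝ) * (d : ℝ) ^ h * (Real.exp (-(lM * r))) ^ m) * ((n : ℝ) - 2 * q) ^ m := by ring
    _ ≤ _ := mul_le_mul_of_nonneg_right hmain (by positivity)

end Final

open Final in
theorem tONESIDED (hEX : T_EX) (hREL : T_REL) (hFAR : T_FAR) (hONE : T_ONE) : T_ONESIDED := by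
  intro d hd
  obtain ⟨c₀, hc₀, N₀, hE⟩ := hEX
  have hd' : (2 : ℝ) ≤ d := by exact_mod_cast hd
  have hlogd : 0 ≤ Real.log d := Real.log_nonneg (by linarith)
  refine ⟨1 / (400 * d), by positivity,
    8 * (2 * (d : ℝ) + 1) * Real.exp (16 / c₀ * (2 + c₀ / 2 * Real.log d)), ?_,
    max N₀ (max 2 ⌈Real.exp (16 / c₀)⌉₊), ?_⟩
  · have h1 : 1 ≤ Real.exp (16 / c₀ * (2 + c₀ / 2 * Real.log d)) := Real.one_le_exp (by positivity)
    nlinarith
  intro n hn r q hr hq ε hε hε₀ T hT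
  by_contra hcon
  push Not at hcon
  have hnN : N₀ ≤ n := le_trans (le_max_left _ _) hn
  have hn2 : 2 ≤ n := le_trans (le_trans (le_max_left _ _) (le_max_right _ _)) hn
  have hne : ⌈Real.exp (16 / c₀)⌉₊ ≤ n := le_trans (le_trans (le_max_right _ _) (le_max_right _ _)) hn
  have hn2' : (2 : ℝ) ≤ n := by exact_mod_cast hn2
  have hnlog : 16 / c₀ ≤ Real.log n := by
    rw [Real.le_log_iff_exp_le (by linarith)]
    exact (Nat.le_ceil _).trans (by exact_mod_cast hne)
  obtain ⟨m, g, h, hg, hm, hh, hh1, hq2, hnum⟩ := num_one hc₀ hd hr hq hnlog hn2 hcon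
  obtain ⟨E, hE1, hE2, hE3, hE4, hE5⟩ := hE n hnN
  obtain ⟨L, hL⟩ := hREL (Fin n) d E (fun u => (hE1 u).trans hd) (fun u => (hE2 u).trans hd)
    (fun v hv => hE3 v v hv hv)
  have hLE : L.E = E := by
    funext u v
    exact propext (hL u v)
  have hcyc : LongCyc L.und g := by
    unfold DG.und
    rw [hLE, hg]
    exact hE4
  have hfas : FasGe L.E ((n : ℝ) / 200) := by rw [hLE]; exact hE5
  have hno2 : ∀ u v, L.E u v → ¬ L.E v u := by rw [hLE]; exact hE3
  -- far
  have hfar : ∀ π : Fin n ≃ Fin n, T.prob (L.pull π) ≤ 1 / 3 := by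
    intro π
    refine hT.2 _ (hFAR n d (Fin n) L π _ ε hfas ?_)
    have h1 : ε * d ≤ 1 / 400 := by
      calc ε * d ≤ 1 / (400 * d) * d := mul_le_mul_of_nonneg_right hε₀ (by linarith)
        _ = 1 / 400 := by field_simp
    nlinarith
  set Nf : ℝ := (Nat.card (Fin n ≃ Fin n) : ℝ) with hNf
  have hNfpos : 0 < Nf := by
    rw [hNf]
    exact_mod_cast Nat.card_pos
  have hsum : ∑ π : Fin n ≃ Fin n, T.prob (L.pull π) ≤ Nf / 3 := by
    calc ∑ π : Fin n ≃ Fin n, T.prob (L.pull π) ≤ ∑ _π : Fin n ≃ Fin n, (1 / 3 : ℝ) :=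
          Finset.sum_le_sum fun π _ => hfar π
      _ = Nf / 3 := by
          rw [Finset.sum_const, nsmul_eq_mul, hNf, Nat.card_eq_fintype_card, Finset.card_univ]
          ring
  rw [sum_prob] at hsum
  have hnpos : (0 : ℝ) < n := by linarith
  have hpos2q : 0 < ((n : ℝ) - 2 * q) ^ m := by
    apply pow_pos
    linarith
  have hrej : ∀ i, 0 < T.w i → Nf * (1 - 1 / n) ≤
      (Nat.card {π : Fin n ≃ Fin n //
        (T.alg i).acc ((T.alg i).table (L.pull π) r) = true} : ℝ) := by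
    intro i hi
    have h1 := hONE n d (Fin n) L (T.alg i) r q m g h (T.cost_le i)
      (fun G hG => acc_of_pos T G (hT.1 G hG) i hi) hno2 hcyc hm hh hh1
    have h2 := card_acc_add_rej (r := r) (T.alg i) L
    have h3 : (Nat.card {π : Fin n ≃ Fin n //
        (T.alg i).acc ((T.alg i).table (L.pull π) r) = false} : ℝ) * ((n : ℝ) - 2 * q) ^ m ≤
        (n : ℝ) * (d : ℝ) ^ h * (2 * (2 * (d : ℝ) + 1) ^ r * (r * q)) ^ m * Nf := by
      have h4 : ((n - 2 * q : ℕ) : ℝ) = (n : ℝ) - 2 * q := by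
        have : 2 * q ≤ n := by
          have : (2 * q : ℝ) ≤ n := by linarith
          exact_mod_cast this
        push_cast [Nat.cast_sub this]
        ring
      rw [← h4, hNf]
      rw [Fintype.card_fin] at h1
      exact_mod_cast h1
    have h5 : (Nat.card {π : Fin n ≃ Fin n //
        (T.alg i).acc ((T.alg i).table (L.pull π) r) = false} : ℝ) ≤ 1 / n * Nf := by
      have h6 : (Nat.card {π : Fin n ≃ Fin n //
        (T.alg i).acc ((T.alg i).table (L.pull π) r) = false} : ℝ) * ((n : ℝ) - 2 * q) ^ m ≤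
        (1 / n * Nf) * ((n : ℝ) - 2 * q) ^ m := by
        calc _ ≤ _ := h3
          _ ≤ (1 / n * ((n : ℝ) - 2 * q) ^ m) * Nf := mul_le_mul_of_nonneg_right hnum hNfpos.le
          _ = _ := by ring
      exact le_of_mul_le_mul_right h6 hpos2q
    rw [← hNf] at h2
    linarith
  have hlow : Nf * (1 - 1 / n) ≤ Nf / 3 := by
    calc Nf * (1 - 1 / n) = ∑ i, T.w i * (Nf * (1 - 1 / n)) := by
          rw [← Finset.sum_mul, T.w_sum, one_mul]
      _ ≤ ∑ i, T.w i * (Nat.card {π : Fin n ≃ Fin n //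
            (T.alg i).acc ((T.alg i).table (L.pull π) r) = true} : ℝ) := by
          refine Finset.sum_le_sum fun i _ => ?_
          rcases (T.w_nonneg i).eq_or_lt with h0 | h0
          · rw [← h0]; simp
          · exact mul_le_mul_of_nonneg_left (hrej i h0) h0.le
      _ ≤ Nf / 3 := hsum
  have h12 : 1 / (n : ℝ) ≤ 1 / 2 := one_div_le_one_div_of_le (by norm_num) hn2'
  nlinarith

end Pool.Agent.AcyTest
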