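import Mathlib

/-!
# MP_08c6cd_lc: the numerical estimates for two-sided testers
-/

namespace Pool.Agent.AcyTest.NumTwo

/-- The parameters for two-sided testers. -/
theorem num_two {c₀ c γ : ℝ} {d n r q N₀ : ℕ} (hc₀ : 0 < c₀) (hd : 2 ≤ d) (hγ0 : 0 < γ)
    (hγ1 : γ < 1) (hc : 0 < c) (hc1 : c ≤ c₀ / 1152) (hc2 : c * (18 * Real.log (2 * d + 1)) ≤ 1)
    (hL1 : 16 ≤ γ * Real.log n) (hL2 : Real.log (N₀ + 1) ≤ γ / 8 * Real.log n)
    (hL3 : 32 * (36 / γ + 2) ≤ c₀ * γ * Real.log n) (hL4 : 18 * Real.log (2 * d + 1) ≤ γ * Real.log n)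
    (hr : (r : ℝ) ≤ c * γ ^ 2 * Real.log n) (hq : (q : ℝ) ≤ (n : ℝ) ^ (1 - γ)) :
    ∃ N₁ m h g : ℕ, g = ⌊c₀ * Real.log N₁⌋₊ ∧ N₀ ≤ N₁ ∧ 0 < N₁ ∧ 2 * N₁ ≤ n ∧ 2 * h + 1 ≤ g ∧
      1 ≤ h ∧ h = m * (2 * r + 2) ∧ 2 * r ≤ h ∧ 4 * q ≤ n ∧ 48 ≤ n ∧
      (2 * (d : ℝ)) ^ h * (4 * (2 * (d : ℝ) + 1) ^ r * (r * q)) ^ m ≤
        1 / (n : ℝ) ^ 4 * ((n : ℝ) - 2 * q) ^ m ∧
      2 * (N₁ : ℝ) * (2 * (d : ℝ) + 1) ^ r * (r * q) ≤ 1 / 12 * ((n : ℝ) - 2 * q) := by
  set L := Real.log n with hL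
  set D : ℝ := 2 * (d : ℝ) + 1 with hD
  have hd' : (2 : ℝ) ≤ d := by exact_mod_cast hd
  have hD5 : 5 ≤ D := by rw [hD]; linarith
  have hD0 : 0 < D := by linarith
  set lD := Real.log D with hlD
  have hlD0 : 0 < lD := Real.log_pos (by linarith)
  have hL16 : 16 ≤ L := by
    have h0 : 0 < L := by
      by_contra h
      push Not at h
      have := mul_nonpos_of_nonneg_of_nonpos hγ0.le h
      linarith
    have := mul_le_mul_of_nonneg_right hγ1.le h0.le
    linarith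
  have hL0 : 0 < L := by linarith
  have hnpos : (0 : ℝ) < n := by
    rcases Nat.eq_zero_or_pos n with h | h
    · rw [hL, h] at hL0
      simp at hL0
    · exact_mod_cast h
  have hnexp : (n : ℝ) = Real.exp L := (Real.exp_log hnpos).symm
  have hrpow : ∀ x : ℝ, (n : ℝ) ^ x = Real.exp (x * L) := by
    intro x
    rw [Real.rpow_def_of_pos hnpos, ← hL, mul_comm]
  have hexp1 : (2 : ℝ) ≤ Real.exp 1 := by
    have := Real.add_one_le_exp (1 : ℝ)
    linarith
  have hexp4 : (16 : ℝ) ≤ Real.exp 4 := by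
    have h1 : Real.exp 4 = (Real.exp 1) ^ 4 := by
      rw [← Real.exp_nat_mul]; norm_num
    rw [h1]
    calc (16 : ℝ) = 2 ^ 4 := by norm_num
      _ ≤ _ := pow_le_pow_left₀ (by norm_num) hexp1 4
  have hexp8 : (256 : ℝ) ≤ Real.exp 8 := by
    have h1 : Real.exp 8 = (Real.exp 4) ^ 2 := by
      rw [← Real.exp_nat_mul]; norm_num
    rw [h1, pow_two]
    have := mul_le_mul hexp4 hexp4 (by norm_num) (Real.exp_pos _).le
    linarith
  have hγL : γ * L ≤ L := by
    have := mul_le_mul_of_nonneg_right hγ1.le hL0.le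
    linarith
  -- the size of the base graph
  set X : ℝ := Real.exp (γ / 8 * L) with hX
  have hX2 : 2 ≤ Real.exp (γ / 16 * L) := by
    refine hexp1.trans (Real.exp_le_exp.2 ?_)
    linarith
  have hXsq : X = Real.exp (γ / 16 * L) * Real.exp (γ / 16 * L) := by
    rw [hX, ← Real.exp_add]
    congr 1
    ring
  set N₁ := ⌊X⌋₊ with hN₁
  have hXpos : 0 < X := Real.exp_pos _
  have hN1le : (N₁ : ℝ) ≤ X := Nat.floor_le hXpos.le
  have hN1gt : X < N₁ + 1 := Nat.lt_floor_add_one X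
  have hN1ge : Real.exp (γ / 16 * L) ≤ N₁ := by
    have := mul_le_mul_of_nonneg_right hX2 (Real.exp_pos (γ / 16 * L)).le
    linarith
  have hN1pos : (0 : ℝ) < N₁ := lt_of_lt_of_le (Real.exp_pos _) hN1ge
  have hlogN1 : γ / 16 * L ≤ Real.log N₁ := (Real.le_log_iff_exp_le hN1pos).2 hN1ge
  have hN0N1 : N₀ ≤ N₁ := by
    have h1 : (N₀ : ℝ) + 1 ≤ X := by
      rw [hX, ← Real.log_le_iff_le_exp (by positivity)]
      exact hL2
    have h2 : (N₀ : ℝ) < N₁ + 1 := by linarith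
    have h3 : N₀ < N₁ + 1 := by exact_mod_cast h2
    omega
  have h2N1 : 2 * (N₁ : ℝ) ≤ n := by
    have h1 : 2 * X ≤ Real.exp 1 * Real.exp (γ / 8 * L) :=
      mul_le_mul_of_nonneg_right hexp1 hXpos.le
    have h2 : Real.exp 1 * Real.exp (γ / 8 * L) ≤ n := by
      rw [← Real.exp_add, hnexp]
      refine Real.exp_le_exp.2 ?_
      linarith
    linarith
  -- number of blocks
  set m := ⌈8 / γ⌉₊ with hm
  have hm1 : 8 / γ ≤ m := Nat.le_ceil _
  have hm2 : (m : ℝ) ≤ 9 / γ := by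
    have h1 : (m : ℝ) < 8 / γ + 1 := Nat.ceil_lt_add_one (by positivity)
    have h2 : 1 ≤ 1 / γ := by rw [le_div_iff₀ hγ0]; linarith
    have h3 : 8 / γ + 1 / γ = 9 / γ := by ring
    linarith
  have hmγ : 8 ≤ γ * m := by
    rw [div_le_iff₀ hγ0] at hm1
    linarith
  have hmγ2 : γ * m ≤ 9 := by
    rw [le_div_iff₀ hγ0] at hm2
    linarith
  have hmpos : 1 ≤ m := by
    have : (0 : ℝ) < m := by
      by_contra h
      push Not at h
      have := mul_nonpos_of_nonneg_of_nonpos hγ0.le h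
      linarith
    exact_mod_cast this
  have hr0 : (0 : ℝ) ≤ r := Nat.cast_nonneg r
  have hmr : (m : ℝ) * r ≤ 9 * c * γ * L := by
    calc (m : ℝ) * r ≤ m * (c * γ ^ 2 * L) := mul_le_mul_of_nonneg_left hr (Nat.cast_nonneg m)
      _ = (γ * m) * (c * γ * L) := by ring
      _ ≤ 9 * (c * γ * L) := mul_le_mul_of_nonneg_right hmγ2 (by positivity)
      _ = _ := by ring
  have hg : 2 * (m * (2 * r + 2)) + 1 ≤ ⌊c₀ * Real.log N₁⌋₊ := by
    apply Nat.le_floor
    push_cast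
    have h1 : c₀ * (γ / 16 * L) ≤ c₀ * Real.log N₁ := mul_le_mul_of_nonneg_left hlogN1 hc₀.le
    have h2 : 36 * c * γ * L ≤ c₀ * γ * L / 32 := by
      have h3 : c * (γ * L) ≤ c₀ / 1152 * (γ * L) := mul_le_mul_of_nonneg_right hc1 (by positivity)
      have h3' : 36 * c * γ * L = 36 * (c * (γ * L)) := by ring
      have h3'' : c₀ * γ * L / 32 = 36 * (c₀ / 1152 * (γ * L)) := by ring
      rw [h3', h3'']
      linarith
    have h4 : 4 * (m : ℝ) ≤ 36 / γ := by
      have : 4 * (9 / γ) = 36 / γ := by ring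
      linarith
    have h5 : 2 * ((m : ℝ) * (2 * r + 2)) + 1 = 4 * (m * r) + 4 * m + 1 := by ring
    rw [h5]
    linarith
  -- q is small
  have hqn : 4 * (q : ℝ) ≤ n := by
    rw [hrpow] at hq
    have h1 : Real.exp ((1 - γ) * L) * Real.exp 4 ≤ n := by
      rw [← Real.exp_add, hnexp]
      refine Real.exp_le_exp.2 ?_
      have : (1 - γ) * L = L - γ * L := by ring
      linarith
    have h2 := Real.exp_pos ((1 - γ) * L)
    have h3 := mul_le_mul_of_nonneg_left hexp4 h2.le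
    linarith
  have hn48 : 48 ≤ (n : ℝ) := by
    rw [hnexp]
    have : Real.exp 8 ≤ Real.exp L := Real.exp_le_exp.2 (by linarith)
    linarith
  have hn2 : (n : ℝ) / 2 ≤ n - 2 * q := by linarith
  have hrD : (r : ℝ) ≤ D ^ r := by
    have h1 : (r : ℝ) ≤ 2 ^ r := by exact_mod_cast (Nat.lt_two_pow_self (n := r)).le
    exact h1.trans (pow_le_pow_left₀ (by norm_num) (by linarith) r)
  have hDr : D ^ r = Real.exp (r * lD) := by
    rw [Real.exp_nat_mul, Real.exp_log hD0]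
  refine ⟨N₁, m, m * (2 * r + 2), _, rfl, hN0N1, by exact_mod_cast hN1pos, by exact_mod_cast h2N1,
    hg, ?_, rfl, ?_, by exact_mod_cast hqn, by exact_mod_cast hn48, ?_, ?_⟩
  · have : 1 * 1 ≤ m * (2 * r + 2) := Nat.mul_le_mul hmpos (by omega)
    omega
  · have : 1 * (2 * r) ≤ m * (2 * r + 2) := Nat.mul_le_mul hmpos (by omega)
    omega
  · have hbase : 4 * D ^ r * (r * q) ≤ (D ^ (2 * r + 2) * Real.exp (-(γ * L))) *
        ((n : ℝ) - 2 * q) := by
      have h1 : (q : ℝ) ≤ Real.exp (-(γ * L)) * n := by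
        rw [hrpow] at hq
        refine hq.trans (le_of_eq ?_)
        rw [hnexp, ← Real.exp_add]
        congr 1
        ring
      have h2 : (r : ℝ) * q ≤ D ^ r * (Real.exp (-(γ * L)) * n) :=
        mul_le_mul hrD h1 (Nat.cast_nonneg q) (by positivity)
      have h3 : 4 * D ^ r * (r * q) ≤ 4 * D ^ r * (D ^ r * (Real.exp (-(γ * L)) * n)) :=
        mul_le_mul_of_nonneg_left h2 (by positivity)
      have h4 : 4 * D ^ r * (D ^ r * (Real.exp (-(γ * L)) * n)) =
        8 * (D ^ (2 * r) * Real.exp (-(γ * L)) * (n / 2)) := by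
        rw [two_mul r, pow_add]; ring
      have h5 : 8 * (D ^ (2 * r) * Real.exp (-(γ * L)) * (n / 2)) ≤
        D ^ 2 * (D ^ (2 * r) * Real.exp (-(γ * L)) * (n / 2)) := by
        apply mul_le_mul_of_nonneg_right _ (by positivity)
        have : (5 : ℝ) * 5 ≤ D * D := mul_le_mul hD5 hD5 (by norm_num) hD0.le
        rw [pow_two]
        linarith
      have h6 : D ^ 2 * (D ^ (2 * r) * Real.exp (-(γ * L)) * (n / 2)) =
        (D ^ (2 * r + 2) * Real.exp (-(γ * L))) * (n / 2) := by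
        rw [pow_add]; ring
      have h7 : (D ^ (2 * r + 2) * Real.exp (-(γ * L))) * (n / 2) ≤
        (D ^ (2 * r + 2) * Real.exp (-(γ * L))) * ((n : ℝ) - 2 * q) :=
        mul_le_mul_of_nonneg_left hn2 (by positivity)
      linarith
    have hpow := pow_le_pow_left₀ (by positivity) hbase m
    rw [mul_pow (D ^ (2 * r + 2) * Real.exp (-(γ * L)))] at hpow
    have h2d : (2 * (d : ℝ)) ^ (m * (2 * r + 2)) ≤ D ^ (m * (2 * r + 2)) :=
      pow_le_pow_left₀ (by positivity) (by rw [hD]; linarith) _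
    have hnn : 0 ≤ ((n : ℝ) - 2 * q) ^ m := pow_nonneg (by linarith) m
    have hmain : D ^ (m * (2 * r + 2)) * (D ^ (2 * r + 2) * Real.exp (-(γ * L))) ^ m ≤
        1 / (n : ℝ) ^ 4 := by
      rw [le_div_iff₀ (by positivity)]
      have e1 : D ^ (m * (2 * r + 2)) = Real.exp ((m * (2 * r + 2) : ℕ) * lD) := by
        rw [Real.exp_nat_mul, Real.exp_log hD0]
      have e2 : D ^ (2 * r + 2) = Real.exp ((2 * r + 2 : ℕ) * lD) := by
        rw [Real.exp_nat_mul, Real.exp_log hD0]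
      have e3 : (n : ℝ) ^ 4 = Real.exp ((4 : ℕ) * L) := by
        rw [Real.exp_nat_mul, ← hnexp]
      rw [e1, e2, e3, ← Real.exp_add, ← Real.exp_nat_mul, ← Real.exp_add, ← Real.exp_add,
        Real.exp_le_one_iff]
      push_cast
      have h8 : (m : ℝ) * lD ≤ L / 2 := by
        have h9 : γ * m * (18 * lD) ≤ 9 * (γ * L) :=
          mul_le_mul hmγ2 hL4 (by positivity) (by norm_num)
        have h10 : γ * (m * lD) ≤ γ * (L / 2) := by linarith
        exact le_of_mul_le_mul_left h10 hγ0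
      have h11 : (m : ℝ) * r * lD ≤ L / 2 := by
        calc (m : ℝ) * r * lD ≤ 9 * c * γ * L * lD := mul_le_mul_of_nonneg_right hmr hlD0.le
          _ = (c * (18 * lD)) * (γ * L / 2) := by ring
          _ ≤ 1 * (γ * L / 2) := mul_le_mul_of_nonneg_right hc2 (by positivity)
          _ ≤ L / 2 := by linarith
      have h12 : (m : ℝ) * (γ * L) ≥ 8 * L := by
        have := mul_le_mul_of_nonneg_right hmγ hL0.le
        linarith
      have h13 : (m : ℝ) * (2 * r + 2) * lD + m * ((2 * r + 2) * lD + -(γ * L)) + 4 * L =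
        4 * (m * r * lD) + 4 * (m * lD) - m * (γ * L) + 4 * L := by ring
      rw [h13]
      linarith
    calc (2 * (d : ℝ)) ^ (m * (2 * r + 2)) * (4 * D ^ r * (r * q)) ^ m
        ≤ D ^ (m * (2 * r + 2)) * ((D ^ (2 * r + 2) * Real.exp (-(γ * L))) ^ m *
            ((n : ℝ) - 2 * q) ^ m) := mul_le_mul h2d hpow (by positivity) (by positivity)
      _ = (D ^ (m * (2 * r + 2)) * (D ^ (2 * r + 2) * Real.exp (-(γ * L))) ^ m) *
            ((n : ℝ) - 2 * q) ^ m := by ring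
      _ ≤ _ := mul_le_mul_of_nonneg_right hmain hnn
  · have h1 : (q : ℝ) ≤ Real.exp (-(γ * L)) * n := by
      rw [hrpow] at hq
      refine hq.trans (le_of_eq ?_)
      rw [hnexp, ← Real.exp_add]
      congr 1
      ring
    have h2 : (r : ℝ) * q ≤ D ^ r * (Real.exp (-(γ * L)) * n) :=
      mul_le_mul hrD h1 (Nat.cast_nonneg q) (by positivity)
    have h3 : 2 * (N₁ : ℝ) * D ^ r * (r * q) ≤
        2 * X * D ^ r * (D ^ r * (Real.exp (-(γ * L)) * n)) := by
      apply mul_le_mul _ h2 (by positivity) (by positivity)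
      apply mul_le_mul_of_nonneg_right _ (by positivity)
      linarith
    have h4 : 2 * X * D ^ r * (D ^ r * (Real.exp (-(γ * L)) * n)) =
        4 * Real.exp (γ / 8 * L + r * lD + r * lD - γ * L) * (n / 2) := by
      rw [hDr, sub_eq_add_neg, Real.exp_add, Real.exp_add, Real.exp_add, ← hX]
      ring
    have h5 : γ / 8 * L + r * lD + r * lD - γ * L ≤ -8 := by
      have h6 : (r : ℝ) * lD ≤ γ * L / 18 := by
        calc (r : ℝ) * lD ≤ (c * γ ^ 2 * L) * lD := mul_le_mul_of_nonneg_right hr hlD0.le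
          _ = (c * (18 * lD)) * (γ ^ 2 * L / 18) := by ring
          _ ≤ 1 * (γ ^ 2 * L / 18) := mul_le_mul_of_nonneg_right hc2 (by positivity)
          _ ≤ γ * L / 18 := by
              have := mul_le_mul_of_nonneg_right hγ1.le (mul_pos hγ0 hL0).le
              linarith
      linarith
    have h7 : 4 * Real.exp (γ / 8 * L + r * lD + r * lD - γ * L) ≤ 1 / 12 := by
      have h8 : Real.exp (γ / 8 * L + r * lD + r * lD - γ * L) ≤ Real.exp (-8) :=
        Real.exp_le_exp.2 h5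
      have h9 : Real.exp (-8) ≤ 1 / 256 := by
        rw [Real.exp_neg, inv_eq_one_div]
        exact one_div_le_one_div_of_le (by norm_num) hexp8
      linarith
    calc 2 * (N₁ : ℝ) * D ^ r * (r * q) ≤ _ := h3
      _ = _ := h4
      _ ≤ 1 / 12 * (n / 2) := mul_le_mul_of_nonneg_right h7 (by positivity)
      _ ≤ _ := mul_le_mul_of_nonneg_left hn2 (by norm_num)

end Pool.Agent.AcyTest.NumTwo
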