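import Pool.Agent.AcyTest.FinalOne
import Pool.Agent.AcyTest.NumTwo

/-!
# MP_08c6cd_lc: assembly of the theorem on two-sided testers
-/

namespace Pool.Agent.AcyTest

namespace Final

/-- Weighted sums of acceptance counts. -/
theorem weighted_le {ι : Type} [Fintype ι] (w : ι → ℝ) (hw : ∀ i, 0 ≤ w i) (hs : ∑ i, w i = 1)
    (a b : ι → ℝ) (e : ℝ) (h : ∀ i, a i ≤ b i + e) : ∑ i, w i * a i ≤ ∑ i, w i * b i + e := by
  calc ∑ i, w i * a i ≤ ∑ i, w i * (b i + e) :=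
        Finset.sum_le_sum fun i _ => mul_le_mul_of_nonneg_left (h i) (hw i)
    _ = ∑ i, w i * b i + e := by
        simp_rw [mul_add]
        rw [Finset.sum_add_distrib, ← Finset.sum_mul, hs, one_mul]

theorem pull_acyclic {n d : ℕ} {W : Type} (L : DG W d) (π : Fin n ≃ W) (h : L.Acyclic) :
    (L.pull π).Acyclic := by
  intro v hv
  refine h (π v) ?_
  exact Relation.TransGen.lift π (fun a b hab => (DG.pull_E L π a b).1 hab) _ _ hv

end Final

open Final in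
theorem tTWOSIDED (hEX : T_EX) (hREL : T_REL) (hFAR : T_FAR) (hLFAS : T_LFAS) (hCACY : T_CACY)
    (hCCUT : T_CCUT) (hSURG : T_SURG) (hBAD : T_BAD) (hCHAIN : T_CHAIN) : T_TWOSIDED := by
  intro d hd
  obtain ⟨c₀, hc₀, N₀, hE⟩ := hEX
  have hd' : (2 : ℝ) ≤ d := by exact_mod_cast hd
  have hlD : 0 < Real.log (2 * (d : ℝ) + 1) := Real.log_pos (by linarith)
  refine ⟨1 / (800 * d), by positivity,
    min (c₀ / 1152) (1 / (18 * Real.log (2 * d + 1))), by positivity, ?_⟩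
  intro γ hγ0 hγ1
  set c := min (c₀ / 1152) (1 / (18 * Real.log (2 * (d : ℝ) + 1))) with hcdef
  have hc : 0 < c := by positivity
  have hc1 : c ≤ c₀ / 1152 := min_le_left _ _
  have hc2 : c * (18 * Real.log (2 * d + 1)) ≤ 1 := by
    have h1 : c ≤ 1 / (18 * Real.log (2 * (d : ℝ) + 1)) := min_le_right _ _
    rwa [le_div_iff₀ (by positivity)] at h1
  set Λ : ℝ := 16 / γ + Real.log (N₀ + 1) / (γ / 8) + 32 * (36 / γ + 2) / (c₀ * γ) +
    18 * Real.log (2 * d + 1) / γ with hΛ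
  have hlogN0 : 0 ≤ Real.log ((N₀ : ℝ) + 1) :=
    Real.log_nonneg (by have := Nat.cast_nonneg (α := ℝ) N₀; linarith)
  refine ⟨⌈Real.exp Λ⌉₊, ?_⟩
  intro n hn r q hr ε hε hε₀ T hT
  by_contra hcon
  push Not at hcon
  have hnexp : Real.exp Λ ≤ n := (Nat.le_ceil _).trans (by exact_mod_cast hn)
  have hnpos : (0 : ℝ) < n := lt_of_lt_of_le (Real.exp_pos _) hnexp
  have hΛL : Λ ≤ Real.log n := (Real.le_log_iff_exp_le hnpos).2 hnexp
  have p1 : 0 ≤ 16 / γ := by positivity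
  have p2 : 0 ≤ Real.log ((N₀ : ℝ) + 1) / (γ / 8) := by positivity
  have p3 : 0 ≤ 32 * (36 / γ + 2) / (c₀ * γ) := by positivity
  have p4 : 0 ≤ 18 * Real.log (2 * (d : ℝ) + 1) / γ := by positivity
  have hL1 : 16 ≤ γ * Real.log n := by
    have h : 16 / γ ≤ Real.log n := by linarith
    rw [div_le_iff₀ hγ0] at h
    linarith
  have hL2 : Real.log (N₀ + 1) ≤ γ / 8 * Real.log n := by
    have h : Real.log ((N₀ : ℝ) + 1) / (γ / 8) ≤ Real.log n := by linarith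
    rw [div_le_iff₀ (by positivity)] at h
    linarith
  have hL3 : 32 * (36 / γ + 2) ≤ c₀ * γ * Real.log n := by
    have h : 32 * (36 / γ + 2) / (c₀ * γ) ≤ Real.log n := by linarith
    rw [div_le_iff₀ (by positivity)] at h
    linarith
  have hL4 : 18 * Real.log (2 * d + 1) ≤ γ * Real.log n := by
    have h : 18 * Real.log (2 * (d : ℝ) + 1) / γ ≤ Real.log n := by linarith
    rw [div_le_iff₀ hγ0] at h
    linarith
  obtain ⟨N₁, m, h, g, hg, hN01, hN1, h2N1, h2h, hh1, hhm, h2r, h4q, hn48, hnum1, hnum2⟩ :=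
    NumTwo.num_two hc₀ hd hγ0 hγ1 hc hc1 hc2 hL1 hL2 hL3 hL4 hr hcon
  have hn48' : (48 : ℝ) ≤ n := by exact_mod_cast hn48
  obtain ⟨E, hE1, hE2, hE3, hE4, hE5⟩ := hE N₁ hN01
  obtain ⟨H, hH⟩ := hREL (Fin N₁) d E (fun u => (hE1 u).trans hd) (fun u => (hE2 u).trans hd)
    (fun v hv => hE3 v v hv hv)
  have hHE : H.E = E := by
    funext u v
    exact propext (hH u v)
  have hcyc : LongCyc H.und g := by
    unfold DG.und
    rw [hHE, hg]
    exact hE4
  have hfas : FasGe H.E ((N₁ : ℝ) / 200) := by rw [hHE]; exact hE5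
  have hno2 : ∀ u v, H.E u v → ¬ H.E v u := by rw [hHE]; exact hE3
  -- layers
  set K := n / N₁ with hK
  set s := n % N₁ with hs
  have hKs : K * N₁ + s = n := by
    rw [hK, hs, mul_comm]
    exact Nat.div_add_mod n N₁
  have hKpos : 0 < K := Nat.div_pos (by omega) hN1
  have hslt : s < N₁ := Nat.mod_lt _ hN1
  have hcardW : Fintype.card ((Fin N₁ × Fin K) ⊕ Fin s) = n := by
    simp only [Fintype.card_sum, Fintype.card_prod, Fintype.card_fin]
    rw [mul_comm]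
    exact hKs
  have eW : Nonempty (Fin n ≃ (Fin N₁ × Fin K) ⊕ Fin s) :=
    ⟨Fintype.equivOfCardEq (by rw [Fintype.card_fin, hcardW])⟩
  set Nf : ℝ := (Nat.card (Fin n ≃ (Fin N₁ × Fin K) ⊕ Fin s) : ℝ) with hNf
  have hNfpos : 0 < Nf := by
    rw [hNf]
    exact_mod_cast Nat.card_pos
  -- the graphs
  have hfar : ∀ π : Fin n ≃ (Fin N₁ × Fin K) ⊕ Fin s,
      T.prob ((H.lift K s fun _ _ => 1).pull π) ≤ 1 / 3 := by
    intro π
    refine hT.2 _ (hFAR n d _ _ π _ ε (hLFAS (Fin N₁) d K s H _ hfas) ?_)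
    have h1 : ε * d ≤ 1 / 800 := by
      calc ε * d ≤ 1 / (800 * d) * d := mul_le_mul_of_nonneg_right hε₀ (by linarith)
        _ = 1 / 800 := by field_simp
    have h2 : (n : ℝ) < 2 * (K * N₁) := by
      have : n < 2 * (K * N₁) := by omega
      exact_mod_cast this
    have h3 : ε * d * n ≤ 1 / 800 * n := mul_le_mul_of_nonneg_right h1 hnpos.le
    have h4 : (K : ℝ) * (N₁ / 200) = K * N₁ / 200 := by ring
    rw [h4]
    linarith
  have hcut : ∀ π : Fin n ≃ (Fin N₁ × Fin K) ⊕ Fin s,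
      2 / 3 ≤ T.prob ((H.cut K s).pull π) := fun π =>
    hT.1 _ (pull_acyclic _ π (hCACY (Fin N₁) d K s H))
  have hsum1 : ∑ π : Fin n ≃ (Fin N₁ × Fin K) ⊕ Fin s,
      T.prob ((H.lift K s fun _ _ => 1).pull π) ≤ Nf / 3 := by
    calc _ ≤ ∑ _π : Fin n ≃ (Fin N₁ × Fin K) ⊕ Fin s, (1 / 3 : ℝ) :=
          Finset.sum_le_sum fun π _ => hfar π
      _ = Nf / 3 := by
          rw [Finset.sum_const, nsmul_eq_mul, hNf, Nat.card_eq_fintype_card, Finset.card_univ]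
          ring
  have hsum2 : Nf * (2 / 3) ≤ ∑ π : Fin n ≃ (Fin N₁ × Fin K) ⊕ Fin s,
      T.prob ((H.cut K s).pull π) := by
    calc Nf * (2 / 3) = ∑ _π : Fin n ≃ (Fin N₁ × Fin K) ⊕ Fin s, (2 / 3 : ℝ) := by
          rw [Finset.sum_const, nsmul_eq_mul, hNf, Nat.card_eq_fintype_card, Finset.card_univ]
      _ ≤ _ := Finset.sum_le_sum fun π _ => hcut π
  rw [sum_prob] at hsum1 hsum2
  have h4q' : 4 * (q : ℝ) ≤ n := by exact_mod_cast h4q
  have hsub : ((n - 2 * q : ℕ) : ℝ) = (n : ℝ) - 2 * q := by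
    have : 2 * q ≤ n := by omega
    push_cast [Nat.cast_sub this]
    ring
  have hpos2q : 0 < (n : ℝ) - 2 * q := by linarith
  have hpos2qm : 0 < ((n : ℝ) - 2 * q) ^ m := pow_pos hpos2q m
  -- the cut
  have step1 : ∀ i, (Nat.card {π : Fin n ≃ (Fin N₁ × Fin K) ⊕ Fin s //
      (T.alg i).acc ((T.alg i).table ((H.cut K s).pull π) r) = true} : ℝ) ≤
      (Nat.card {π : Fin n ≃ (Fin N₁ × Fin K) ⊕ Fin s // (T.alg i).acc ((T.alg i).table
        ((H.lift K s fun _ _ => finRotate K).pull π) r) = true} : ℝ) + Nf / 12 := by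
    intro i
    have h1 := hCCUT n d (Fin N₁) H K s (T.alg i) r q (T.cost_le i) hKpos
    rw [Fintype.card_fin] at h1
    have h2 : (Nat.card {π : Fin n ≃ (Fin N₁ × Fin K) ⊕ Fin s //
        (T.alg i).acc ((T.alg i).table ((H.cut K s).pull π) r) = true} : ℝ) *
        ((n : ℝ) - 2 * q) ≤
        (Nat.card {π : Fin n ≃ (Fin N₁ × Fin K) ⊕ Fin s // (T.alg i).acc ((T.alg i).table
        ((H.lift K s fun _ _ => finRotate K).pull π) r) = true} : ℝ) * ((n : ℝ) - 2 * q) +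
        2 * (N₁ : ℝ) * (2 * (d : ℝ) + 1) ^ r * (r * q) * Nf := by
      rw [← hsub, hNf]
      exact_mod_cast h1
    have h3 : 2 * (N₁ : ℝ) * (2 * (d : ℝ) + 1) ^ r * (r * q) * Nf ≤
        1 / 12 * ((n : ℝ) - 2 * q) * Nf := mul_le_mul_of_nonneg_right hnum2 hNfpos.le
    refine le_of_mul_le_mul_right ?_ hpos2q
    calc _ ≤ _ := h2
      _ ≤ (Nat.card {π : Fin n ≃ (Fin N₁ × Fin K) ⊕ Fin s // (T.alg i).acc ((T.alg i).table
        ((H.lift K s fun _ _ => finRotate K).pull π) r) = true} : ℝ) * ((n : ℝ) - 2 * q) +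
          1 / 12 * ((n : ℝ) - 2 * q) * Nf := by linarith
      _ = _ := by ring
  -- the chain
  have step2 : ∀ i, (Nat.card {π : Fin n ≃ (Fin N₁ × Fin K) ⊕ Fin s // (T.alg i).acc
      ((T.alg i).table ((H.lift K s fun _ _ => finRotate K).pull π) r) = true} : ℝ) ≤
      (Nat.card {π : Fin n ≃ (Fin N₁ × Fin K) ⊕ Fin s // (T.alg i).acc
      ((T.alg i).table ((H.lift K s fun _ _ => 1).pull π) r) = true} : ℝ) + Nf / 48 := by
    intro i
    have hB : ∀ (σ : Fin N₁ → Fin N₁ → Equiv.Perm (Fin K)) (u₀ v₀ : Fin N₁) (k₁ k₂ : Fin K),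
        H.E u₀ v₀ →
        Nat.card {π : Fin n ≃ (Fin N₁ × Fin K) ⊕ Fin s //
          (T.alg i).acc ((T.alg i).table ((H.lift K s σ).pull π) r) = true}
        ≤ Nat.card {π : Fin n ≃ (Fin N₁ × Fin K) ⊕ Fin s // (T.alg i).acc ((T.alg i).table
          ((H.lift K s (Function.update σ u₀ (Function.update (σ u₀) v₀
            (σ u₀ v₀ * Equiv.swap k₁ k₂)))).pull π) r) = true} + ⌊Nf / (n : ℝ) ^ 4⌋₊ := by
      intro σ u₀ v₀ k₁ k₂ huv
      obtain ⟨β, δ, h1⟩ := hSURG n d (Fin N₁) H K s h (T.alg i) r σ u₀ v₀ k₁ k₂ hno2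
        (fun v p hp => lt_of_le_of_lt h2h (hcyc v p hp)) hh1 huv
      refine h1.trans (Nat.add_le_add_left ?_ _)
      have h2 := hBAD n d (Fin N₁) H K s h g m (T.alg i) r q σ v₀ β δ (T.cost_le i) hcyc
        hhm.ge (by omega)
      apply Nat.le_floor
      rw [le_div_iff₀ (by positivity)]
      refine le_of_mul_le_mul_right ?_ hpos2qm
      have h3 : (2 * (d : ℝ)) ^ h * (4 * (2 * (d : ℝ) + 1) ^ r * (r * q)) ^ m * Nf ≤
        1 / (n : ℝ) ^ 4 * ((n : ℝ) - 2 * q) ^ m * Nf := mul_le_mul_of_nonneg_right hnum1 hNfpos.le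
      have h4 := (Nat.cast_le (α := ℝ)).2 h2
      push_cast [hsub] at h4
      rw [← hNf] at h4
      have h5 := h4.trans h3
      have h6 := mul_le_mul_of_nonneg_right h5 (by positivity : 0 ≤ (n : ℝ) ^ 4)
      calc _ = _ := by ring
        _ ≤ _ := h6
        _ = Nf * ((n : ℝ) - 2 * q) ^ m := by field_simp
    have h1 := hCHAIN n d (Fin N₁) H K s ⌊Nf / (n : ℝ) ^ 4⌋₊ (T.alg i) r hB
      (fun _ _ => finRotate K) (fun _ _ => 1)
    rw [Fintype.card_fin] at h1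
    have h2 := (Nat.cast_le (α := ℝ)).2 h1
    push_cast at h2
    refine h2.trans (add_le_add_right ?_ _)
    have h3 : (⌊Nf / (n : ℝ) ^ 4⌋₊ : ℝ) ≤ Nf / (n : ℝ) ^ 4 := Nat.floor_le (by positivity)
    have hN1n : (N₁ : ℝ) ≤ n := by
      have : N₁ ≤ n := by omega
      exact_mod_cast this
    have hKn : (K : ℝ) ≤ n := by
      have : K ≤ n := Nat.div_le_self _ _
      exact_mod_cast this
    have h4 : (N₁ : ℝ) ^ 2 * K ≤ (n : ℝ) ^ 2 * n :=
      mul_le_mul (pow_le_pow_left₀ (by positivity) hN1n 2) hKn (by positivity) (by positivity)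
    calc (N₁ : ℝ) ^ 2 * K * (⌊Nf / (n : ℝ) ^ 4⌋₊ : ℝ) ≤ ((n : ℝ) ^ 2 * n) * (Nf / (n : ℝ) ^ 4) :=
          mul_le_mul h4 h3 (by positivity) (by positivity)
      _ = Nf / n := by field_simp
      _ ≤ Nf / 48 := div_le_div_of_nonneg_left hNfpos.le (by norm_num) hn48'
  have hA := weighted_le T.w T.w_nonneg T.w_sum _ _ _ step1
  have hB := weighted_le T.w T.w_nonneg T.w_sum _ _ _ step2
  linarith

end Pool.Agent.AcyTest
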