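import Pool.Agent.AcyTest.Targets

/-!
# MP_08c6cd_lc: HIT (disjoint sets are rarely all hit by fresh labels)
-/

namespace Pool.Agent.AcyTest

namespace HIT

open Finset

/-! ### Slots -/

/-- the `j`-th element of a set of labels -/
def slot {n : ℕ} (F : Finset (Fin n)) (j : ℕ) : Option (Fin n) := (F.sort (· ≤ ·))[j]?

theorem slot_mem {n : ℕ} {F : Finset (Fin n)} {j : ℕ} {x : Fin n} (h : slot F j = some x) :
    x ∈ F := by
  rw [slot] at h
  have := List.mem_of_getElem? h
  rwa [Finset.mem_sort] at this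

theorem exists_slot {n : ℕ} {F : Finset (Fin n)} {x : Fin n} (h : x ∈ F) :
    ∃ j < F.card, slot F j = some x := by
  have h1 : x ∈ F.sort (· ≤ ·) := by rwa [Finset.mem_sort]
  obtain ⟨j, hj, hx⟩ := List.mem_iff_getElem.mp h1
  rw [Finset.length_sort] at hj
  refine ⟨j, hj, ?_⟩
  rw [slot, List.getElem?_eq_some_iff]
  exact ⟨by rwa [Finset.length_sort], hx⟩

/-! ### Sizes -/

section sizes
variable {V : Type} [DecidableEq V] {d : ℕ}

theorem card_qs_le (A : RAlg V d) (G : DG V d) {k r : ℕ} (h : k < r) :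
    (A.qs G k).card ≤ A.cost G r := by
  unfold RAlg.cost RAlg.qs
  exact Finset.single_le_sum (f := fun k => (A.ask k (A.table G k)).card)
    (fun _ _ => Nat.zero_le _) (Finset.mem_range.2 h)

theorem card_fresh_le (A : RAlg V d) (G : DG V d) {k r : ℕ} (h : k < r) :
    (A.fresh G k).card ≤ A.cost G r :=
  (Finset.card_le_card Finset.sdiff_subset).trans
    (Finset.card_image_le.trans (card_qs_le A G h))

theorem cost_mono (A : RAlg V d) (G : DG V d) {k r : ℕ} (h : k ≤ r) : A.cost G k ≤ A.cost G r := by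
  unfold RAlg.cost
  exact Finset.sum_le_sum_of_subset (Finset.range_mono h)

theorem fresh_sub (A : RAlg V d) (G : DG V d) {j k : ℕ} (h : j ≤ k) :
    A.fresh G j ⊆ A.known G k ∪ A.fresh G k := by
  rcases h.lt_or_eq with h | h
  · intro x hx
    apply Finset.mem_union_left
    unfold RAlg.known
    rw [Finset.mem_biUnion]
    exact ⟨j, Finset.mem_range.2 h, Finset.mem_union_left _ (Finset.mem_sdiff.1 hx).1⟩
  · rw [h]
    exact Finset.subset_union_right

end sizes

/-! ### Exchanging a fresh label -/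

section swap
variable {n d : ℕ} {W : Type} [DecidableEq W]

/-- seen labels and fresh labels of round `k` -/
def KK (L : DG W d) (A : RAlg (Fin n) d) (π : Fin n ≃ W) (k : ℕ) : Finset (Fin n) :=
  A.known (L.pull π) k ∪ A.fresh (L.pull π) k

theorem swap_fix {π : Fin n ≃ W} {K : Finset (Fin n)} {y v : Fin n} {z : W}
    (hz : z ∉ K.image π) (hv : v ∈ K) (hne : v ≠ y) :
    Equiv.swap (π y) z (π v) = π v := by
  apply Equiv.swap_apply_of_ne_of_ne
  · exact fun h => hne (π.injective h)
  · intro h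
    exact hz (Finset.mem_image.2 ⟨v, hv, h⟩)

theorem ans_swap (L : DG W d) (A : RAlg (Fin n) d) {π : Fin n ≃ W} {k : ℕ} {y : Fin n} {z : W}
    (hy : y ∈ A.fresh (L.pull π) k) (hz : z ∉ (KK L A π k).image π) :
    ∀ j < k, ∀ x ∈ A.qs (L.pull π) j,
      (L.pull (π.trans (Equiv.swap (π y) z))).ans x = (L.pull π).ans x := by
  rintro j hj ⟨b, v, i⟩ hx
  have hyk : y ∉ A.known (L.pull π) k := (Finset.mem_sdiff.1 hy).2
  have hvk : v ∈ A.known (L.pull π) k := by
    unfold RAlg.known
    rw [Finset.mem_biUnion]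
    refine ⟨j, Finset.mem_range.2 hj, Finset.mem_union_left _ ?_⟩
    unfold RAlg.lab
    exact Finset.mem_image.2 ⟨_, hx, rfl⟩
  have hv : Equiv.swap (π y) z (π v) = π v :=
    swap_fix hz (Finset.mem_union_left _ hvk) (fun h => hyk (h ▸ hvk))
  have hw : ∀ w, (L.pull π).ans (b, v, i) = some w →
      Equiv.swap (π y) z (π w) = π w := by
    intro w hw
    have hwk : w ∈ A.known (L.pull π) k := by
      unfold RAlg.known
      rw [Finset.mem_biUnion]
      refine ⟨j, Finset.mem_range.2 hj, Finset.mem_union_right _ ?_⟩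
      rw [Finset.mem_biUnion]
      refine ⟨_, hx, ?_⟩
      rw [hw]
      simp
    exact swap_fix hz (Finset.mem_union_left _ hwk) (fun h => hyk (h ▸ hwk))
  have key : ∀ o : Option W, (∀ w, o.map π.symm = some w → Equiv.swap (π y) z (π w) = π w) →
      o.map (π.trans (Equiv.swap (π y) z)).symm = o.map π.symm := by
    intro o ho
    cases o with
    | none => rfl
    | some w' =>
      have h1 := ho (π.symm w') rfl
      simp only [Equiv.apply_symm_apply] at h1
      simp only [Option.map_some, Option.some.injEq]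
      rw [Equiv.symm_trans_apply, Equiv.symm_swap, h1]
  cases b with
  | true =>
    have h1 : (L.pull (π.trans (Equiv.swap (π y) z))).ans (true, v, i) =
        (L.out (Equiv.swap (π y) z (π v)) i).map (π.trans (Equiv.swap (π y) z)).symm := rfl
    have h2 : (L.pull π).ans (true, v, i) = (L.out (π v) i).map π.symm := rfl
    rw [h1, hv, h2]
    rw [h2] at hw
    exact key _ hw
  | false =>
    have h1 : (L.pull (π.trans (Equiv.swap (π y) z))).ans (false, v, i) =
        (L.inn (Equiv.swap (π y) z (π v)) i).map (π.trans (Equiv.swap (π y) z)).symm := rfl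
    have h2 : (L.pull π).ans (false, v, i) = (L.inn (π v) i).map π.symm := rfl
    rw [h1, hv, h2]
    rw [h2] at hw
    exact key _ hw

theorem qs_eq (hRUN : T_RUN) (A : RAlg (Fin n) d) {G G' : DG (Fin n) d} {k : ℕ}
    (h : ∀ j < k, ∀ x ∈ A.qs G j, G'.ans x = G.ans x) : ∀ j ≤ k, A.qs G' j = A.qs G j := by
  intro j hj
  unfold RAlg.qs
  rw [(hRUN (Fin n) d A G).1 G' k h j hj]

theorem fresh_eq (hRUN : T_RUN) (A : RAlg (Fin n) d) {G G' : DG (Fin n) d} {k : ℕ}
    (h : ∀ j < k, ∀ x ∈ A.qs G j, G'.ans x = G.ans x) :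
    ∀ j ≤ k, A.fresh G' j = A.fresh G j := by
  intro j hj
  have hq := qs_eq hRUN A h
  have hknown : A.known G' j = A.known G j := by
    unfold RAlg.known
    apply Finset.biUnion_congr rfl
    intro i hi
    have hi' := Finset.mem_range.1 hi
    have h1 := hq i (by omega)
    unfold RAlg.lab
    rw [h1]
    congr 1
    apply Finset.biUnion_congr rfl
    intro x hx
    rw [h i (by omega) x hx]
  unfold RAlg.fresh
  rw [hknown]
  unfold RAlg.lab
  rw [hq j hj]

end swap

/-! ### The main claim -/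

section claim
variable {n d : ℕ} {W : Type} [Fintype W] [DecidableEq W]

/-- the labellings with prescribed vertices in the given slots -/
def Ev (L : DG W d) (A : RAlg (Fin n) d) {m : ℕ} (c : Fin m → ℕ × ℕ) (u : Fin m → W)
    (I : Finset (Fin m)) (π : Fin n ≃ W) : Prop :=
  ∀ i ∈ I, ∃ x, slot (A.fresh (L.pull π) (c i).1) (c i).2 = some x ∧ π x = u i

open Classical in
theorem step (hRUN : T_RUN) (L : DG W d) (A : RAlg (Fin n) d) {r q m : ℕ}
    (hq : ∀ G, A.cost G r ≤ q) (c : Fin m → ℕ × ℕ) (u : Fin m → W) (I : Finset (Fin m))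
    (hr : ∀ i ∈ I, (c i).1 < r) (hu : ∀ i ∈ I, ∀ j ∈ I, u i = u j → i = j) {i₀ : Fin m}
    (h0 : i₀ ∈ I) (hmax : ∀ i ∈ I, (c i).1 ≤ (c i₀).1) :
    (univ.filter (Ev L A c u I)).card * (n - 2 * q) ≤
      (univ.filter (Ev L A c u (I.erase i₀))).card := by
  set k := (c i₀).1 with hk
  let 𝒵 : (Fin n ≃ W) → Finset W := fun π => univ \ (KK L A π k).image π
  have hcard : ∀ π : Fin n ≃ W, n - 2 * q ≤ (𝒵 π).card := by
    intro π
    have h1 : Fintype.card W = n := by rw [← Fintype.card_congr π, Fintype.card_fin]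
    have h2 : ((KK L A π k).image π).card ≤ 2 * q := by
      refine Finset.card_image_le.trans ?_
      refine ((hRUN (Fin n) d A (L.pull π)).2.2 k).trans ?_
      have h3 := cost_mono A (L.pull π) (hr i₀ h0)
      have h4 := hq (L.pull π)
      have h5 : A.cost (L.pull π) (k + 1) ≤ A.cost (L.pull π) r := h3
      omega
    change n - 2 * q ≤ (univ \ (KK L A π k).image π).card
    rw [Finset.card_sdiff_of_subset (Finset.subset_univ _), Finset.card_univ, h1]
    omega
  -- facts about the exchange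
  have hlab : ∀ π ∈ univ.filter (Ev L A c u I), ∃ y,
      slot (A.fresh (L.pull π) k) (c i₀).2 = some y ∧ π y = u i₀ := by
    intro π hπ
    exact (Finset.mem_filter.1 hπ).2 i₀ h0
  have hans : ∀ π : Fin n ≃ W, ∀ y, slot (A.fresh (L.pull π) k) (c i₀).2 = some y → π y = u i₀ →
      ∀ z ∈ 𝒵 π, ∀ j < k, ∀ x ∈ A.qs (L.pull π) j,
        (L.pull (π.trans (Equiv.swap (u i₀) z))).ans x = (L.pull π).ans x := by
    intro π y hy hyu z hz
    rw [← hyu]
    exact ans_swap L A (slot_mem hy) (Finset.mem_sdiff.1 hz).2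
  have hle : ((univ.filter (Ev L A c u I)).sigma 𝒵).card ≤
      (univ.filter (Ev L A c u (I.erase i₀))).card := by
    apply Finset.card_le_card_of_injOn
      (fun t : (Σ _ : Fin n ≃ W, W) => t.1.trans (Equiv.swap (u i₀) t.2))
    · rintro ⟨π, z⟩ ht
      have ht' := Finset.mem_sigma.1 (Finset.mem_coe.1 ht)
      obtain ⟨hπ, hz⟩ := ht'
      obtain ⟨y, hy, hyu⟩ := hlab π hπ
      have ha := hans π y hy hyu z hz
      rw [Finset.mem_coe, Finset.mem_filter]
      refine ⟨Finset.mem_univ _, ?_⟩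
      intro i hi
      have hiI := Finset.mem_of_mem_erase hi
      have hine := Finset.ne_of_mem_erase hi
      obtain ⟨x, hx, hxu⟩ := (Finset.mem_filter.1 hπ).2 i hiI
      have hfe := fresh_eq hRUN A ha (c i).1 (hmax i hiI)
      refine ⟨x, ?_, ?_⟩
      · change slot (A.fresh (L.pull (π.trans (Equiv.swap (u i₀) z))) (c i).1) (c i).2 = some x
        rw [hfe]; exact hx
      · have hxK : x ∈ KK L A π k := fresh_sub A (L.pull π) (hmax i hiI) (slot_mem hx)
        have hxy : x ≠ y := by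
          intro h
          rw [h, hyu] at hxu
          exact hine (hu i hiI i₀ h0 hxu.symm)
        have := swap_fix (z := z) (Finset.mem_sdiff.1 hz).2 hxK hxy
        rw [hyu] at this
        change Equiv.swap (u i₀) z (π x) = u i
        rw [this, hxu]
    · rintro ⟨π₁, z₁⟩ h₁ ⟨π₂, z₂⟩ h₂ heq
      obtain ⟨hπ₁, hz₁⟩ := Finset.mem_sigma.1 (Finset.mem_coe.1 h₁)
      obtain ⟨hπ₂, hz₂⟩ := Finset.mem_sigma.1 (Finset.mem_coe.1 h₂)
      simp only at heq
      obtain ⟨y₁, hy₁, hyu₁⟩ := hlab π₁ hπ₁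
      obtain ⟨y₂, hy₂, hyu₂⟩ := hlab π₂ hπ₂
      have f₁ := fresh_eq hRUN A (hans π₁ y₁ hy₁ hyu₁ z₁ hz₁) k le_rfl
      have f₂ := fresh_eq hRUN A (hans π₂ y₂ hy₂ hyu₂ z₂ hz₂) k le_rfl
      simp only at f₁ f₂ hz₁ hz₂
      rw [heq, f₂] at f₁
      rw [← f₁, hy₂] at hy₁
      have hyy : y₂ = y₁ := Option.some.inj hy₁
      have e₁ : (π₁.trans (Equiv.swap (u i₀) z₁)) y₁ = z₁ := by
        rw [Equiv.trans_apply, hyu₁, Equiv.swap_apply_left]
      have e₂ : (π₂.trans (Equiv.swap (u i₀) z₂)) y₂ = z₂ := by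
        rw [Equiv.trans_apply, hyu₂, Equiv.swap_apply_left]
      have hzz : z₁ = z₂ := by rw [← e₁, ← e₂, heq, hyy]
      subst hzz
      have hππ : π₁ = π₂ := by
        have := congrArg (fun e : Fin n ≃ W => e.trans (Equiv.swap (u i₀) z₁)) heq
        simp only [Equiv.trans_assoc] at this
        have hsw : (Equiv.swap (u i₀) z₁).trans (Equiv.swap (u i₀) z₁) = Equiv.refl W := by
          ext w
          simp
        rwa [hsw, Equiv.trans_refl, Equiv.trans_refl] at this
      rw [hππ]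
  refine le_trans ?_ hle
  rw [Finset.card_sigma, ← smul_eq_mul, ← Finset.sum_const]
  exact Finset.sum_le_sum fun π _ => hcard π

open Classical in
theorem claim (hRUN : T_RUN) (L : DG W d) (A : RAlg (Fin n) d) {r q m : ℕ}
    (hq : ∀ G, A.cost G r ≤ q) (c : Fin m → ℕ × ℕ) (u : Fin m → W) :
    ∀ (N : ℕ) (I : Finset (Fin m)), I.card = N → (∀ i ∈ I, (c i).1 < r) →
      (∀ i ∈ I, ∀ j ∈ I, u i = u j → i = j) →
      (univ.filter (Ev L A c u I)).card * (n - 2 * q) ^ N ≤ Fintype.card (Fin n ≃ W) := by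
  intro N
  induction N with
  | zero =>
    intro I _ _ _
    rw [pow_zero, mul_one]
    exact Finset.card_le_univ _
  | succ N ih =>
    intro I hI hr hu
    have hne : I.Nonempty := by
      rw [← Finset.card_pos]; omega
    obtain ⟨i₀, h0, hmax⟩ := Finset.exists_max_image I (fun i => (c i).1) hne
    have h1 := step hRUN L A hq c u I hr hu h0 hmax
    have h2 := ih (I.erase i₀) (by rw [Finset.card_erase_of_mem h0, hI]; rfl)
      (fun i hi => hr i (Finset.mem_of_mem_erase hi))
      (fun i hi j hj => hu i (Finset.mem_of_mem_erase hi) j (Finset.mem_of_mem_erase hj))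
    calc (univ.filter (Ev L A c u I)).card * (n - 2 * q) ^ (N + 1)
        = ((univ.filter (Ev L A c u I)).card * (n - 2 * q)) * (n - 2 * q) ^ N := by ring
      _ ≤ (univ.filter (Ev L A c u (I.erase i₀))).card * (n - 2 * q) ^ N :=
          Nat.mul_le_mul_right _ h1
      _ ≤ _ := h2

end claim

end HIT

open HIT Finset in
theorem tHIT (hRUN : T_RUN) : T_HIT := by
  classical
  intro n d W _ _ L A r q m s hq U hdis hs
  have hcover : (univ.filter fun π : Fin n ≃ W =>
      ∀ i, ∃ k < r, ∃ x ∈ A.fresh (L.pull π) k, π x ∈ U i) ⊆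
      ((univ : Finset (Fin m → Fin r × Fin q)) ×ˢ Fintype.piFinset U).biUnion fun t =>
        univ.filter (Ev L A (fun i => (((t.1 i).1 : ℕ), ((t.1 i).2 : ℕ))) t.2 univ) := by
    intro π hπ
    have h := (Finset.mem_filter.1 hπ).2
    choose k hk x hx hxU using h
    have hsl : ∀ i, ∃ j < (A.fresh (L.pull π) (k i)).card,
        slot (A.fresh (L.pull π) (k i)) j = some (x i) := fun i => exists_slot (hx i)
    choose j hj hjs using hsl
    have hjq : ∀ i, j i < q := fun i =>
      lt_of_lt_of_le (hj i) ((card_fresh_le A (L.pull π) (hk i)).trans (hq _))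
    rw [Finset.mem_biUnion]
    refine ⟨(fun i => (⟨k i, hk i⟩, ⟨j i, hjq i⟩), fun i => π (x i)), ?_, ?_⟩
    · rw [Finset.mem_product]
      exact ⟨Finset.mem_univ _, Fintype.mem_piFinset.2 hxU⟩
    · rw [Finset.mem_filter]
      exact ⟨Finset.mem_univ _, fun i _ => ⟨x i, hjs i, rfl⟩⟩
  have hE : Nat.card {π : Fin n ≃ W // ∀ i, ∃ k < r, ∃ x ∈ A.fresh (L.pull π) k, π x ∈ U i} =
      (univ.filter fun π : Fin n ≃ W =>
        ∀ i, ∃ k < r, ∃ x ∈ A.fresh (L.pull π) k, π x ∈ U i).card :=
    Nat.subtype_card _ (fun π => by simp)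
  rw [hE, Nat.card_eq_fintype_card]
  calc (univ.filter fun π : Fin n ≃ W =>
        ∀ i, ∃ k < r, ∃ x ∈ A.fresh (L.pull π) k, π x ∈ U i).card * (n - 2 * q) ^ m
      ≤ (∑ t ∈ (univ : Finset (Fin m → Fin r × Fin q)) ×ˢ Fintype.piFinset U,
          (univ.filter (Ev L A (fun i => (((t.1 i).1 : ℕ), ((t.1 i).2 : ℕ))) t.2 univ)).card) *
            (n - 2 * q) ^ m :=
        Nat.mul_le_mul_right _ ((Finset.card_le_card hcover).trans Finset.card_biUnion_le)
    _ = ∑ t ∈ (univ : Finset (Fin m → Fin r × Fin q)) ×ˢ Fintype.piFinset U,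
          (univ.filter (Ev L A (fun i => (((t.1 i).1 : ℕ), ((t.1 i).2 : ℕ))) t.2 univ)).card *
            (n - 2 * q) ^ m := Finset.sum_mul _ _ _
    _ ≤ ∑ _t ∈ (univ : Finset (Fin m → Fin r × Fin q)) ×ˢ Fintype.piFinset U,
          Fintype.card (Fin n ≃ W) := by
        apply Finset.sum_le_sum
        intro t ht
        have htU := Fintype.mem_piFinset.1 (Finset.mem_product.1 ht).2
        refine claim hRUN L A hq _ t.2 m univ (by simp) (fun i _ => (t.1 i).1.2) ?_
        intro i _ j _ hij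
        by_contra hne
        have h1 := htU i
        have h2 := htU j
        rw [hij] at h1
        exact (Finset.disjoint_left.1 (hdis i j hne)) h1 h2
    _ = (r * q) ^ m * (∏ i, (U i).card) * Fintype.card (Fin n ≃ W) := by
        rw [Finset.sum_const, smul_eq_mul, Finset.card_product, Finset.card_univ,
          Fintype.card_piFinset]
        simp
    _ ≤ (r * q) ^ m * s ^ m * Fintype.card (Fin n ≃ W) := by
        apply Nat.mul_le_mul_right
        apply Nat.mul_le_mul_left
        calc ∏ i, (U i).card ≤ ∏ _i : Fin m, s := Finset.prod_le_prod' fun i _ => hs i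
          _ = s ^ m := by simp
    _ = (s * (r * q)) ^ m * Fintype.card (Fin n ≃ W) := by
        rw [mul_pow s]; ring

end Pool.Agent.AcyTest
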