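import Pool.Agent.AcyTest.Targets

/-!
# Job ACY-LAY: layered digraphs (LFAS, CACY, CCUT)
-/

namespace Pool.Agent.AcyTest

namespace LAY

/-- The layer of a vertex. -/
def lay {U : Type} {K s : ℕ} : (U × Fin K) ⊕ Fin s → ℕ
  | .inl p => p.2.1
  | .inr _ => 0

theorem lay_lt {U : Type} {d K s : ℕ} (H : DG U d) {x y : (U × Fin K) ⊕ Fin s}
    (h : (H.cut K s).E x y) : lay x < lay y := by
  obtain ⟨i, hi⟩ := h
  rcases x with ⟨u, k⟩ | a
  · by_cases hk : k.1 + 1 < K
    · simp only [DG.cut, hk, dite_true, Option.map_eq_some_iff] at hi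
      obtain ⟨v, -, rfl⟩ := hi
      simp [lay]
    · simp [DG.cut, hk] at hi
  · simp [DG.cut] at hi

theorem out_eq {U : Type} {d n s : ℕ} (H : DG U d) (w : (U × Fin (n + 1)) ⊕ Fin s)
    (hw : ∀ u, w ≠ .inl (u, ⟨n, Nat.lt_succ_self n⟩)) (i : Fin d) :
    (H.lift (n + 1) s fun _ _ => finRotate (n + 1)).out w i = (H.cut (n + 1) s).out w i := by
  rcases w with ⟨u, k⟩ | a
  · have hk : k.1 ≠ n := by
      intro h
      exact hw u (by congr; exact Fin.ext h)
    have hk2 : k.1 < n := by have := k.2; omega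
    have hk3 : k.1 + 1 < n + 1 := by omega
    have h1 : finRotate (n + 1) k = ⟨k.1 + 1, hk3⟩ := finRotate_of_lt hk2
    simp only [DG.lift, DG.cut, h1, hk3, dite_true]
  · simp [DG.lift, DG.cut]

theorem inn_eq {U : Type} {d n s : ℕ} (H : DG U d) (w : (U × Fin (n + 1)) ⊕ Fin s)
    (hw : ∀ u, w ≠ .inl (u, ⟨0, Nat.succ_pos n⟩)) (i : Fin d) :
    (H.lift (n + 1) s fun _ _ => finRotate (n + 1)).inn w i = (H.cut (n + 1) s).inn w i := by
  rcases w with ⟨u, k⟩ | a
  · have hk : k.1 ≠ 0 := by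
      intro h
      exact hw u (by congr; exact Fin.ext h)
    have hk2 : 0 < k.1 := by omega
    have hk3 : k.1 - 1 < n := by have := k.2; omega
    have h1 : finRotate (n + 1) ⟨k.1 - 1, (Nat.sub_le _ _).trans_lt k.2⟩ = k := by
      have := finRotate_of_lt hk3
      refine this.trans (Fin.ext ?_)
      show k.1 - 1 + 1 = k.1
      omega
    have h2 : (finRotate (n + 1)).symm k = ⟨k.1 - 1, (Nat.sub_le _ _).trans_lt k.2⟩ := by
      rw [Equiv.symm_apply_eq]
      exact h1.symm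
    simp only [DG.lift, DG.cut, h2, hk2, if_true]
  · simp [DG.lift, DG.cut]

end LAY

open LAY

theorem tLFAS : T_LFAS := by
  intro U _ d K s H x hx F hF
  have hk : ∀ k : Fin K, x ≤ (Set.ncard {p : U × U | H.E p.1 p.2 ∧
      ¬ F (.inl (p.1, k)) (.inl (p.2, k))} : ℝ) := by
    intro k
    refine hx (fun u v => F (.inl (u, k)) (.inl (v, k))) ?_
    intro v hv
    exact hF (.inl (v, k)) (Relation.TransGen.lift (fun u : U => (Sum.inl (u, k) :
      (U × Fin K) ⊕ Fin s)) (fun a b h => h) _ _ hv)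
  have h1 : (∑ k : Fin K, Set.ncard {p : U × U | H.E p.1 p.2 ∧
      ¬ F (.inl (p.1, k)) (.inl (p.2, k))}) ≤
      Set.ncard {p : ((U × Fin K) ⊕ Fin s) × ((U × Fin K) ⊕ Fin s) |
        (H.lift K s fun _ _ => 1).E p.1 p.2 ∧ ¬ F p.1 p.2} := by
    have h2 : ∀ k : Fin K, Set.ncard {p : U × U | H.E p.1 p.2 ∧
        ¬ F (.inl (p.1, k)) (.inl (p.2, k))} = Nat.card {p : U × U // H.E p.1 p.2 ∧
        ¬ F (.inl (p.1, k)) (.inl (p.2, k))} := fun k => rfl
    rw [Finset.sum_congr rfl fun k _ => h2 k, ← Nat.card_sigma]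
    rw [← Nat.card_coe_set_eq]
    refine Nat.card_le_card_of_injective (fun z => ⟨(.inl (z.2.1.1, z.1), .inl (z.2.1.2, z.1)),
      ?_, z.2.2.2⟩) ?_
    · obtain ⟨k, ⟨⟨u, v⟩, ⟨i, hi⟩, h⟩⟩ := z
      refine ⟨i, ?_⟩
      show ((H.out u i).map fun v => (Sum.inl (v, (1 : Equiv.Perm (Fin K)) k) :
        (U × Fin K) ⊕ Fin s)) = _
      rw [hi]
      rfl
    · rintro ⟨k, ⟨⟨u, v⟩, h⟩⟩ ⟨k', ⟨⟨u', v'⟩, h'⟩⟩ he
      simp only [Subtype.mk.injEq, Prod.mk.injEq, Sum.inl.injEq] at he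
      obtain ⟨⟨rfl, rfl⟩, rfl, -⟩ := he
      rfl
  calc (K : ℝ) * x = ∑ _k : Fin K, x := by simp
    _ ≤ ∑ k : Fin K, (Set.ncard {p : U × U | H.E p.1 p.2 ∧
      ¬ F (.inl (p.1, k)) (.inl (p.2, k))} : ℝ) := Finset.sum_le_sum fun k _ => hk k
    _ = ((∑ k : Fin K, Set.ncard {p : U × U | H.E p.1 p.2 ∧
      ¬ F (.inl (p.1, k)) (.inl (p.2, k))} : ℕ) : ℝ) := by push_cast; rfl
    _ ≤ _ := by exact_mod_cast h1

theorem tCACY : T_CACY := by
  intro U d K s H v hv
  have h : ∀ x y, Relation.TransGen (H.cut K s).E x y → lay x < lay y := by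
    intro x y hxy
    induction hxy with
    | single h => exact lay_lt H h
    | tail _ h ih => exact ih.trans (lay_lt H h)
  exact lt_irrefl _ (h v v hv)

theorem tCCUT (hSEED : T_SEED) (hRUN : T_RUN) : T_CCUT := by
  intro n d U _ _ H K s A r q hq hK
  obtain ⟨N, rfl⟩ : ∃ N, K = N + 1 := ⟨K - 1, by omega⟩
  classical
  let S : Fin 1 → Finset ((U × Fin (N + 1)) ⊕ Fin s) := fun _ =>
    (Finset.univ.image fun u => .inl (u, ⟨0, Nat.succ_pos N⟩)) ∪
      (Finset.univ.image fun u => .inl (u, ⟨N, Nat.lt_succ_self N⟩))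
  have hS : ∀ i, (S i).card ≤ 2 * Fintype.card U := by
    intro i
    refine (Finset.card_union_le _ _).trans ?_
    have h1 : (Finset.univ.image fun u : U => (Sum.inl (u, ⟨0, Nat.succ_pos N⟩) :
      (U × Fin (N + 1)) ⊕ Fin s)).card ≤ Fintype.card U := Finset.card_image_le
    have h2 : (Finset.univ.image fun u : U => (Sum.inl (u, ⟨N, Nat.lt_succ_self N⟩) :
      (U × Fin (N + 1)) ⊕ Fin s)).card ≤ Fintype.card U := Finset.card_image_le
    omega
  have key := hSEED n d _ (H.cut (N + 1) s) A r q 1 (2 * Fintype.card U) hq S hS (by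
    intro i j hij
    exact absurd (Subsingleton.elim i j) hij)
  rw [pow_one, pow_one] at key
  set P1 : Set (Fin n ≃ (U × Fin (N + 1)) ⊕ Fin s) :=
    {π | A.acc (A.table ((H.cut (N + 1) s).pull π) r) = true}
  set P2 : Set (Fin n ≃ (U × Fin (N + 1)) ⊕ Fin s) :=
    {π | A.acc (A.table ((H.lift (N + 1) s fun _ _ => finRotate (N + 1)).pull π) r) = true}
  set P3 : Set (Fin n ≃ (U × Fin (N + 1)) ⊕ Fin s) :=
    {π | ∀ i, ∃ x ∈ A.labs ((H.cut (N + 1) s).pull π) r, π x ∈ S i}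
  have hsub : P1 ⊆ P2 ∪ P3 := by
    intro π hπ
    by_cases h3 : π ∈ P3
    · exact Or.inr h3
    · refine Or.inl ?_
      have h4 : ∀ x ∈ A.labs ((H.cut (N + 1) s).pull π) r, π x ∉ S 0 := by
        intro x hx hxs
        refine h3 fun i => ⟨x, hx, ?_⟩
        rw [Subsingleton.elim i 0]
        exact hxs
      have h5 : ∀ k < r, ∀ x ∈ A.qs ((H.cut (N + 1) s).pull π) k,
          ((H.lift (N + 1) s fun _ _ => finRotate (N + 1)).pull π).ans x =
            ((H.cut (N + 1) s).pull π).ans x := by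
        intro k hk x hx
        have hxl : x.2.1 ∈ A.labs ((H.cut (N + 1) s).pull π) r := by
          rw [RAlg.labs, Finset.mem_biUnion]
          exact ⟨k, Finset.mem_range.2 hk, Finset.mem_image.2 ⟨x, hx, rfl⟩⟩
        have hxS := h4 _ hxl
        simp only [S, Finset.mem_union, Finset.mem_image, Finset.mem_univ, true_and, not_or,
          not_exists] at hxS
        have e1 := out_eq H (π x.2.1) (fun u hu => hxS.2 u hu.symm) x.2.2
        have e2 := inn_eq H (π x.2.1) (fun u hu => hxS.1 u hu.symm) x.2.2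
        simp only [DG.ans, DG.pull, e1, e2]
      have h6 := (hRUN (Fin n) d A ((H.cut (N + 1) s).pull π)).1
        ((H.lift (N + 1) s fun _ _ => finRotate (N + 1)).pull π) r h5 r le_rfl
      show A.acc (A.table ((H.lift (N + 1) s fun _ _ => finRotate (N + 1)).pull π) r) = true
      rw [h6]
      exact hπ
  have hcard : Nat.card P1 ≤ Nat.card P2 + Nat.card P3 := by
    rw [Nat.card_coe_set_eq, Nat.card_coe_set_eq, Nat.card_coe_set_eq]
    exact (Set.ncard_le_ncard hsub (Set.toFinite _)).trans (Set.ncard_union_le _ _)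
  calc Nat.card P1 * (n - 2 * q) ≤ (Nat.card P2 + Nat.card P3) * (n - 2 * q) :=
        Nat.mul_le_mul_right _ hcard
    _ = Nat.card P2 * (n - 2 * q) + Nat.card P3 * (n - 2 * q) := by ring
    _ ≤ _ := Nat.add_le_add_left key _

end Pool.Agent.AcyTest
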