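import Pool.Agent.AcyTest.Targets

/-!
# Job ACY-ONE: one-sided deterministic algorithms rarely reject
-/

namespace Pool.Agent.AcyTest

namespace ONE

variable {W : Type} {d h : ℕ}

/-- The walk from `x` along the out-neighbours with numbers `μ`. -/
def follow (L : DG W d) (x : W) (μ : Fin h → Fin d) : ℕ → W
  | 0 => x
  | i + 1 => if hi : i < h then (L.out (follow L x μ i) (μ ⟨i, hi⟩)).getD (follow L x μ i)
      else follow L x μ i

theorem follow_eq (L : DG W d) (w : ℕ → W) (μ : Fin h → Fin d)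
    (hμ : ∀ i : Fin h, L.out (w i) (μ i) = some (w (i + 1))) :
    ∀ i ≤ h, follow L (w 0) μ i = w i := by
  intro i
  induction i with
  | zero => intro _; rfl
  | succ i ih =>
    intro hi
    have h1 := ih (by omega)
    have h2 : i < h := by omega
    rw [follow, dif_pos h2, h1, hμ ⟨i, h2⟩]
    rfl

/-- The event for a code. -/
def Ev {n : ℕ} (L : DG W d) (A : RAlg (Fin n) d) (r h : ℕ) (w : ℕ → W) (π : Fin n ≃ W) : Prop :=
  (∀ i < h, L.E (w i) (w (i + 1))) ∧ Set.InjOn w (Set.Iic h) ∧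
    ∀ i < h, ∃ z ∈ A.labs (L.pull π) r, π z = w i ∨ π z = w (i + 1)

theorem far_aux {L : DG W d} {w : ℕ → W} {r m g : ℕ} (hAPART : T_APART) (hL : LongCyc L.und g)
    (hm : m * (2 * r + 2) ≤ h) (hg : h + 2 * r ≤ g)
    (hE : ∀ i < h, L.E (w i) (w (i + 1))) (hinj : Set.InjOn w (Set.Iic h))
    {i j : ℕ} (hij : i < j) (hj : j < m) {a b : ℕ}
    (ha : a = i * (2 * r + 2) ∨ a = i * (2 * r + 2) + 1)
    (hb : b = j * (2 * r + 2) ∨ b = j * (2 * r + 2) + 1) (p : L.und.Walk (w a) (w b)) :
    2 * r < p.length := by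
  have hadj : ∀ i < h, L.und.Adj (w i) (w (i + 1)) := by
    intro i hi
    refine ⟨fun he => ?_, Or.inl (hE i hi)⟩
    have := hE i hi
    rw [← he] at this
    exact L.E_irrefl _ this
  have h1 : (i + 1) * (2 * r + 2) ≤ j * (2 * r + 2) := Nat.mul_le_mul_right _ hij
  have h2 : (j + 1) * (2 * r + 2) ≤ m * (2 * r + 2) := Nat.mul_le_mul_right _ hj
  have h3 : (i + 1) * (2 * r + 2) = i * (2 * r + 2) + (2 * r + 2) := by ring
  have h4 : (j + 1) * (2 * r + 2) = j * (2 * r + 2) + (2 * r + 2) := by ring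
  by_contra hcon
  have := hAPART W L.und g h w hL hadj hinj a b (by omega) (by omega) p (by omega)
  omega

theorem ev_le {n : ℕ} [Fintype W] [DecidableEq W] (hSEED : T_SEED) (hAPART : T_APART)
    (L : DG W d) (A : RAlg (Fin n) d) (r q m g : ℕ) (hq : ∀ G, A.cost G r ≤ q)
    (hL : LongCyc L.und g) (hm : m * (2 * r + 2) ≤ h) (hg : h + 2 * r ≤ g) (w : ℕ → W) :
    Nat.card {π : Fin n ≃ W // Ev L A r h w π} * (n - 2 * q) ^ m
      ≤ (2 * (2 * d + 1) ^ r * (r * q)) ^ m * Nat.card (Fin n ≃ W) := by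
  classical
  by_cases hw : (∀ i < h, L.E (w i) (w (i + 1))) ∧ Set.InjOn w (Set.Iic h)
  · obtain ⟨hE, hinj⟩ := hw
    let S : Fin m → Finset W := fun i => {w (i * (2 * r + 2)), w (i * (2 * r + 2) + 1)}
    have key := hSEED n d W L A r q m 2 hq S (fun i => Finset.card_le_two) (by
      intro i j hij x hx y hy p
      simp only [S, Finset.mem_insert, Finset.mem_singleton] at hx hy
      have hx' : ∃ a, (a = i.1 * (2 * r + 2) ∨ a = i.1 * (2 * r + 2) + 1) ∧ x = w a := by
        rcases hx with hx | hx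
        · exact ⟨_, Or.inl rfl, hx⟩
        · exact ⟨_, Or.inr rfl, hx⟩
      have hy' : ∃ b, (b = j.1 * (2 * r + 2) ∨ b = j.1 * (2 * r + 2) + 1) ∧ y = w b := by
        rcases hy with hy | hy
        · exact ⟨_, Or.inl rfl, hy⟩
        · exact ⟨_, Or.inr rfl, hy⟩
      obtain ⟨a, ha, rfl⟩ := hx'
      obtain ⟨b, hb, rfl⟩ := hy'
      have hij' : i.1 ≠ j.1 := fun hh => hij (Fin.ext hh)
      rcases lt_or_gt_of_ne hij' with h1 | h1
      · exact far_aux hAPART hL hm hg hE hinj h1 j.2 ha hb p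
      · have := far_aux hAPART hL hm hg hE hinj h1 i.2 hb ha p.reverse
        rwa [SimpleGraph.Walk.length_reverse] at this)
    refine le_trans (Nat.mul_le_mul_right _ ?_) key
    refine Nat.card_le_card_of_injective
      (fun x : {π : Fin n ≃ W // Ev L A r h w π} =>
        (⟨x.1, fun i => ?_⟩ : {π : Fin n ≃ W // ∀ i, ∃ x ∈ A.labs (L.pull π) r, π x ∈ S i})) ?_
    · obtain ⟨-, -, h3⟩ := x.2
      have h2 : (i.1 + 1) * (2 * r + 2) ≤ m * (2 * r + 2) := Nat.mul_le_mul_right _ i.2
      have h4 : (i.1 + 1) * (2 * r + 2) = i.1 * (2 * r + 2) + (2 * r + 2) := by ring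
      obtain ⟨z, hz, hz'⟩ := h3 (i.1 * (2 * r + 2)) (by omega)
      refine ⟨z, hz, ?_⟩
      simp only [S, Finset.mem_insert, Finset.mem_singleton]
      exact hz'
    · intro x y hxy
      simp only [Subtype.mk.injEq] at hxy
      exact Subtype.ext hxy
  · have : IsEmpty {π : Fin n ≃ W // Ev L A r h w π} := ⟨fun x => hw ⟨x.2.1, x.2.2.1⟩⟩
    rw [Nat.card_of_isEmpty, zero_mul]
    exact Nat.zero_le _

end ONE

open ONE in
theorem tONE (hMINUS : T_MINUS) (hRUN : T_RUN) (hSEED : T_SEED) (hDCYC : T_DCYC)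
    (hAPART : T_APART) : T_ONE := by
  intro n d W _ _ L A r q m g h hq hacc h2c hL hm hg hh
  classical
  -- each rejected labelling has a code
  have hcode : ∀ π : Fin n ≃ W, A.acc (A.table (L.pull π) r) = false →
      ∃ c : W × (Fin h → Fin d), Ev L A r h (follow L c.1 c.2) π := by
    intro π hπ
    set P := L.pull π with hP
    set Z : Finset (Fin n) := A.labs P r with hZ
    obtain ⟨P', hE', hlist⟩ := hMINUS (Fin n) d P (Z : Set (Fin n))
    have hans : ∀ k < r, ∀ x ∈ A.qs P k, P'.ans x = P.ans x := by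
      intro k hk x hx
      have hxZ : x.2.1 ∈ Z := by
        rw [hZ, RAlg.labs, Finset.mem_biUnion]
        exact ⟨k, Finset.mem_range.2 hk, Finset.mem_image_of_mem _ hx⟩
      obtain ⟨h1, h2⟩ := hlist x.2.1 (Finset.mem_coe.2 hxZ)
      rw [DG.ans, DG.ans, h1, h2]
    have htab : A.table P' r = A.table P r := (hRUN (Fin n) d A P).1 P' r hans r le_rfl
    have hnac : ¬ AcyR P'.E := by
      intro hac
      have := hacc P' hac
      rw [htab, hπ] at this
      exact absurd this (by decide)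
    have hEL : ∀ u v, P'.E u v → L.E (π u) (π v) := fun u v huv =>
      (L.pull_E π u v).1 ((hE' u v).1 huv).1
    have h2c' : ∀ u v, P'.E u v → ¬ P'.E v u := fun u v huv hvu =>
      h2c _ _ (hEL _ _ huv) (hEL _ _ hvu)
    have hLC : LongCyc (undR P'.E) g := by
      intro v p hp
      let f : undR P'.E →g L.und :=
        ⟨π, fun {a b} hab => ⟨fun he => hab.1 (π.injective he),
          hab.2.imp (hEL _ _) (hEL _ _)⟩⟩
      have := hL (f v) (p.map f) (hp.map π.injective)
      rwa [SimpleGraph.Walk.length_map] at this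
    obtain ⟨w, hw1, hw2⟩ := hDCYC (Fin n) P'.E g h hnac h2c' hLC (by omega)
    have hμ : ∀ i : Fin h, ∃ j : Fin d, L.out (π (w i)) j = some (π (w (i + 1))) :=
      fun i => hEL _ _ (hw1 i i.2)
    choose μ hμ using hμ
    have hf : ∀ i ≤ h, follow L (π (w 0)) μ i = π (w i) := follow_eq L (fun i => π (w i)) μ hμ
    refine ⟨(π (w 0), μ), fun i hi => ?_, ?_, fun i hi => ?_⟩
    · change L.E (follow L (π (w 0)) μ i) (follow L (π (w 0)) μ (i + 1))
      rw [hf i (by omega), hf (i + 1) (by omega)]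
      exact hEL _ _ (hw1 i hi)
    · intro a ha b hb hab
      change follow L (π (w 0)) μ a = follow L (π (w 0)) μ b at hab
      rw [hf a ha, hf b hb] at hab
      exact hw2 ha hb (π.injective hab)
    · change ∃ z ∈ A.labs (L.pull π) r, π z = follow L (π (w 0)) μ i ∨
        π z = follow L (π (w 0)) μ (i + 1)
      rw [hf i (by omega), hf (i + 1) (by omega)]
      rcases ((hE' _ _).1 (hw1 i hi)).2 with hz | hz
      · exact ⟨w i, hz, Or.inl rfl⟩
      · exact ⟨w (i + 1), hz, Or.inr rfl⟩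
  choose code hcode using hcode
  -- counting
  have hcount : Nat.card {π : Fin n ≃ W // A.acc (A.table (L.pull π) r) = false} ≤
      ∑ c : W × (Fin h → Fin d), Nat.card {π : Fin n ≃ W // Ev L A r h (follow L c.1 c.2) π} := by
    rw [← Nat.card_sigma]
    refine Nat.card_le_card_of_injective
      (fun x : {π : Fin n ≃ W // A.acc (A.table (L.pull π) r) = false} =>
        (⟨code x.1 x.2, x.1, hcode x.1 x.2⟩ : Σ c : W × (Fin h → Fin d),
          {π : Fin n ≃ W // Ev L A r h (follow L c.1 c.2) π})) ?_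
    intro x y hxy
    have := congrArg (fun z : Σ c : W × (Fin h → Fin d),
          {π : Fin n ≃ W // Ev L A r h (follow L c.1 c.2) π} => z.2.1) hxy
    exact Subtype.ext this
  calc Nat.card {π : Fin n ≃ W // A.acc (A.table (L.pull π) r) = false} * (n - 2 * q) ^ m
      ≤ (∑ c : W × (Fin h → Fin d),
          Nat.card {π : Fin n ≃ W // Ev L A r h (follow L c.1 c.2) π}) * (n - 2 * q) ^ m :=
        Nat.mul_le_mul_right _ hcount
    _ = ∑ c : W × (Fin h → Fin d),
          Nat.card {π : Fin n ≃ W // Ev L A r h (follow L c.1 c.2) π} * (n - 2 * q) ^ m := by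
        rw [Finset.sum_mul]
    _ ≤ ∑ _c : W × (Fin h → Fin d),
          (2 * (2 * d + 1) ^ r * (r * q)) ^ m * Nat.card (Fin n ≃ W) :=
        Finset.sum_le_sum fun c _ => ev_le hSEED hAPART L A r q m g hq hL hm hg _
    _ = Fintype.card W * d ^ h * (2 * (2 * d + 1) ^ r * (r * q)) ^ m * Nat.card (Fin n ≃ W) := by
        rw [Finset.sum_const, Finset.card_univ, Fintype.card_prod, Fintype.card_fun,
          Fintype.card_fin, Fintype.card_fin, smul_eq_mul, ← mul_assoc]

end Pool.Agent.AcyTest
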