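import Pool.Agent.AcyTest.Targets

/-!
# MP_08c6cd_lc, job ACY-RUN: elementary facts about runs
-/

namespace Pool.Agent.AcyTest

namespace RUN

variable {V : Type} [DecidableEq V] {d : ℕ}

theorem table_succ (A : RAlg V d) (G : DG V d) (k : ℕ) :
    A.table G (k + 1) = fun x => if x ∈ A.qs G k then some (G.ans x) else A.table G k x := rfl

theorem table_eq (A : RAlg V d) (G G' : DG V d) (r : ℕ)
    (h : ∀ k < r, ∀ x ∈ A.qs G k, G'.ans x = G.ans x) : ∀ k ≤ r, A.table G' k = A.table G k := by
  intro k
  induction k with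
  | zero => intro _; rfl
  | succ k ih =>
    intro hk
    have h1 := ih (by omega)
    have h2 : A.qs G' k = A.qs G k := by
      unfold RAlg.qs
      rw [h1]
    funext x
    rw [table_succ, table_succ]
    simp only [h2, h1]
    by_cases hx : x ∈ A.qs G k
    · rw [if_pos hx, if_pos hx, h k (by omega) x hx]
    · rw [if_neg hx, if_neg hx]

omit [DecidableEq V] in
theorem ans_adj (G : DG V d) (z : Query V d) (x : V) (h : G.ans z = some x) :
    G.und.Adj z.2.1 x := by
  obtain ⟨b, y, i⟩ := z
  unfold DG.ans at h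
  cases b
  · simp only [Bool.false_eq_true, if_false] at h
    have hE : G.E x y := (G.compat x y).2 ⟨i, h⟩
    refine ⟨?_, Or.inr hE⟩
    rintro rfl
    exact G.E_irrefl _ hE
  · simp only [if_true] at h
    have hE : G.E y x := ⟨i, h⟩
    refine ⟨?_, Or.inl hE⟩
    rintro rfl
    exact G.E_irrefl _ hE

theorem near_fresh (A : RAlg V d) (G : DG V d) : ∀ k, ∀ x ∈ A.lab G k,
    ∃ j ≤ k, ∃ y ∈ A.fresh G j, ∃ p : G.und.Walk y x, p.length ≤ k := by
  intro k
  induction k using Nat.strong_induction_on with
  | _ k ih =>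
    intro x hx
    by_cases hk : x ∈ A.known G k
    · unfold RAlg.known at hk
      rw [Finset.mem_biUnion] at hk
      obtain ⟨j, hj, hxj⟩ := hk
      rw [Finset.mem_range] at hj
      rw [Finset.mem_union] at hxj
      rcases hxj with hxj | hxj
      · obtain ⟨i, hi, y, hy, p, hp⟩ := ih j hj x hxj
        exact ⟨i, by omega, y, hy, p, by omega⟩
      · rw [Finset.mem_biUnion] at hxj
        obtain ⟨z, hz, hxz⟩ := hxj
        rw [Option.mem_toFinset, Option.mem_def] at hxz
        have hzl : z.2.1 ∈ A.lab G j := Finset.mem_image_of_mem _ hz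
        obtain ⟨i, hi, y, hy, p, hp⟩ := ih j hj z.2.1 hzl
        refine ⟨i, by omega, y, hy, p.concat (ans_adj G z x hxz), ?_⟩
        rw [SimpleGraph.Walk.length_concat]
        omega
    · exact ⟨k, le_rfl, x, Finset.mem_sdiff.2 ⟨hx, hk⟩, SimpleGraph.Walk.nil, Nat.zero_le _⟩

theorem card_lab (A : RAlg V d) (G : DG V d) (k : ℕ) : (A.lab G k).card ≤ (A.qs G k).card :=
  Finset.card_image_le

theorem card_answers (A : RAlg V d) (G : DG V d) (k : ℕ) :
    ((A.qs G k).biUnion fun x => (G.ans x).toFinset).card ≤ (A.qs G k).card := by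
  refine Finset.card_biUnion_le.trans ?_
  refine (Finset.sum_le_card_nsmul _ _ 1 fun x _ => ?_).trans (by simp)
  cases G.ans x <;> simp

theorem card_known (A : RAlg V d) (G : DG V d) (k : ℕ) :
    (A.known G k).card ≤ 2 * A.cost G k := by
  refine Finset.card_biUnion_le.trans ?_
  unfold RAlg.cost
  rw [Finset.mul_sum]
  refine Finset.sum_le_sum fun j _ => ?_
  refine (Finset.card_union_le _ _).trans ?_
  have h1 := card_lab A G j
  have h2 := card_answers A G j
  have h3 : (A.ask j (A.table G j)).card = (A.qs G j).card := rfl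
  omega

theorem card_seen (A : RAlg V d) (G : DG V d) (k : ℕ) :
    (A.known G k ∪ A.fresh G k).card ≤ 2 * A.cost G (k + 1) := by
  refine (Finset.card_union_le _ _).trans ?_
  have h1 := card_known A G k
  have h2 : (A.fresh G k).card ≤ (A.qs G k).card :=
    (Finset.card_le_card Finset.sdiff_subset).trans (card_lab A G k)
  have h3 : A.cost G (k + 1) = A.cost G k + (A.qs G k).card := by
    unfold RAlg.cost
    rw [Finset.sum_range_succ]
    rfl
  omega

end RUN

/-- RUN: elementary facts about runs. -/
theorem tRUN : T_RUN := by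
  intro V _ d A G
  exact ⟨fun G' r h => RUN.table_eq A G G' r h, RUN.near_fresh A G, RUN.card_seen A G⟩

end Pool.Agent.AcyTest
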