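import Pool.Agent.AcyTest.Targets

/-!
# MP_08c6cd_lc: sets far from each other are rarely all hit
-/

namespace Pool.Agent.AcyTest

namespace SEED

set_option linter.unusedSectionVars false

variable {W : Type} [Fintype W] [DecidableEq W] {d : ℕ}

/-- a set and its neighbours -/
def nb (L : DG W d) (T : Finset W) : Finset W :=
  T.biUnion fun z => {z} ∪ (Finset.univ.biUnion fun i => (L.out z i).toFinset) ∪
    (Finset.univ.biUnion fun i => (L.inn z i).toFinset)

lemma card_opt (o : Option W) : o.toFinset.card ≤ 1 := by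
  cases o <;> simp

lemma card_nb (L : DG W d) (T : Finset W) : (nb L T).card ≤ T.card * (2 * d + 1) := by
  unfold nb
  refine Finset.card_biUnion_le_card_mul _ _ _ fun z _ => ?_
  refine (Finset.card_union_le _ _).trans ?_
  have h1 : ∀ f : Fin d → Option W,
      (Finset.univ.biUnion fun i => (f i).toFinset).card ≤ d := by
    intro f
    refine (Finset.card_biUnion_le_card_mul _ _ 1 fun i _ => card_opt _).trans ?_
    simp
  have h2 := Finset.card_union_le ({z} : Finset W) (Finset.univ.biUnion fun i =>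
    (L.out z i).toFinset)
  have h3 := h1 (L.out z)
  have h4 := h1 (L.inn z)
  rw [Finset.card_singleton] at h2
  omega

lemma subset_nb (L : DG W d) (T : Finset W) : T ⊆ nb L T := by
  intro z hz
  unfold nb
  rw [Finset.mem_biUnion]
  exact ⟨z, hz, by simp⟩

lemma adj_nb (L : DG W d) (T : Finset W) {x y : W} (hx : x ∈ T) (h : L.und.Adj x y) :
    y ∈ nb L T := by
  unfold nb
  rw [Finset.mem_biUnion]
  refine ⟨x, hx, ?_⟩
  rcases h.2 with ⟨i, hi⟩ | h2
  · rw [Finset.mem_union]; left
    rw [Finset.mem_union]; right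
    rw [Finset.mem_biUnion]
    exact ⟨i, Finset.mem_univ _, by simp [hi]⟩
  · obtain ⟨j, hj⟩ := (L.compat y x).mp h2
    rw [Finset.mem_union]; right
    rw [Finset.mem_biUnion]
    exact ⟨j, Finset.mem_univ _, by simp [hj]⟩

/-- the `k`-neighbourhood -/
def nbk (L : DG W d) (T : Finset W) : ℕ → Finset W
  | 0 => T
  | k + 1 => nb L (nbk L T k)

lemma card_nbk (L : DG W d) (T : Finset W) (k : ℕ) :
    (nbk L T k).card ≤ T.card * (2 * d + 1) ^ k := by
  induction k with
  | zero => simp [nbk]
  | succ k ih =>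
    refine (card_nb L _).trans ?_
    rw [pow_succ, ← mul_assoc]
    exact Nat.mul_le_mul_right _ ih

lemma nbk_mono (L : DG W d) (T : Finset W) {k l : ℕ} (h : k ≤ l) : nbk L T k ⊆ nbk L T l := by
  induction h with
  | refl => exact Finset.Subset.refl _
  | step _ ih => exact ih.trans (subset_nb L _)

lemma walk_nbk (L : DG W d) (T : Finset W) {x z : W} (p : L.und.Walk x z) :
    ∀ k, x ∈ nbk L T k → z ∈ nbk L T (k + p.length) := by
  induction p with
  | nil => intro k hx; simpa using hx
  | cons h p ih =>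
    intro k hx
    have := ih (k + 1) (adj_nb L _ hx h)
    rw [SimpleGraph.Walk.length_cons]
    have e : k + (p.length + 1) = k + 1 + p.length := by ring
    rw [e]; exact this

/-- projection of the relabelled graph -/
def hom {n : ℕ} (L : DG W d) (π : Fin n ≃ W) : (L.pull π).und →g L.und where
  toFun := π
  map_rel' := by
    intro a b h
    refine ⟨fun h1 => h.1 (π.injective h1), ?_⟩
    rcases h.2 with h2 | h2
    · left; exact (DG.pull_E L π a b).mp h2
    · right; exact (DG.pull_E L π b a).mp h2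

lemma map_walk {n : ℕ} (L : DG W d) (π : Fin n ≃ W) {x y : Fin n}
    (p : (L.pull π).und.Walk y x) : ∃ p' : L.und.Walk (π x) (π y), p'.length = p.length := by
  have h : ∃ p' : L.und.Walk (hom L π x) (hom L π y), p'.length = p.length :=
    ⟨(p.map (hom L π)).reverse, by
      rw [SimpleGraph.Walk.length_reverse, SimpleGraph.Walk.length_map]⟩
  exact h

end SEED

open SEED in
theorem tSEED (hHIT : T_HIT) (hRUN : T_RUN) : T_SEED := by
  classical
  intro n d W _ _ L A r q m s hcost S hS hfar
  set U : Fin m → Finset W := fun i => Finset.univ.filter fun z =>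
    ∃ x ∈ S i, ∃ p : L.und.Walk x z, p.length ≤ r with hU
  have hmem : ∀ i z, z ∈ U i ↔ ∃ x ∈ S i, ∃ p : L.und.Walk x z, p.length ≤ r := by
    intro i z; simp [hU]
  have hdisj : ∀ i j, i ≠ j → Disjoint (U i) (U j) := by
    intro i j hij
    rw [Finset.disjoint_left]
    intro z hz1 hz2
    obtain ⟨x, hx, p, hp⟩ := (hmem i z).mp hz1
    obtain ⟨y, hy, p', hp'⟩ := (hmem j z).mp hz2
    have := hfar i j hij x hx y hy (p.append p'.reverse)
    rw [SimpleGraph.Walk.length_append, SimpleGraph.Walk.length_reverse] at this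
    omega
  have hcard : ∀ i, (U i).card ≤ s * (2 * d + 1) ^ r := by
    intro i
    have h1 : U i ⊆ nbk L (S i) r := by
      intro z hz
      obtain ⟨x, hx, p, hp⟩ := (hmem i z).mp hz
      have := walk_nbk L (S i) p 0 hx
      exact nbk_mono L (S i) (by omega) this
    calc (U i).card ≤ (nbk L (S i) r).card := Finset.card_le_card h1
      _ ≤ (S i).card * (2 * d + 1) ^ r := card_nbk L _ _
      _ ≤ s * (2 * d + 1) ^ r := Nat.mul_le_mul_right _ (hS i)
  have hmain := hHIT n d W L A r q m (s * (2 * d + 1) ^ r) hcost U hdisj hcard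
  refine le_trans ?_ hmain
  refine Nat.mul_le_mul_right _ ?_
  refine Nat.card_le_card_of_injective
    (fun π => (⟨π.1, ?_⟩ : {π : Fin n ≃ W // ∀ i, ∃ k < r, ∃ x ∈ A.fresh (L.pull π) k,
      π x ∈ U i})) ?_
  · intro i
    obtain ⟨x, hx, hxS⟩ := π.2 i
    unfold RAlg.labs at hx
    rw [Finset.mem_biUnion] at hx
    obtain ⟨k, hk, hxk⟩ := hx
    rw [Finset.mem_range] at hk
    obtain ⟨j, hj, y, hy, p, hp⟩ := (hRUN (Fin n) d A (L.pull π.1)).2.1 k x hxk
    obtain ⟨p', hp'⟩ := map_walk L π.1 p
    exact ⟨j, by omega, y, hy, (hmem i _).mpr ⟨π.1 x, hxS, p', by omega⟩⟩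
  · intro a b hab
    have := congrArg Subtype.val hab
    exact Subtype.ext this

end Pool.Agent.AcyTest
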