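import Pool.Agent.AcyTest.Targets

/-!
# MP_08c6cd_lc: SURG

Changing a voltage by a transposition: local surgery on the labelling.
-/

namespace Pool.Agent.AcyTest

namespace SURG

/-- vertices of the lift -/
abbrev LW (U : Type) (K s : ℕ) : Type := (U × Fin K) ⊕ Fin s

section

variable {U : Type} {K s : ℕ}

/-- one of the two marked points over `u` is in `X` -/
def Mk (β δ : U → Fin K) (X : Set (LW U K s)) (u : U) : Prop :=
  Sum.inl (u, β u) ∈ X ∨ Sum.inl (u, δ u) ∈ X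

/-- the graph of active edges -/
def act (G : SimpleGraph U) (β δ : U → Fin K) (X : Set (LW U K s)) : SimpleGraph U where
  Adj u v := G.Adj u v ∧ (Mk β δ X u ∨ Mk β δ X v)
  symm := ⟨fun _ _ h => ⟨h.1.symm, h.2.symm⟩⟩
  loopless := ⟨fun _ h => h.1.ne rfl⟩

/-- the region of the surgery -/
def RR (G : SimpleGraph U) (β δ : U → Fin K) (X : Set (LW U K s)) (v₀ : U) : Set U :=
  {u | (act G β δ X).Reachable v₀ u}

open Classical in
/-- the permutation of the sheets over `u` -/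
noncomputable def sw (β δ : U → Fin K) (R : Set U) (u : U) : Equiv.Perm (Fin K) :=
  if u ∈ R then Equiv.swap (β u) (δ u) else 1

theorem sw_pos {β δ : U → Fin K} {R : Set U} {u : U} (h : u ∈ R) :
    sw β δ R u = Equiv.swap (β u) (δ u) := if_pos h

theorem sw_neg {β δ : U → Fin K} {R : Set U} {u : U} (h : u ∉ R) : sw β δ R u = 1 := if_neg h

theorem sw_sw (β δ : U → Fin K) (R : Set U) (u : U) (k : Fin K) :
    sw β δ R u (sw β δ R u k) = k := by
  by_cases h : u ∈ R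
  · rw [sw_pos h, Equiv.swap_apply_self]
  · rw [sw_neg h]; rfl

/-- the surgery on the vertices of the lift -/
noncomputable def al (β δ : U → Fin K) (R : Set U) : LW U K s → LW U K s
  | .inl (u, k) => .inl (u, sw β δ R u k)
  | .inr j => .inr j

theorem al_al (β δ : U → Fin K) (R : Set U) : Function.Involutive (al (s := s) β δ R) := by
  rintro (⟨u, k⟩ | j)
  · simp only [al, sw_sw]
  · rfl

theorem mk_al (β δ : U → Fin K) (R : Set U) (X : Set (LW U K s)) (u : U) :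
    Mk β δ {y | al β δ R y ∈ X} u ↔ Mk β δ X u := by
  unfold Mk
  simp only [Set.mem_ofPred_eq, al]
  by_cases h : u ∈ R
  · rw [sw_pos h, Equiv.swap_apply_left, Equiv.swap_apply_right]
    exact Or.comm
  · rw [sw_neg h]
    rfl

theorem act_al (G : SimpleGraph U) (β δ : U → Fin K) (R : Set U) (X : Set (LW U K s)) :
    act G β δ {y | al β δ R y ∈ X} = act G β δ X := by
  ext u v
  simp only [act, mk_al]

theorem RR_al (G : SimpleGraph U) (β δ : U → Fin K) (R : Set U) (X : Set (LW U K s)) (v₀ : U) :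
    RR G β δ {y | al β δ R y ∈ X} v₀ = RR G β δ X v₀ := by
  unfold RR
  rw [act_al]

theorem RR_self (G : SimpleGraph U) (β δ : U → Fin K) (X : Set (LW U K s)) (v₀ : U) :
    v₀ ∈ RR G β δ X v₀ := SimpleGraph.Reachable.refl _

theorem RR_step {G : SimpleGraph U} {β δ : U → Fin K} {X : Set (LW U K s)} {v₀ u v : U}
    (hu : u ∈ RR G β δ X v₀) (h : G.Adj u v) (hm : Mk β δ X u ∨ Mk β δ X v) :
    v ∈ RR G β δ X v₀ :=
  SimpleGraph.Reachable.trans hu (SimpleGraph.Adj.reachable (G := act G β δ X) ⟨h, hm⟩)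

end

/-! ### The setting -/

/-- everything which does not depend on the labelling -/
structure Ctx {U : Type} {d : ℕ} [DecidableEq U] (H : DG U d) (K h : ℕ)
    (σ : U → U → Equiv.Perm (Fin K)) (u₀ v₀ : U) (k₁ k₂ : Fin K) (G₀ : SimpleGraph U)
    (β δ : U → Fin K) : Prop where
  anti : ∀ u v, H.E u v → ¬ H.E v u
  hE : H.E u₀ v₀
  le : G₀ ≤ H.und
  adj : ∀ u v, H.E u v → ¬ (u = u₀ ∧ v = v₀) → G₀.Adj u v
  nadj : ¬ G₀.Adj v₀ u₀
  beta : ∀ u v, H.E u v → G₀.Adj u v → (∃ p : G₀.Walk v₀ u, p.length ≤ h) →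
    (∃ p : G₀.Walk v₀ v, p.length ≤ h) → β v = σ u v (β u) ∧ δ v = σ u v (δ u)
  b0 : β v₀ = σ u₀ v₀ k₁
  d0 : δ v₀ = σ u₀ v₀ k₂

section

variable {U : Type} {d : ℕ} [DecidableEq U] {H : DG U d} {K s h : ℕ}
  {σ : U → U → Equiv.Perm (Fin K)} {u₀ v₀ : U} {k₁ k₂ : Fin K} {G₀ : SimpleGraph U}
  {β δ : U → Fin K}

/-- the new voltages -/
def new (σ : U → U → Equiv.Perm (Fin K)) (u₀ v₀ : U) (k₁ k₂ : Fin K) :
    U → U → Equiv.Perm (Fin K) :=
  Function.update σ u₀ (Function.update (σ u₀) v₀ (σ u₀ v₀ * Equiv.swap k₁ k₂))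

theorem new_self : new σ u₀ v₀ k₁ k₂ u₀ v₀ = σ u₀ v₀ * Equiv.swap k₁ k₂ := by
  simp [new]

theorem new_ne {u v : U} (hne : ¬ (u = u₀ ∧ v = v₀)) : new σ u₀ v₀ k₁ k₂ u v = σ u v := by
  unfold new
  by_cases hu : u = u₀
  · subst hu
    have hv : v ≠ v₀ := fun hv => hne ⟨rfl, hv⟩
    rw [Function.update_self, Function.update_of_ne hv]
  · rw [Function.update_of_ne hu]

theorem swap_conj (f : Equiv.Perm (Fin K)) (a b k : Fin K) :
    Equiv.swap (f a) (f b) (f k) = f (Equiv.swap a b k) := by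
  rw [Equiv.swap_apply_apply]
  simp

/-- The local computation. -/
theorem key (C : Ctx H K h σ u₀ v₀ k₁ k₂ G₀ β δ) (X : Set (LW U K s))
    (good : ∀ u ∈ RR G₀ β δ X v₀, ∃ p : G₀.Walk v₀ u, p.length < h)
    (hu₀ : u₀ ∉ RR G₀ β δ X v₀) {u v : U} (hE : H.E u v) (k : Fin K)
    (hX : (Sum.inl (u, k) : LW U K s) ∈ X ∨ (Sum.inl (v, σ u v k) : LW U K s) ∈ X) :
    new σ u₀ v₀ k₁ k₂ u v (sw β δ (RR G₀ β δ X v₀) u k) =
      sw β δ (RR G₀ β δ X v₀) v (σ u v k) := by
  by_cases h0 : u = u₀ ∧ v = v₀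
  · obtain ⟨rfl, rfl⟩ := h0
    rw [new_self, sw_neg hu₀, sw_pos (RR_self _ _ _ _ _), C.b0, C.d0, swap_conj]
    rfl
  · rw [new_ne h0]
    have hadj := C.adj u v hE h0
    -- both ends are near if one of them is in the region
    have near : u ∈ RR G₀ β δ X v₀ ∨ v ∈ RR G₀ β δ X v₀ →
        β v = σ u v (β u) ∧ δ v = σ u v (δ u) := by
      rintro (hu | hv)
      · obtain ⟨p, hp⟩ := good u hu
        refine C.beta u v hE hadj ⟨p, hp.le⟩ ⟨p.concat hadj, ?_⟩
        rw [SimpleGraph.Walk.length_concat]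
        omega
      · obtain ⟨p, hp⟩ := good v hv
        refine C.beta u v hE hadj ⟨p.concat hadj.symm, ?_⟩ ⟨p, hp.le⟩
        rw [SimpleGraph.Walk.length_concat]
        omega
    -- the sheet is not marked if exactly one end is in the region
    have unm : β v = σ u v (β u) ∧ δ v = σ u v (δ u) → ¬ Mk β δ X u ∧ ¬ Mk β δ X v →
        k ≠ β u ∧ k ≠ δ u ∧ σ u v k ≠ β v ∧ σ u v k ≠ δ v := by
      rintro ⟨h1, h2⟩ ⟨m1, m2⟩
      have c1 : k ≠ β u := by
        rintro rfl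
        rcases hX with hX | hX
        · exact m1 (Or.inl hX)
        · rw [← h1] at hX
          exact m2 (Or.inl hX)
      have c2 : k ≠ δ u := by
        rintro rfl
        rcases hX with hX | hX
        · exact m1 (Or.inr hX)
        · rw [← h2] at hX
          exact m2 (Or.inr hX)
      refine ⟨c1, c2, ?_, ?_⟩
      · rw [h1]; exact fun h => c1 ((σ u v).injective h)
      · rw [h2]; exact fun h => c2 ((σ u v).injective h)
    by_cases hu : u ∈ RR G₀ β δ X v₀
    · obtain ⟨h1, h2⟩ := near (Or.inl hu)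
      by_cases hv : v ∈ RR G₀ β δ X v₀
      · rw [sw_pos hu, sw_pos hv, h1, h2, swap_conj]
      · have hm : ¬ Mk β δ X u ∧ ¬ Mk β δ X v := by
          constructor
          · exact fun hm => hv (RR_step hu hadj (Or.inl hm))
          · exact fun hm => hv (RR_step hu hadj (Or.inr hm))
        obtain ⟨c1, c2, -, -⟩ := unm ⟨h1, h2⟩ hm
        rw [sw_pos hu, sw_neg hv, Equiv.swap_apply_of_ne_of_ne c1 c2]
        rfl
    · by_cases hv : v ∈ RR G₀ β δ X v₀
      · obtain ⟨h1, h2⟩ := near (Or.inr hv)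
        have hm : ¬ Mk β δ X u ∧ ¬ Mk β δ X v := by
          constructor
          · exact fun hm => hu (RR_step hv hadj.symm (Or.inr hm))
          · exact fun hm => hu (RR_step hv hadj.symm (Or.inl hm))
        obtain ⟨-, -, c3, c4⟩ := unm ⟨h1, h2⟩ hm
        rw [sw_neg hu, sw_pos hv, Equiv.swap_apply_of_ne_of_ne c3 c4]
        rfl
      · rw [sw_neg hu, sw_neg hv]
        rfl

theorem out_al (C : Ctx H K h σ u₀ v₀ k₁ k₂ G₀ β δ) (X : Set (LW U K s))
    (good : ∀ u ∈ RR G₀ β δ X v₀, ∃ p : G₀.Walk v₀ u, p.length < h)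
    (hu₀ : u₀ ∉ RR G₀ β δ X v₀) (y : LW U K s) (hy : y ∈ X) (i : Fin d) :
    (H.lift K s (new σ u₀ v₀ k₁ k₂)).out (al β δ (RR G₀ β δ X v₀) y) i =
      ((H.lift K s σ).out y i).map (al β δ (RR G₀ β δ X v₀)) := by
  rcases y with ⟨u, k⟩ | j
  · show (H.out u i).map _ = ((H.out u i).map _).map _
    rcases hv : H.out u i with _ | v
    · rfl
    · simp only [Option.map_some, Option.some.injEq, al, Sum.inl.injEq, Prod.mk.injEq, true_and]
      exact key C X good hu₀ ⟨i, hv⟩ k (Or.inl hy)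
  · rfl

theorem inn_al (C : Ctx H K h σ u₀ v₀ k₁ k₂ G₀ β δ) (X : Set (LW U K s))
    (good : ∀ u ∈ RR G₀ β δ X v₀, ∃ p : G₀.Walk v₀ u, p.length < h)
    (hu₀ : u₀ ∉ RR G₀ β δ X v₀) (y : LW U K s) (hy : y ∈ X) (i : Fin d) :
    (H.lift K s (new σ u₀ v₀ k₁ k₂)).inn (al β δ (RR G₀ β δ X v₀) y) i =
      ((H.lift K s σ).inn y i).map (al β δ (RR G₀ β δ X v₀)) := by
  rcases y with ⟨v, k⟩ | j
  · show (H.inn v i).map _ = ((H.inn v i).map _).map _
    rcases hu : H.inn v i with _ | u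
    · rfl
    · simp only [Option.map_some, Option.some.injEq, al, Sum.inl.injEq, Prod.mk.injEq, true_and]
      rw [Equiv.symm_apply_eq]
      have := key C X good hu₀ ((H.compat u v).2 ⟨i, hu⟩) ((σ u v).symm k) (Or.inr (by
        rw [Equiv.apply_symm_apply]; exact hy))
      rw [this, Equiv.apply_symm_apply]
  · rfl

end

section

variable {U : Type} {d : ℕ} [DecidableEq U] {H : DG U d} {K s h : ℕ}
  {σ : U → U → Equiv.Perm (Fin K)} {u₀ v₀ : U} {k₁ k₂ : Fin K} {G₀ : SimpleGraph U}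
  {β δ : U → Fin K} {n : ℕ} {r : ℕ}

/-- the images of the labels asked about -/
def XX (A : RAlg (Fin n) d) (L : DG (LW U K s) d) (r : ℕ) (π : Fin n ≃ LW U K s) :
    Set (LW U K s) := {y | π.symm y ∈ A.labs (L.pull π) r}

/-- the new labelling -/
noncomputable def newL (β δ : U → Fin K) (R : Set U) (π : Fin n ≃ LW U K s) :
    Fin n ≃ LW U K s := π.trans (al_al (s := s) β δ R).toPerm

theorem newL_symm (β δ : U → Fin K) (R : Set U) (π : Fin n ≃ LW U K s) (y : LW U K s) :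
    (newL β δ R π).symm y = π.symm (al β δ R y) := rfl

theorem newL_apply (β δ : U → Fin K) (R : Set U) (π : Fin n ≃ LW U K s) (x : Fin n) :
    newL β δ R π x = al β δ R (π x) := rfl

theorem newL_newL (β δ : U → Fin K) (R : Set U) (π : Fin n ≃ LW U K s) :
    newL β δ R (newL β δ R π) = π := by
  ext x : 1
  rw [newL_apply, newL_apply, al_al]

theorem mem_labs {V : Type} [DecidableEq V] {A : RAlg V d} {G : DG V d} {r k : ℕ} (hk : k < r)
    {x : Query V d} (hx : x ∈ A.qs G k) : x.2.1 ∈ A.labs G r := by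
  unfold RAlg.labs RAlg.lab
  rw [Finset.mem_biUnion]
  exact ⟨k, Finset.mem_range.mpr hk, Finset.mem_image_of_mem _ hx⟩

theorem labs_congr {V : Type} [DecidableEq V] {A : RAlg V d} {G G' : DG V d} {r : ℕ}
    (h : ∀ k ≤ r, A.table G' k = A.table G k) : A.labs G' r = A.labs G r := by
  unfold RAlg.labs
  refine Finset.biUnion_congr rfl fun k hk => ?_
  unfold RAlg.lab RAlg.qs
  rw [h k (Finset.mem_range.mp hk).le]

theorem ans_eq (C : Ctx H K h σ u₀ v₀ k₁ k₂ G₀ β δ) (A : RAlg (Fin n) d)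
    (π : Fin n ≃ LW U K s)
    (good : ∀ u ∈ RR G₀ β δ (XX A (H.lift K s σ) r π) v₀, ∃ p : G₀.Walk v₀ u, p.length < h)
    (hu₀ : u₀ ∉ RR G₀ β δ (XX A (H.lift K s σ) r π) v₀) :
    ∀ k < r, ∀ x ∈ A.qs ((H.lift K s σ).pull π) k,
      ((H.lift K s (new σ u₀ v₀ k₁ k₂)).pull
        (newL β δ (RR G₀ β δ (XX A (H.lift K s σ) r π) v₀) π)).ans x =
      ((H.lift K s σ).pull π).ans x := by
  intro k hk x hx
  have hm : π x.2.1 ∈ XX A (H.lift K s σ) r π := by
    show π.symm (π x.2.1) ∈ A.labs ((H.lift K s σ).pull π) r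
    rw [Equiv.symm_apply_apply]
    exact mem_labs hk hx
  set R := RR G₀ β δ (XX A (H.lift K s σ) r π) v₀ with hR
  have e : ∀ o : Option (LW U K s),
      (o.map (al β δ R)).map (newL β δ R π).symm = o.map π.symm := by
    intro o
    rcases o with _ | y
    · rfl
    · simp only [Option.map_some, Option.some.injEq]
      rw [newL_symm, al_al]
  unfold DG.ans
  split_ifs
  · show ((H.lift K s (new σ u₀ v₀ k₁ k₂)).out (newL β δ R π x.2.1) x.2.2).map
        (newL β δ R π).symm = ((H.lift K s σ).out (π x.2.1) x.2.2).map π.symm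
    rw [newL_apply, out_al C _ good hu₀ _ hm, e]
  · show ((H.lift K s (new σ u₀ v₀ k₁ k₂)).inn (newL β δ R π x.2.1) x.2.2).map
        (newL β δ R π).symm = ((H.lift K s σ).inn (π x.2.1) x.2.2).map π.symm
    rw [newL_apply, inn_al C _ good hu₀ _ hm, e]

end

/-- a region which is not small contains a long path of active edges -/
theorem long_path {U : Type} {K s h : ℕ} {G₀ : SimpleGraph U} {β δ : U → Fin K}
    {X : Set (LW U K s)} {v₀ : U}
    (bad : ¬ ∀ u ∈ RR G₀ β δ X v₀, ∃ p : G₀.Walk v₀ u, p.length < h) :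
    ∃ w : ℕ → U, w 0 = v₀ ∧ (∀ i < h, G₀.Adj (w i) (w (i + 1))) ∧ Set.InjOn w (Set.Iic h) ∧
      ∀ i < h, Mk β δ X (w i) ∨ Mk β δ X (w (i + 1)) := by
  push Not at bad
  obtain ⟨u, hu, hlong⟩ := bad
  obtain ⟨p, hp⟩ := hu.exists_isPath
  have hle : act G₀ β δ X ≤ G₀ := fun a b h => h.1
  have hlen : h ≤ p.length := by
    have := hlong (p.mapLe hle)
    rwa [SimpleGraph.Walk.length_map] at this
  have hadj : ∀ i < h, (act G₀ β δ X).Adj (p.getVert i) (p.getVert (i + 1)) := by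
    intro i hi
    exact p.adj_getVert_succ (by omega)
  refine ⟨p.getVert, p.getVert_zero, fun i hi => (hadj i hi).1, ?_, fun i hi => (hadj i hi).2⟩
  refine hp.getVert_injOn.mono fun i hi => ?_
  simp only [Set.mem_Iic] at hi
  simp only [Set.mem_ofPred_eq]
  omega

/-- the far end of the changed edge is not in a small region -/
theorem u0_notin (hT : T_TREE) {U : Type} {h : ℕ} {G G₀ : SimpleGraph U} {u₀ v₀ : U}
    (hle : G₀ ≤ G) (hc : LongCyc G (2 * h + 1)) (hadj : G.Adj v₀ u₀) (hn : ¬ G₀.Adj v₀ u₀)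
    (p : G₀.Walk v₀ u₀) (hp : p.length < h) : False := by
  classical
  have h1 : (p.bypass.mapLe hle).IsPath := by
    rw [SimpleGraph.Walk.isPath_mapLe]
    exact p.bypass_isPath
  have h2 : (SimpleGraph.Walk.cons hadj SimpleGraph.Walk.nil : G.Walk v₀ u₀).IsPath := by
    rw [SimpleGraph.Walk.cons_isPath_iff]
    refine ⟨SimpleGraph.Walk.IsPath.nil, ?_⟩
    simp only [SimpleGraph.Walk.support_nil, List.mem_singleton]
    exact hadj.ne
  have h3 := p.length_bypass_le_length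
  have h4 := hT U G (2 * h + 1) hc v₀ u₀ _ _ h1 h2 (by
    simp only [SimpleGraph.Walk.length_map, SimpleGraph.Walk.length_cons,
      SimpleGraph.Walk.length_nil, SimpleGraph.Walk.mapLe]
    omega)
  have h5 : p.bypass.length = 1 := by
    have := congrArg SimpleGraph.Walk.length h4
    simpa [SimpleGraph.Walk.mapLe] using this
  exact hn (SimpleGraph.Walk.adj_of_length_eq_one h5)

end SURG

open SURG

theorem tSURG (hRUN : T_RUN) (hTREE : T_TREE) (hPOT : T_POT) : T_SURG := by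
  intro n d U _ _ H K s h A r σ u₀ v₀ k₁ k₂ hanti hcyc hh hE
  classical
  -- the graph without the edge
  let G₀ : SimpleGraph U :=
    { Adj := fun u v => H.und.Adj u v ∧ ¬ (u = u₀ ∧ v = v₀) ∧ ¬ (u = v₀ ∧ v = u₀)
      symm := ⟨fun u v hh => ⟨hh.1.symm, fun h1 => hh.2.2 ⟨h1.2, h1.1⟩,
        fun h1 => hh.2.1 ⟨h1.2, h1.1⟩⟩⟩
      loopless := ⟨fun u hh => hh.1.ne rfl⟩ }
  have hle : G₀ ≤ H.und := fun u v hh => hh.1
  have hcyc₀ : LongCyc G₀ (2 * h + 1) := by
    intro v p hp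
    have h1 : (p.mapLe hle).IsCycle := (SimpleGraph.Walk.isCycle_mapLe hle).mpr hp
    have h2 := hcyc v _ h1
    simpa [SimpleGraph.Walk.mapLe] using h2
  have hne : ∀ u v, H.E u v → u ≠ v := by
    rintro u v huv rfl
    exact H.E_irrefl u huv
  let sg : U → U → Equiv.Perm (Fin K) := fun u v =>
    if H.E u v then σ u v else if H.E v u then (σ v u)⁻¹ else 1
  have hsg : ∀ u v, sg v u = (sg u v)⁻¹ := by
    intro u v
    show (if H.E v u then σ v u else if H.E u v then (σ u v)⁻¹ else 1) =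
      (if H.E u v then σ u v else if H.E v u then (σ v u)⁻¹ else 1)⁻¹
    by_cases h1 : H.E u v
    · have h2 := hanti u v h1
      rw [if_pos h1, if_neg h2, if_pos h1]
    · by_cases h2 : H.E v u
      · rw [if_pos h2, if_neg h1, if_pos h2, inv_inv]
      · rw [if_neg h2, if_neg h1, if_neg h1, if_neg h2, inv_one]
  obtain ⟨τ, hτ⟩ := hPOT U (Equiv.Perm (Fin K)) G₀ h v₀ sg hcyc₀ hsg
  let β : U → Fin K := fun u => τ u ((τ v₀)⁻¹ (σ u₀ v₀ k₁))
  let δ : U → Fin K := fun u => τ u ((τ v₀)⁻¹ (σ u₀ v₀ k₂))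
  have C : Ctx H K h σ u₀ v₀ k₁ k₂ G₀ β δ :=
    { anti := hanti
      hE := hE
      le := hle
      adj := fun u v huv hno => ⟨⟨hne u v huv, Or.inl huv⟩, hno, by
        rintro ⟨rfl, rfl⟩
        exact hanti _ _ hE huv⟩
      nadj := fun hh => hh.2.2 ⟨rfl, rfl⟩
      beta := by
        intro u v huv hadj h1 h2
        have h3 := hτ u v hadj h1 h2
        have h4 : sg u v = σ u v := if_pos huv
        rw [h4] at h3
        refine ⟨?_, ?_⟩
        · show τ v _ = σ u v (τ u _)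
          rw [h3]; rfl
        · show τ v _ = σ u v (τ u _)
          rw [h3]; rfl
      b0 := by
        show τ v₀ ((τ v₀)⁻¹ (σ u₀ v₀ k₁)) = _
        simp
      d0 := by
        show τ v₀ ((τ v₀)⁻¹ (σ u₀ v₀ k₂)) = _
        simp }
  refine ⟨β, δ, ?_⟩
  -- the two graphs
  set L := H.lift K s σ with hL
  set L' := H.lift K s (Function.update σ u₀
    (Function.update (σ u₀) v₀ (σ u₀ v₀ * Equiv.swap k₁ k₂))) with hL'
  let Good : (Fin n ≃ LW U K s) → Prop := fun π =>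
    ∀ u ∈ RR G₀ β δ (XX A L r π) v₀, ∃ p : G₀.Walk v₀ u, p.length < h
  have hu₀ : ∀ π, Good π → u₀ ∉ RR G₀ β δ (XX A L r π) v₀ := by
    intro π hg hu
    obtain ⟨p, hp⟩ := hg u₀ hu
    exact u0_notin hTREE hle hcyc ⟨(hne _ _ hE).symm, Or.inr hE⟩ C.nadj p hp
  let Nw : (Fin n ≃ LW U K s) → (Fin n ≃ LW U K s) := fun π =>
    newL β δ (RR G₀ β δ (XX A L r π) v₀) π
  have htab : ∀ π, Good π → ∀ k ≤ r, A.table (L'.pull (Nw π)) k = A.table (L.pull π) k := by
    intro π hg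
    exact (hRUN (Fin n) d A (L.pull π)).1 (L'.pull (Nw π)) r (ans_eq C A π hg (hu₀ π hg))
  have hlabs : ∀ π, Good π → A.labs (L'.pull (Nw π)) r = A.labs (L.pull π) r :=
    fun π hg => labs_congr (htab π hg)
  -- the region is determined by the new labelling
  have hreg : ∀ π, Good π →
      RR G₀ β δ {y | (Nw π).symm y ∈ A.labs (L'.pull (Nw π)) r} v₀ =
        RR G₀ β δ (XX A L r π) v₀ := by
    intro π hg
    rw [hlabs π hg]
    exact RR_al G₀ β δ (RR G₀ β δ (XX A L r π) v₀) (XX A L r π) v₀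
  have hinj : ∀ π₁ π₂, Good π₁ → Good π₂ → Nw π₁ = Nw π₂ → π₁ = π₂ := by
    intro π₁ π₂ h1 h2 he
    have e1 := hreg π₁ h1
    have e2 := hreg π₂ h2
    rw [he, e2] at e1
    have e3 : newL β δ (RR G₀ β δ (XX A L r π₁) v₀) (Nw π₁) = π₁ := newL_newL _ _ _ _
    have e4 : newL β δ (RR G₀ β δ (XX A L r π₂) v₀) (Nw π₂) = π₂ := newL_newL _ _ _ _
    rw [← e3, ← e4, he, e1]
  -- the labellings which are not good
  have hbad : ∀ π, ¬ Good π → ∃ w : ℕ → U, w 0 = v₀ ∧
      (∀ i < h, H.und.Adj (w i) (w (i + 1))) ∧ Set.InjOn w (Set.Iic h) ∧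
      ∀ i < h, ∃ x ∈ A.labs (L.pull π) r,
        π x = .inl (w i, β (w i)) ∨ π x = .inl (w i, δ (w i)) ∨
        π x = .inl (w (i + 1), β (w (i + 1))) ∨ π x = .inl (w (i + 1), δ (w (i + 1))) := by
    intro π hb
    obtain ⟨w, h0, h1, h2, h3⟩ := long_path hb
    refine ⟨w, h0, fun i hi => (h1 i hi).1, h2, ?_⟩
    intro i hi
    rcases h3 i hi with (hm | hm) | (hm | hm)
    · exact ⟨_, hm, Or.inl (Equiv.apply_symm_apply _ _)⟩
    · exact ⟨_, hm, Or.inr (Or.inl (Equiv.apply_symm_apply _ _))⟩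
    · exact ⟨_, hm, Or.inr (Or.inr (Or.inl (Equiv.apply_symm_apply _ _)))⟩
    · exact ⟨_, hm, Or.inr (Or.inr (Or.inr (Equiv.apply_symm_apply _ _)))⟩
  -- counting
  rw [← Nat.card_sum]
  refine Nat.card_le_card_of_injective (fun π : {π : Fin n ≃ (U × Fin K) ⊕ Fin s //
      A.acc (A.table (L.pull π) r) = true} =>
    if hg : Good π.1 then Sum.inl ⟨Nw π.1, by rw [htab π.1 hg r le_rfl]; exact π.2⟩
    else Sum.inr ⟨π.1, hbad π.1 hg⟩) ?_
  rintro ⟨π₁, a1⟩ ⟨π₂, a2⟩ he
  simp only at he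
  by_cases h1 : Good π₁
  · by_cases h2 : Good π₂
    · rw [dif_pos h1, dif_pos h2] at he
      simp only [Sum.inl.injEq, Subtype.mk.injEq] at he
      exact Subtype.ext (hinj π₁ π₂ h1 h2 he)
    · rw [dif_pos h1, dif_neg h2] at he
      exact absurd he (by simp)
  · by_cases h2 : Good π₂
    · rw [dif_neg h1, dif_pos h2] at he
      exact absurd he (by simp)
    · rw [dif_neg h1, dif_neg h2] at he
      simp only [Sum.inr.injEq, Subtype.mk.injEq] at he
      exact Subtype.ext he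

end Pool.Agent.AcyTest
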